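import Pool.Agent.Q27.VS.Stm

/-!
# Copies of a clopen set and a remainder
-/

set_option autoImplicit false

open Set Topology Filter

namespace Pool.Agent.Q27.VS

theorem balance (X : Type) [TopologicalSpace X] [CSp X] : S_balance X := by
  classical
  intro G hV R hR hRn hRu n q
  obtain ⟨R', hR', hR'n, hR'R, hRR'⟩ := clopen_proper hR.isOpen hRn
  have hR'u : R' ≠ univ := by
    rintro rfl
    obtain ⟨x, hx⟩ := hRR'
    exact hx.2 (mem_univ x)
  obtain ⟨g, hgG, hg, -⟩ := hV univ R R' isClopen_univ hR hR' (subset_univ _) (subset_univ _)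
    hRn hR'n hRu hR'u
  have hgR : ∀ x ∈ R, g x ∈ R := fun x hx => hR'R (hg ⟨x, hx, rfl⟩)
  have hgpow : ∀ (j : ℕ), ∀ x ∈ R, (g ^ j) x ∈ R := by
    intro j
    induction j with
    | zero => intro x hx; exact hx
    | succ j ih => intro x hx; rw [pow_succ']; exact hgR _ (ih x hx)
  set E := R \ g '' R with hE
  have hEcl : IsClopen E := hR.diff (image_clopen g hR)
  have hEn : E.Nonempty := by
    obtain ⟨x, hx, hx'⟩ := hRR'
    exact ⟨x, hx, fun h => hx' (hg h)⟩
  obtain ⟨Y, Ycl, Yn, YE, Yd, Yr⟩ := pieces n hEcl.isOpen hEn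
  have hc : ∀ i, ∃ c ∈ G, c '' R ⊆ Y i := by
    intro i
    obtain ⟨c, hcG, hc, -⟩ := hV univ R (Y i) isClopen_univ hR (Ycl i) (subset_univ _)
      (subset_univ _) hRn (Yn i) hRu (by
        intro h
        obtain ⟨x, hx, hx'⟩ := hRR'
        obtain ⟨y, hy⟩ := hRn
        have h1 : g y ∈ Y i := h ▸ mem_univ _
        exact (YE i h1).2 ⟨y, hy, rfl⟩)
    exact ⟨c, hcG, hc⟩
  choose c hcG hcY using hc
  set N := E \ ⋃ i, c i '' R with hN
  have hcE : ∀ i, ∀ x ∈ R, c i x ∈ E := fun i x hx => YE i (hcY i ⟨x, hx, rfl⟩)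
  have hNcl : IsClopen N := by
    apply hEcl.diff
    exact isClopen_iUnion_of_finite fun i => image_clopen _ hR
  have hNn : N.Nonempty := by
    obtain ⟨x, hx, hx'⟩ := Yr
    refine ⟨x, hx, fun h => hx' ?_⟩
    obtain ⟨i, hi⟩ := mem_iUnion.1 h
    exact mem_iUnion.2 ⟨i, hcY i hi⟩
  -- the levels
  have hlev : ∀ (j j' : ℕ), j < j' → ∀ x ∈ E, ∀ y ∈ R, (g ^ j) x ≠ (g ^ j') y := by
    intro j j' hj x hx y hy h
    obtain ⟨l, rfl⟩ := Nat.exists_eq_add_of_lt hj
    rw [show j + l + 1 = j + (l + 1) by ring, pow_add, Homeomorph.mul_apply] at h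
    have h1 := (g ^ j).injective h
    rw [pow_succ', Homeomorph.mul_apply] at h1
    exact hx.2 ⟨_, hgpow l y hy, h1.symm⟩
  have hlev2 : ∀ (j j' : ℕ), j ≠ j' → ∀ x ∈ E, ∀ y ∈ E, (g ^ j) x ≠ (g ^ j') y := by
    intro j j' hj x hx y hy h
    rcases Nat.lt_or_gt_of_ne hj with h1 | h1
    · exact hlev j j' h1 x hx y hy.1 h
    · exact hlev j' j h1 y hy x hx.1 h.symm
  have hdec : ∀ (j : ℕ), ∀ x ∈ R, (∃ i < j, ∃ y ∈ E, x = (g ^ i) y) ∨ ∃ y ∈ R, x = (g ^ j) y := by
    intro j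
    induction j with
    | zero => intro x hx; exact Or.inr ⟨x, hx, rfl⟩
    | succ j ih =>
      intro x hx
      rcases ih x hx with ⟨i, hi, y, hy, h⟩ | ⟨y, hy, h⟩
      · exact Or.inl ⟨i, by omega, y, hy, h⟩
      · by_cases hyE : y ∈ g '' R
        · obtain ⟨z, hz, rfl⟩ := hyE
          exact Or.inr ⟨z, hz, by rw [h, pow_succ]; rfl⟩
        · exact Or.inl ⟨j, by omega, y, ⟨hy, hyE⟩, h⟩
  -- the maps
  let a : ℕ → (X ≃ₜ X) := fun s =>
    if h : s ≠ 0 ∧ (s - 1) / q < n then g ^ ((s - 1) % q) * c ⟨(s - 1) / q, h.2⟩ else g ^ q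
  have ha0 : a 0 = g ^ q := dif_neg (by simp)
  have has : ∀ s, s ≠ 0 → s ≤ q * n → ∃ i : Fin n, (s - 1) / q = i.1 ∧ (s - 1) % q < q ∧
      a s = g ^ ((s - 1) % q) * c i := by
    intro s hs hsn
    have hq : 0 < q := by
      rcases Nat.eq_zero_or_pos q with rfl | h
      · simp at hsn; omega
      · exact h
    have h1 : (s - 1) / q < n := by
      rw [Nat.div_lt_iff_lt_mul hq, mul_comm]
      omega
    exact ⟨⟨(s - 1) / q, h1⟩, rfl, Nat.mod_lt _ hq, dif_pos ⟨hs, h1⟩⟩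
  have hcdis : ∀ i i', i ≠ i' → ∀ x ∈ R, ∀ y ∈ R, c i x ≠ c i' y := by
    intro i i' hi x hx y hy h
    exact Set.disjoint_left.1 (Yd i i' hi) (hcY i ⟨x, hx, rfl⟩) (h ▸ hcY i' ⟨y, hy, rfl⟩)
  refine ⟨a, fun j => g ^ j, N, ?_, fun j => G.pow_mem hgG j, hNcl, hNn, ?_, ?_, ?_, ?_⟩
  · intro s
    by_cases h : s ≠ 0 ∧ (s - 1) / q < n
    · rw [show a s = _ from dif_pos h]
      exact G.mul_mem (G.pow_mem hgG _) (hcG _)
    · rw [show a s = _ from dif_neg h]
      exact G.pow_mem hgG _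
  · intro s hs t ht hst
    rw [Set.disjoint_left]
    rintro _ ⟨x, hx, rfl⟩ ⟨y, hy, h⟩
    by_cases hs0 : s = 0 <;> by_cases ht0 : t = 0
    · exact hst (hs0.trans ht0.symm)
    · obtain ⟨i, hi, hlt, hi'⟩ := has t ht0 ht
      rw [hs0, ha0, hi'] at h
      exact hlev _ q hlt _ (hcE i y hy) x hx h
    · obtain ⟨i, hi, hlt, hi'⟩ := has s hs0 hs
      rw [ht0, ha0, hi'] at h
      exact hlev _ q hlt _ (hcE i x hx) y hy h.symm
    · obtain ⟨i, hi, hlt, hi'⟩ := has s hs0 hs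
      obtain ⟨i2, hi2, hlt2, hi2'⟩ := has t ht0 ht
      rw [hi', hi2'] at h
      by_cases hm : (s - 1) % q = (t - 1) % q
      · rw [hm] at h
        have h1 := (g ^ ((t - 1) % q)).injective h
        by_cases hii : i = i2
        · apply hst
          subst hii
          have h3 := Nat.div_add_mod (s - 1) q
          have h4 := Nat.div_add_mod (t - 1) q
          rw [hi, hm] at h3
          rw [hi2] at h4
          omega
        · exact hcdis i2 i (fun h => hii h.symm) y hy x hx h1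
      · exact hlev2 _ _ hm _ (hcE i x hx) _ (hcE i2 y hy) h.symm
  · intro s hs t ht hst
    rw [Set.disjoint_left]
    rintro _ ⟨x, hx, rfl⟩ ⟨y, hy, h⟩
    exact hlev2 s t hst x hx.1 y hy.1 h.symm
  · intro s hs t ht
    rw [Set.disjoint_left]
    rintro _ ⟨x, hx, rfl⟩ ⟨y, hy, h⟩
    by_cases hs0 : s = 0
    · rw [hs0, ha0] at h
      exact hlev t q ht y hy.1 x hx h
    · obtain ⟨i, hi, hlt, hi'⟩ := has s hs0 hs
      rw [hi'] at h
      by_cases hm : (s - 1) % q = t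
      · rw [hm] at h
        have h1 := (g ^ t).injective h
        exact hy.2 (mem_iUnion.2 ⟨i, x, hx, h1.symm⟩)
      · exact hlev2 _ _ hm _ (hcE i x hx) _ hy.1 h.symm
  · intro x
    constructor
    · intro hx
      rcases hdec q x hx with ⟨j, hj, y, hy, h⟩ | ⟨y, hy, h⟩
      · by_cases hyc : y ∈ ⋃ i, c i '' R
        · left
          obtain ⟨i, z, hz, rfl⟩ := mem_iUnion.1 hyc
          have hlt : j + q * i.1 + 1 ≤ q * n := by
            have h1 : q * i.1 + q ≤ q * n := by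
              rw [← Nat.mul_succ]
              exact Nat.mul_le_mul_left _ i.2
            omega
          refine ⟨j + q * i.1 + 1, hlt, z, hz, ?_⟩
          obtain ⟨i2, hi2, -, hi2'⟩ := has (j + q * i.1 + 1) (by omega) hlt
          have h1 : (j + q * i.1 + 1 - 1) = j + q * i.1 := by omega
          rw [h1] at hi2 hi2'
          have hq : 0 < q := by omega
          rw [Nat.add_mul_div_left _ _ hq, Nat.div_eq_of_lt hj, zero_add] at hi2
          rw [Nat.add_mul_mod_self_left, Nat.mod_eq_of_lt hj] at hi2'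
          rw [hi2', h, ← Fin.ext hi2]
          rfl
        · exact Or.inr ⟨j, hj, y, ⟨hy, hyc⟩, h.symm⟩
      · exact Or.inl ⟨0, Nat.zero_le _, y, hy, by rw [ha0]; exact h.symm⟩
    · rintro (⟨s, hs, y, hy, rfl⟩ | ⟨t, ht, y, hy, rfl⟩)
      · by_cases hs0 : s = 0
        · rw [hs0, ha0]
          exact hgpow q y hy
        · obtain ⟨i, hi, hlt, hi'⟩ := has s hs0 hs
          rw [hi']
          exact hgpow _ _ (hcE i y hy).1
      · exact hgpow t y hy.1.1

end Pool.Agent.Q27.VS
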