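import Pool.Agent.Q27.VS.Stm

/-!
# Cantor space, and passage to abstract groups
-/

set_option autoImplicit false

open Set Topology Filter

namespace Pool.Agent.Q27.VS

instance : CSp (ℕ → Bool) where
  ne := ⟨fun _ => false⟩
  noiso := by
    intro x hx
    have h1 : Tendsto (fun n : ℕ => Function.update x n (!x n)) atTop (𝓝 x) := by
      rw [tendsto_pi_nhds]
      intro m
      refine tendsto_const_nhds.congr' ?_
      filter_upwards [eventually_gt_atTop m] with n hn
      rw [Function.update_of_ne (by omega)]
    have h2 : ∀ᶠ n : ℕ in atTop, Function.update x n (!x n) ∈ ({x} : Set (ℕ → Bool)) :=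
      h1 (hx.mem_nhds rfl)
    obtain ⟨n, hn⟩ := h2.exists
    have h3 := congrFun (mem_singleton_iff.1 hn) n
    simp at h3

variable {X : Type} [TopologicalSpace X]

theorem simp_of_isSimpleGroup (G : Subgroup (X ≃ₜ X)) [IsSimpleGroup G] : Simp G := by
  intro N hN hn
  have h1 : (N.subgroupOf G).Normal := by
    constructor
    intro n hn' g
    rw [Subgroup.mem_subgroupOf] at hn' ⊢
    exact hn g g.2 n hn'
  rcases h1.eq_bot_or_eq_top with h | h
  · left
    rw [Subgroup.subgroupOf_eq_bot] at h
    rw [eq_bot_iff]
    exact fun x hx => h.le_bot ⟨hx, hN hx⟩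
  · right
    exact le_antisymm hN (Subgroup.subgroupOf_eq_top.1 h)

/-- two elements of `G` generate `G` as a group if they do so inside the homeomorphism group -/
theorem closure_top (G : Subgroup (X ≃ₜ X)) (S : Set G)
    (h : Subgroup.closure ((fun x : G => (x : X ≃ₜ X)) '' S) = G) : Subgroup.closure S = ⊤ := by
  apply Subgroup.map_injective G.subtype_injective
  rw [MonoidHom.map_closure, ← MonoidHom.range_eq_map, Subgroup.range_subtype]
  exact h

end Pool.Agent.Q27.VS
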