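import Pool.Agent.Q27.VS.Engine
import Pool.Agent.Q27.VS.Balance
import Pool.Agent.Q27.VS.Cant
import Pool.Agent.Q299.VS.Gen
import Pool.Agent.Q299.VS.Comm
import Pool.Agent.Q299.VS.Cycle
import Pool.Agent.Q299.VS.Alt
import Pool.Agent.Q299.VS.Coprime
import Pool.Agent.Q299.VS.Len
import Pool.Agent.Q144.VS.Germ
import Pool.Agent.Q144.VS.Tri
import Pool.Agent.Q144.VS.Split
import Pool.Agent.Q144.VS.Tower
import Pool.Agent.Q144.VS.Union
import Pool.Agent.Q144.VS.Locate
import Pool.Agent.Q198.VS.Base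
import Pool.Agent.Q198.VS.Data

/-!
# Infinite uniform spread
-/

set_option autoImplicit false

open Set Topology Filter

namespace Pool.Agent.Q27.VS

section

variable (X : Type) [TopologicalSpace X] [CSp X]

theorem s_ext : S_ext X :=
  Pool.Agent.Q144.VS.ext X (Pool.Agent.Q144.VS.ext1 X (Pool.Agent.Q144.VS.germ X
    (Pool.Agent.Q299.VS.gen X)))

theorem s_tri : S_tri X :=
  Pool.Agent.Q144.VS.tri X (s_ext X) (Pool.Agent.Q299.VS.comm X) (Pool.Agent.Q144.VS.split X)

theorem s_cycle : S_cycle X :=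
  Pool.Agent.Q299.VS.cycle X (Pool.Agent.Q144.VS.tower X (s_tri X))

theorem s_alt : S_alt X := Pool.Agent.Q299.VS.alt X (s_cycle X)

theorem s_union : S_union X :=
  Pool.Agent.Q144.VS.union X (Pool.Agent.Q144.VS.split X) (s_cycle X)

theorem s_data : S_data X :=
  data X (base X (s_tri X) (s_alt X)) (s_cycle X) Pool.Agent.Q299.VS.coprime (balance X)
    Pool.Agent.Q299.VS.len

theorem s_place : S_place X := place X (s_ext X) (Pool.Agent.Q144.VS.locate X)

end

/-- For every `k` a finitely generated simple vigorous group contains an element `σ` such that for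
all nontrivial `α₁, …, α_k` some conjugate of `σ` generates the group with each `α_i`. -/
theorem main (X : Type) [TopologicalSpace X] [CSp X] (G : Subgroup (X ≃ₜ X)) (hV : Vig G)
    (hS : Simp G) (hF : G.FG) (k : ℕ) :
    ∃ σ ∈ G, ∀ α : Fin k → (X ≃ₜ X), (∀ i, α i ∈ G) → (∀ i, α i ≠ 1) →
      ∃ g ∈ G, ∀ i, Subgroup.closure ({α i, g * σ * g⁻¹} : Set (X ≃ₜ X)) = G := by
  obtain ⟨d⟩ := s_data X G hV hS hF k
  refine ⟨d.σ, d.σG, fun α hαG hα => ?_⟩
  obtain ⟨g, s, hg⟩ := s_place X G hV hS k d α hαG hα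
  refine ⟨g, hg.gG, fun i => ?_⟩
  exact cover X (s_union X) (s_alt X) G hV hS k d α g s hαG hg i
    fun m => engine X (Pool.Agent.Q299.VS.comm X) G k d α g s hg i m

end Pool.Agent.Q27.VS
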