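import Mathlib

/-!
# Vigorous groups of homeomorphisms: definitions and basic facts

`X` is a compact totally disconnected Hausdorff space without isolated points (for instance
Cantor space), groups act on the left.
-/

set_option autoImplicit false

open Set Topology Filter

namespace Pool.Agent.Q27.VS

/-- compact, Hausdorff, totally disconnected, nonempty, no isolated point -/
class CSp (X : Type) [TopologicalSpace X] : Prop extends
    CompactSpace X, T2Space X, TotallyDisconnectedSpace X where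
  ne : Nonempty X
  noiso : ∀ x : X, ¬ IsOpen ({x} : Set X)

/-- the homeomorphism `g` is the identity outside `A` -/
def Sup {X : Type} [TopologicalSpace X] (g : X ≃ₜ X) (A : Set X) : Prop :=
  ∀ x, x ∉ A → g x = x

/-- vigorous -/
def Vig {X : Type} [TopologicalSpace X] (G : Subgroup (X ≃ₜ X)) : Prop :=
  ∀ A B D : Set X, IsClopen A → IsClopen B → IsClopen D → B ⊆ A → D ⊆ A →
    B.Nonempty → D.Nonempty → B ≠ A → D ≠ A → ∃ g ∈ G, g '' B ⊆ D ∧ Sup g A

/-- simple (the trivial group is allowed) -/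
def Simp {X : Type} [TopologicalSpace X] (G : Subgroup (X ≃ₜ X)) : Prop :=
  ∀ N : Subgroup (X ≃ₜ X), N ≤ G → (∀ g ∈ G, ∀ n ∈ N, g * n * g⁻¹ ∈ N) → N = ⊥ ∨ N = G

/-- `f` coincides near each point with an element of `G` -/
def Loc {X : Type} [TopologicalSpace X] (G : Subgroup (X ≃ₜ X)) (f : X → X) : Prop :=
  ∀ x, ∃ g ∈ G, ∀ᶠ y in 𝓝 x, f y = g y

/-- `t` permutes `A`, `t A`, `t² A` cyclically (these three sets are disjoint), `t³ = 1`, and
`t` is the identity elsewhere -/
structure IsTri {X : Type} [TopologicalSpace X] (t : X ≃ₜ X) (A : Set X) : Prop where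
  d1 : ∀ x ∈ A, t x ∉ A
  d2 : ∀ x ∈ A, t (t x) ∉ A
  cyc : ∀ x ∈ A, t (t (t x)) = x
  out : ∀ x, x ∉ A → (∀ a ∈ A, x ≠ t a) → (∀ a ∈ A, x ≠ t (t a)) → t x = x

/-- the group generated by the three-cycles of `G` supported in `U` -/
def Alt {X : Type} [TopologicalSpace X] (G : Subgroup (X ≃ₜ X)) (U : Set X) :
    Subgroup (X ≃ₜ X) :=
  Subgroup.closure {t | t ∈ G ∧ Sup t U ∧ ∃ A, IsClopen A ∧ IsTri t A}

section Top

variable {X : Type} [TopologicalSpace X]

theorem clopen_nhd [CSp X] {x : X} {U : Set X} (hU : U ∈ 𝓝 x) :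
    ∃ N, IsClopen N ∧ x ∈ N ∧ N ⊆ U := by
  obtain ⟨V, hV, hxV⟩ := (isTopologicalBasis_isClopen (X := X)).mem_nhds_iff.1 hU
  exact ⟨V, hV, hxV.1, hxV.2⟩

/-- a nonempty open set has infinitely many points -/
theorem open_avoid [CSp X] {U : Set X} (hU : IsOpen U) (hne : U.Nonempty) {F : Set X}
    (hF : F.Finite) : ∃ x ∈ U, x ∉ F := by
  by_contra hcon
  push Not at hcon
  have hUF : U.Finite := hF.subset hcon
  obtain ⟨x, hx⟩ := hne
  have h1 : IsClosed (U \ {x}) := (hUF.subset sdiff_subset).isClosed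
  have h2 : ({x} : Set X) = U ∩ (U \ {x})ᶜ := by
    ext y
    simp only [mem_singleton_iff, mem_inter_iff, mem_compl_iff, Set.mem_sdiff, not_and, not_not]
    constructor
    · rintro rfl; exact ⟨hx, fun _ => rfl⟩
    · rintro ⟨h, h'⟩; exact h' h
  exact CSp.noiso x (h2 ▸ hU.inter h1.isOpen_compl)

/-- a clopen neighbourhood of `x` in the open set `U` which avoids the finite set `F` -/
theorem clopen_avoid [CSp X] {x : X} {U : Set X} (hU : IsOpen U) (hx : x ∈ U) {F : Set X}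
    (hF : F.Finite) (hxF : x ∉ F) : ∃ N, IsClopen N ∧ x ∈ N ∧ N ⊆ U ∧ Disjoint N F := by
  obtain ⟨N, hN, hxN, hNU⟩ := clopen_nhd
    ((hU.inter hF.isClosed.isOpen_compl).mem_nhds ⟨hx, hxF⟩)
  refine ⟨N, hN, hxN, fun y hy => (hNU hy).1, ?_⟩
  rw [Set.disjoint_left]
  intro y hy hyF
  exact (hNU hy).2 hyF

/-- a nonempty open set contains a nonempty clopen set avoiding a finite set -/
theorem clopen_in [CSp X] {U : Set X} (hU : IsOpen U) (hne : U.Nonempty) {F : Set X}
    (hF : F.Finite) : ∃ N, IsClopen N ∧ N.Nonempty ∧ N ⊆ U ∧ Disjoint N F := by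
  obtain ⟨x, hx, hxF⟩ := open_avoid hU hne hF
  obtain ⟨N, hN, hxN, hNU, hNF⟩ := clopen_avoid hU hx hF hxF
  exact ⟨N, hN, ⟨x, hxN⟩, hNU, hNF⟩

/-- inside a nonempty open set there is a nonempty clopen set with nonempty complement in it -/
theorem clopen_proper [CSp X] {U : Set X} (hU : IsOpen U) (hne : U.Nonempty) :
    ∃ N, IsClopen N ∧ N.Nonempty ∧ N ⊆ U ∧ (U \ N).Nonempty := by
  obtain ⟨x, hx⟩ := hne
  obtain ⟨N, hN, hNn, hNU, hNF⟩ := clopen_in hU ⟨x, hx⟩ (finite_singleton x)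
  exact ⟨N, hN, hNn, hNU, x, hx, fun h => Set.disjoint_left.1 hNF h rfl⟩

/-- `n` disjoint nonempty clopen sets in a nonempty open set, not covering it -/
theorem pieces [CSp X] (n : ℕ) {U : Set X} (hU : IsOpen U) (hne : U.Nonempty) :
    ∃ P : Fin n → Set X, (∀ i, IsClopen (P i)) ∧ (∀ i, (P i).Nonempty) ∧ (∀ i, P i ⊆ U) ∧
      (∀ i j, i ≠ j → Disjoint (P i) (P j)) ∧ (U \ ⋃ i, P i).Nonempty := by
  induction n generalizing U with
  | zero =>
    refine ⟨fun i => i.elim0, fun i => i.elim0, fun i => i.elim0, fun i => i.elim0,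
      fun i => i.elim0, ?_⟩
    simpa using hne
  | succ n ih =>
    obtain ⟨N, hN, hNn, hNU, hNr⟩ := clopen_proper hU hne
    obtain ⟨P, h1, h2, h3, h4, h5⟩ := ih (hU.sdiff hN.isClosed) hNr
    refine ⟨Fin.cons N P, ?_, ?_, ?_, ?_, ?_⟩
    · intro i; refine Fin.cases hN (fun j => ?_) i; exact h1 j
    · intro i; refine Fin.cases hNn (fun j => ?_) i; exact h2 j
    · intro i; refine Fin.cases hNU (fun j => ?_) i; exact (h3 j).trans sdiff_subset
    · intro i j
      refine Fin.cases ?_ (fun i => ?_) i <;> refine Fin.cases ?_ (fun j => ?_) j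
      · intro h; exact absurd rfl h
      · intro _
        simp only [Fin.cons_zero, Fin.cons_succ]
        rw [Set.disjoint_left]
        intro x hx hx'
        exact (h3 j hx').2 hx
      · intro _
        simp only [Fin.cons_zero, Fin.cons_succ]
        rw [Set.disjoint_right]
        intro x hx hx'
        exact (h3 i hx').2 hx
      · intro h
        simp only [Fin.cons_succ]
        exact h4 i j (fun h' => h (by rw [h']))
    · obtain ⟨x, hx, hx'⟩ := h5
      refine ⟨x, hx.1, ?_⟩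
      simp only [mem_iUnion, not_exists] at hx' ⊢
      intro i
      refine Fin.cases ?_ (fun j => ?_) i
      · exact hx.2
      · exact hx' j

end Top

section Sup

variable {X : Type} [TopologicalSpace X]

theorem Sup.one (A : Set X) : Sup (1 : X ≃ₜ X) A := fun _ _ => rfl

theorem Sup.mono {g : X ≃ₜ X} {A B : Set X} (h : Sup g A) (hAB : A ⊆ B) : Sup g B :=
  fun x hx => h x (fun hx' => hx (hAB hx'))

theorem Sup.mul {g h : X ≃ₜ X} {A : Set X} (hg : Sup g A) (hh : Sup h A) : Sup (g * h) A := by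
  intro x hx
  rw [Homeomorph.mul_apply, hh x hx, hg x hx]

theorem Sup.inv {g : X ≃ₜ X} {A : Set X} (hg : Sup g A) : Sup g⁻¹ A := by
  intro x hx
  rw [Homeomorph.inv_apply, Homeomorph.symm_apply_eq]
  exact (hg x hx).symm

theorem Sup.mem {g : X ≃ₜ X} {A : Set X} (hg : Sup g A) {x : X} (hx : x ∈ A) : g x ∈ A := by
  by_contra h
  have h1 := hg _ h
  have h2 : g x = x := g.injective h1
  rw [h2] at h
  exact h hx

theorem Sup.mem_iff {g : X ≃ₜ X} {A : Set X} (hg : Sup g A) {x : X} : g x ∈ A ↔ x ∈ A :=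
  ⟨fun h => by by_contra hx; rw [hg x hx] at h; exact hx h, hg.mem⟩

theorem Sup.image {g : X ≃ₜ X} {A : Set X} (hg : Sup g A) : g '' A = A := by
  ext x
  constructor
  · rintro ⟨y, hy, rfl⟩; exact hg.mem hy
  · intro hx
    refine ⟨g⁻¹ x, hg.inv.mem hx, ?_⟩
    simp

theorem Sup.conj {g : X ≃ₜ X} {A : Set X} (hg : Sup g A) (h : X ≃ₜ X) :
    Sup (h * g * h⁻¹) (h '' A) := by
  intro x hx
  have h1 : h⁻¹ x ∉ A := fun h' => hx ⟨_, h', by simp⟩
  rw [Homeomorph.mul_apply, Homeomorph.mul_apply, hg _ h1]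
  simp

theorem Sup.univ (g : X ≃ₜ X) : Sup g univ := fun x hx => absurd (mem_univ x) hx

theorem image_clopen (g : X ≃ₜ X) {A : Set X} (hA : IsClopen A) : IsClopen (g '' A) :=
  ⟨g.isClosedMap _ hA.1, g.isOpenMap _ hA.2⟩

theorem image_ne_univ (g : X ≃ₜ X) {A : Set X} (hA : A ≠ univ) : g '' A ≠ univ := by
  intro h
  apply hA
  rw [eq_univ_iff_forall] at h ⊢
  intro x
  obtain ⟨y, hy, hxy⟩ := h (g x)
  exact g.injective hxy ▸ hy

theorem IsTri.conj {t : X ≃ₜ X} {A : Set X} (ht : IsTri t A) (h : X ≃ₜ X) :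
    IsTri (h * t * h⁻¹) (h '' A) := by
  have key : ∀ a, (h * t * h⁻¹) (h a) = h (t a) := by intro a; simp
  constructor
  · rintro _ ⟨a, ha, rfl⟩ ⟨b, hb, hab⟩
    rw [key] at hab
    exact ht.d1 a ha (h.injective hab ▸ hb)
  · rintro _ ⟨a, ha, rfl⟩ ⟨b, hb, hab⟩
    rw [key, key] at hab
    exact ht.d2 a ha (h.injective hab ▸ hb)
  · rintro _ ⟨a, ha, rfl⟩
    rw [key, key, key, ht.cyc a ha]
  · intro x hx h1 h2
    obtain ⟨y, rfl⟩ := h.surjective x
    rw [key, ht.out y (fun hy => hx ⟨y, hy, rfl⟩)]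
    · intro a ha hya
      exact h1 (h a) ⟨a, ha, rfl⟩ (by rw [key, hya])
    · intro a ha hya
      exact h2 (h a) ⟨a, ha, rfl⟩ (by rw [key, key, hya])

end Sup

end Pool.Agent.Q27.VS
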