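import Pool.Agent.Q27.VS.Stm

/-!
# Covering the space
-/

set_option autoImplicit false

open Set Topology Filter

namespace Pool.Agent.Q27.VS

section

variable {X : Type} [TopologicalSpace X] {G : Subgroup (X ≃ₜ X)} {k : ℕ}

theorem Data.fixpt (d : Data G k) {z z' : Idx k d.M} (hz : z ≠ z') {t : ℕ} (ht : t < d.ℓ z')
    {b : X} (hb : b ∈ d.B z') : d.c z ((d.c z' ^ t) b) = (d.c z' ^ t) b := by
  apply d.fix
  intro s hs h
  exact Set.disjoint_left.1 (d.disj z s z' t hs ht (fun h => absurd h hz)) h ⟨b, hb, rfl⟩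

theorem Data.fixpt_pow (d : Data G k) {z z' : Idx k d.M} (hz : z ≠ z') {t : ℕ} (ht : t < d.ℓ z')
    {b : X} (hb : b ∈ d.B z') (n : ℕ) : (d.c z ^ n) ((d.c z' ^ t) b) = (d.c z' ^ t) b := by
  induction n with
  | zero => rfl
  | succ n ih => rw [pow_succ, Homeomorph.mul_apply, d.fixpt hz ht hb, ih]

theorem Data.conj_mem (d : Data G k) {g : X ≃ₜ X} {K : Subgroup (X ≃ₜ X)}
    (h : g * d.σ * g⁻¹ ∈ K) (z : Idx k d.M) : g * d.c z * g⁻¹ ∈ K := by
  obtain ⟨n, hn⟩ := Subgroup.mem_zpowers_iff.1 (d.pow z)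
  have h1 := K.zpow_mem h n
  rw [conj_zpow, hn] at h1
  exact h1

end

theorem cover (X : Type) [TopologicalSpace X] [CSp X] (hun : S_union X) (halt : S_alt X) :
    S_cover X := by
  classical
  intro G hV hS k d α g s hα hg i hφ
  set K := Subgroup.closure ({α i, g * d.σ * g⁻¹} : Set (X ≃ₜ X)) with hK
  have hαK : α i ∈ K := Subgroup.subset_closure (by simp)
  have hσK : g * d.σ * g⁻¹ ∈ K := Subgroup.subset_closure (by simp)
  have hKG : K ≤ G := by
    rw [hK, Subgroup.closure_le]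
    rintro x (rfl | rfl)
    · exact hα i
    · exact G.mul_mem (G.mul_mem hg.gG d.σG) (G.inv_mem hg.gG)
  have hβ : ∀ z (n : ℕ), g * d.c z ^ n * g⁻¹ ∈ K := by
    intro z n
    have h1 := K.pow_mem (d.conj_mem hσK z) n
    rwa [conj_pow] at h1
  have hAP : Alt G (g '' d.P) ≤ K := by
    intro t ht
    have h1 := halt.1 G _ g⁻¹ (G.inv_mem hg.gG) t ht
    have h2 : (g⁻¹ : X ≃ₜ X) '' (g '' d.P) = d.P := by
      rw [image_image]
      simp
    rw [h2] at h1
    have h3 : ∀ u ∈ Subgroup.closure (Set.range d.φ), g * u * g⁻¹ ∈ K := by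
      intro u hu
      induction hu using Subgroup.closure_induction with
      | mem u hu => obtain ⟨m, rfl⟩ := hu; exact hφ m
      | one => simp
      | mul u v _ _ hu hv =>
        have := K.mul_mem hu hv
        rwa [show g * u * g⁻¹ * (g * v * g⁻¹) = g * (u * v) * g⁻¹ by group] at this
      | inv u _ hu =>
        have := K.inv_mem hu
        rwa [show (g * u * g⁻¹)⁻¹ = g * u⁻¹ * g⁻¹ by group] at this
    have h4 := h3 _ (d.alt h1)
    rwa [show g * (g⁻¹ * t * g⁻¹⁻¹) * g⁻¹ = t by group] at h4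
  have hmove : ∀ h ∈ K, ∀ U, Alt G U ≤ K → Alt G (h '' U) ≤ K := by
    intro h hh U hU t ht
    have h1 := halt.1 G _ h⁻¹ (G.inv_mem (hKG hh)) t ht
    have h2 : (h⁻¹ : X ≃ₜ X) '' (h '' U) = U := by
      rw [image_image]
      simp
    rw [h2] at h1
    have h3 := K.mul_mem (K.mul_mem hh (hU h1)) (K.inv_mem hh)
    rwa [show h * (h⁻¹ * t * h⁻¹⁻¹) * h⁻¹ = t by group] at h3
  set P' := g '' d.P with hP'
  have hP'cl : IsClopen P' := image_clopen g d.Pcl
  set U := P' ∪ ((α i)⁻¹ : X ≃ₜ X) '' P' with hUdef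
  have hUcl : IsClopen U := hP'cl.union (image_clopen _ hP'cl)
  have hU : Alt G U ≤ K := by
    refine hun G hV hS K _ _ hP'cl (image_clopen _ hP'cl) ?_ hAP (hmove _ (K.inv_mem hαK) _ hAP)
    obtain ⟨x, hx, hx'⟩ := hg.c1 i
    exact ⟨x, hx, _, hx', by simp⟩
  have hport : ∀ z, z ≠ none → ∃ t < d.ℓ z, ∀ b ∈ d.B z, g ((d.c z ^ t) b) ∈ U := by
    intro z hz
    obtain ⟨t, ht, h⟩ := hg.c2 i z hz
    exact ⟨t, ht, fun b hb => Or.inr ⟨_, h b hb, by simp⟩⟩
  let V : (Σ z : Idx k d.M, Fin (d.ℓ z)) → Set X := fun p => (g * d.c p.1 ^ p.2.1 * g⁻¹) '' U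
  have hVcl : ∀ p, IsClopen (V p) := fun p => image_clopen _ hUcl
  have hVK : ∀ p, Alt G (V p) ≤ K := fun p => hmove _ (hβ _ _) _ hU
  have hmeet : ∀ p, (U ∩ V p).Nonempty := by
    rintro ⟨z, t⟩
    match z, t with
    | none, t =>
      obtain ⟨b, hb⟩ := d.non
      obtain ⟨t1, ht1, h⟩ := hport (some (Sum.inr false)) (by simp)
      refine ⟨_, h b hb, _, h b hb, ?_⟩
      simp only [Homeomorph.mul_apply, Homeomorph.inv_apply, Homeomorph.symm_apply_apply]
      rw [d.fixpt_pow (by simp) ht1 hb]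
    | some w, t =>
      obtain ⟨p, hp⟩ := d.Pnon
      have h0 : 0 < d.ℓ none := by have := d.len none; omega
      have h1 : g p ∈ U := Or.inl ⟨p, hp, rfl⟩
      refine ⟨g p, h1, g p, h1, ?_⟩
      simp only [Homeomorph.mul_apply, Homeomorph.inv_apply, Homeomorph.symm_apply_apply]
      have h2 := d.fixpt_pow (z := some w) (z' := none) (by simp) h0 (b := p)
        (by rw [d.main]; exact hp) t.1
      rw [pow_zero, Homeomorph.one_apply] at h2
      rw [h2]
  have hind : ∀ T : Finset (Σ z : Idx k d.M, Fin (d.ℓ z)),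
      IsClopen (U ∪ ⋃ p ∈ T, V p) ∧ Alt G (U ∪ ⋃ p ∈ T, V p) ≤ K := by
    intro T
    induction T using Finset.induction_on with
    | empty => simpa using ⟨hUcl, hU⟩
    | insert p T _ ih =>
      have h1 : (U ∪ ⋃ q ∈ insert p T, V q) = (U ∪ ⋃ q ∈ T, V q) ∪ V p := by
        rw [Finset.set_biUnion_insert]
        ac_rfl
      rw [h1]
      refine ⟨ih.1.union (hVcl p), hun G hV hS K _ _ ih.1 (hVcl p) ?_ ih.2 (hVK p)⟩
      obtain ⟨x, hx, hx'⟩ := hmeet p
      exact ⟨x, Or.inl hx, hx'⟩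
  have hcov : (U ∪ ⋃ p ∈ (Finset.univ : Finset (Σ z : Idx k d.M, Fin (d.ℓ z))), V p) = univ := by
    rw [eq_univ_iff_forall]
    intro x
    right
    obtain ⟨y, rfl⟩ := g.surjective x
    obtain ⟨z, t, ht, b, hb, rfl⟩ := d.cov y
    simp only [Finset.mem_univ, iUnion_true, mem_iUnion]
    match z, ht, hb with
    | none, ht, hb =>
      refine ⟨⟨none, ⟨t, ht⟩⟩, g b, Or.inl ⟨b, ?_, rfl⟩, ?_⟩
      · rw [← d.main]; exact hb
      · simp
    | some w, ht, hb =>
      obtain ⟨t1, ht1, h⟩ := hport (some w) (by simp)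
      have hpos : 0 < d.ℓ (some w) := by omega
      refine ⟨⟨some w, ⟨(t + d.ℓ (some w) - t1) % d.ℓ (some w), Nat.mod_lt _ hpos⟩⟩, _, h b hb, ?_⟩
      simp only [Homeomorph.mul_apply, Homeomorph.inv_apply, Homeomorph.symm_apply_apply]
      rw [← pow_eq_pow_mod _ (d.per (some w))]
      congr 1
      rw [← Homeomorph.mul_apply, ← pow_add,
        show t + d.ℓ (some w) - t1 + t1 = t + d.ℓ (some w) by omega, pow_add, d.per, mul_one]
  have hfin := (hind Finset.univ).2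
  rw [hcov, halt.2 G hV hS] at hfin
  exact le_antisymm hKG hfin

end Pool.Agent.Q27.VS
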