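import Pool.Agent.Q27.VS.Stm2
import Pool.Agent.Q27.VS.Final

/-!
# Covering the space, aperiodic case
-/

set_option autoImplicit false

open Set Topology Filter

namespace Pool.Agent.Q27.VS

theorem cover2 (X : Type) [TopologicalSpace X] [CSp X] : S_cover2 X := by
  intro G hV hS k M v n σ hσ U hU hUn φ α hα g hg i hAP
  set K := Subgroup.closure ({α i, g * σ * g⁻¹} : Set (X ≃ₜ X)) with hK
  have hαK : α i ∈ K := Subgroup.subset_closure (by simp)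
  have hσK : g * σ * g⁻¹ ∈ K := Subgroup.subset_closure (by simp)
  have hKG : K ≤ G := by
    rw [hK, Subgroup.closure_le]
    rintro x (rfl | rfl)
    · exact hα i
    · exact G.mul_mem (G.mul_mem hg.gG hσ) (G.inv_mem hg.gG)
  have hβK : ∀ j : ℤ, g * σ ^ j * g⁻¹ ∈ K := by
    intro j
    have h1 := K.zpow_mem hσK j
    rwa [conj_zpow] at h1
  have hmove : ∀ h ∈ K, ∀ V, Alt G V ≤ K → Alt G (h '' V) ≤ K := by
    intro h hh V hVK t ht
    have h1 := (s_alt X).1 G _ h⁻¹ (G.inv_mem (hKG hh)) t ht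
    have h2 : (h⁻¹ : X ≃ₜ X) '' (h '' V) = V := by
      rw [image_image]
      simp
    rw [h2] at h1
    have h3 := K.mul_mem (K.mul_mem hh (hVK h1)) (K.inv_mem hh)
    rwa [show h * (h⁻¹ * t * h⁻¹⁻¹) * h⁻¹ = t by group] at h3
  let P : ℤ → Set X := fun j => ⇑(g * σ ^ j * g⁻¹) '' (g '' U)
  let R : ℤ → Set X := fun j => ⇑(g * σ ^ j * g⁻¹ * (α i)⁻¹) '' (g '' U)
  have Pcl : ∀ j, IsClopen (P j) := fun j => image_clopen _ (image_clopen _ hU.cl)
  have Rcl : ∀ j, IsClopen (R j) := fun j => image_clopen _ (image_clopen _ hU.cl)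
  have PK : ∀ j, Alt G (P j) ≤ K := fun j => hmove _ (hβK j) _ hAP
  have RK : ∀ j, Alt G (R j) ≤ K := fun j => hmove _ (K.mul_mem (hβK j) (K.inv_mem hαK)) _ hAP
  have Pn : ∀ j, (P j).Nonempty := fun j => (hUn.image _).image _
  have Pmem : ∀ j x, x ∈ P j ↔ ∃ u ∈ U, x = g ((σ ^ j) u) := by
    intro j x
    constructor
    · rintro ⟨_, ⟨u, hu, rfl⟩, rfl⟩
      exact ⟨u, hu, by simp⟩
    · rintro ⟨u, hu, rfl⟩
      exact ⟨_, ⟨u, hu, rfl⟩, by simp⟩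
  have hPR : ∀ (j : ℤ) (q : ℕ), (∀ u ∈ U, α i (g ((σ ^ q) u)) ∈ g '' U) → P (j + q) ⊆ R j := by
    intro j q hq x hx
    obtain ⟨u, hu, rfl⟩ := (Pmem _ _).1 hx
    refine ⟨_, hq u hu, ?_⟩
    rw [zpow_add, zpow_natCast]
    simp
  have hR1 : ∀ j : ℤ, P j ⊆ R (j - v.p i) := by
    intro j
    have h1 := hPR (j - v.p i) (v.p i) (hg.port i)
    rwa [sub_add_cancel] at h1
  have hR2 : ∀ j : ℤ, P (j + 1) ⊆ R (j - v.p i) := by
    intro j
    have h1 := hPR (j - v.p i) (v.p i + 1) (hg.port1 i)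
    rwa [show j - (v.p i : ℤ) + ((v.p i + 1 : ℕ) : ℤ) = j + 1 by push_cast; ring] at h1
  let W : ℤ → Set X := fun j => P j ∪ R (j - v.p i) ∪ P (j + 1)
  have Wcl : ∀ j, IsClopen (W j) := fun j => ((Pcl _).union (Rcl _)).union (Pcl _)
  have WK : ∀ j, Alt G (W j) ≤ K := by
    intro j
    have h1 : Alt G (P j ∪ R (j - v.p i)) ≤ K := by
      refine s_union X G hV hS K _ _ (Pcl _) (Rcl _) ?_ (PK _) (RK _)
      obtain ⟨x, hx⟩ := Pn j
      exact ⟨x, hx, hR1 j hx⟩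
    refine s_union X G hV hS K _ _ ((Pcl _).union (Rcl _)) (Pcl _) ?_ h1 (PK _)
    obtain ⟨x, hx⟩ := Pn (j + 1)
    exact ⟨x, Or.inr (hR2 j hx), hx⟩
  let V : ℕ → Set X := fun r => ⋃ t ∈ Finset.range (r + 1), W (-(n : ℤ) + t)
  have hV' : ∀ r, IsClopen (V r) ∧ Alt G (V r) ≤ K := by
    intro r
    induction r with
    | zero => simpa [V] using ⟨Wcl (-(n : ℤ)), WK (-(n : ℤ))⟩
    | succ r ih =>
      have h1 : V (r + 1) = V r ∪ W (-(n : ℤ) + ((r + 1 : ℕ) : ℤ)) := by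
        simp only [V]
        rw [Finset.range_add_one, Finset.set_biUnion_insert, union_comm]
      rw [h1]
      refine ⟨ih.1.union (Wcl _), s_union X G hV hS K _ _ ih.1 (Wcl _) ?_ ih.2 (WK _)⟩
      obtain ⟨x, hx⟩ := Pn (-(n : ℤ) + ((r + 1 : ℕ) : ℤ))
      refine ⟨x, ?_, Or.inl (Or.inl hx)⟩
      simp only [V, mem_iUnion]
      refine ⟨r, Finset.mem_range.2 (Nat.lt_succ_self r), Or.inr ?_⟩
      rw [show -(n : ℤ) + (r : ℤ) + 1 = -(n : ℤ) + ((r + 1 : ℕ) : ℤ) by push_cast; ring]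
      exact hx
  have hcov : V (2 * n) = univ := by
    rw [eq_univ_iff_forall]
    intro x
    obtain ⟨j, hj, hjU⟩ := hU.cov (g⁻¹ x)
    rw [abs_lt] at hj
    simp only [V, mem_iUnion]
    refine ⟨((n : ℤ) - j).toNat, Finset.mem_range.2 (by omega), Or.inl (Or.inl ?_)⟩
    rw [Pmem]
    refine ⟨_, hjU, ?_⟩
    rw [Int.toNat_of_nonneg (by omega), show -(n : ℤ) + (n - j) = -j by ring, zpow_neg]
    simp
  have hfin := (hV' (2 * n)).2
  rw [hcov, (s_alt X).2 G hV hS] at hfin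
  exact le_antisymm hKG hfin

end Pool.Agent.Q27.VS
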