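import Pool.Agent.Q27.VS.Stm

/-!
# The conjugating element
-/

set_option autoImplicit false

open Set Topology Filter

namespace Pool.Agent.Q27.VS

section

variable {X : Type} [TopologicalSpace X]

theorem IsTri.inv {t : X ≃ₜ X} {A : Set X} (ht : IsTri t A) : IsTri t⁻¹ A := by
  have key : ∀ a ∈ A, t⁻¹ a = t (t a) := by
    intro a ha
    rw [Homeomorph.inv_apply, Homeomorph.symm_apply_eq]
    exact (ht.cyc a ha).symm
  have key2 : ∀ a ∈ A, t⁻¹ (t (t a)) = t a := by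
    intro a ha; simp
  constructor
  · intro a ha; rw [key a ha]; exact ht.d2 a ha
  · intro a ha; rw [key a ha, key2 a ha]; exact ht.d1 a ha
  · intro a ha; rw [key a ha, key2 a ha]; simp
  · intro x hx h1 h2
    rw [Homeomorph.inv_apply, Homeomorph.symm_apply_eq]
    refine (ht.out x hx ?_ ?_).symm
    · intro a ha h
      exact h2 a ha (by rw [key a ha, key2 a ha]; exact h)
    · intro a ha h
      exact h1 a ha (by rw [key a ha]; exact h)

theorem IsTri.sg {t : X ≃ₜ X} {A : Set X} (ht : IsTri t A) (b : Bool) : IsTri (sg t b) A := by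
  cases b
  · exact ht.inv
  · exact ht

theorem Sup.sg {t : X ≃ₜ X} {A : Set X} (ht : Sup t A) (b : Bool) : Sup (sg t b) A := by
  cases b
  · exact ht.inv
  · exact ht

theorem sg_mem {G : Subgroup (X ≃ₜ X)} {t : X ≃ₜ X} (ht : t ∈ G) (b : Bool) : sg t b ∈ G := by
  cases b
  · exact G.inv_mem ht
  · exact ht

/-- which generator has to move the location `(z, t)` -/
noncomputable def req {k M : ℕ} (s : Fin k × Fin M × Bool → ℕ) (z : Idx k M) (t : ℕ) :
    Option (Fin k) := by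
  classical
  exact match z with
  | none => if h : ∃ ι, s ι = t then some (Classical.choose h).1 else none
  | some _ => if h : 2 ≤ t ∧ t - 2 < k then some ⟨t - 2, h.2⟩ else none

theorem req_main {k M : ℕ} {s : Fin k × Fin M × Bool → ℕ} (hs : Function.Injective s)
    (ι : Fin k × Fin M × Bool) : req s none (s ι) = some ι.1 := by
  have h : ∃ ι', s ι' = s ι := ⟨ι, rfl⟩
  have h1 : Classical.choose h = ι := hs (Classical.choose_spec h)
  simp only [req]
  rw [dif_pos h, h1]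

theorem req_other {k M : ℕ} {s : Fin k × Fin M × Bool → ℕ} (w) (i : Fin k) :
    req s (some w) (2 + i.1) = some i := by
  have h : 2 ≤ 2 + i.1 ∧ 2 + i.1 - 2 < k := ⟨by omega, by omega⟩
  simp only [req]
  rw [dif_pos h]
  congr 1
  apply Fin.ext
  simp

/-- the open set required for a location -/
def reqSet {k : ℕ} (α : Fin k → (X ≃ₜ X)) : Option (Fin k) → Set X
  | none => univ
  | some i => {x | α i x ≠ x}

theorem reqSet_open [T2Space X] {k : ℕ} (α : Fin k → (X ≃ₜ X)) (o : Option (Fin k)) :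
    IsOpen (reqSet α o) := by
  cases o with
  | none => exact isOpen_univ
  | some i => exact isOpen_ne_fun (α i).continuous continuous_id

theorem reqSet_nonempty [Nonempty X] {k : ℕ} (α : Fin k → (X ≃ₜ X)) (hα : ∀ i, α i ≠ 1)
    (o : Option (Fin k)) : (reqSet α o).Nonempty := by
  cases o with
  | none => exact univ_nonempty
  | some i =>
    by_contra h
    rw [not_nonempty_iff_eq_empty, eq_empty_iff_forall_notMem] at h
    apply hα i
    ext x
    by_contra hx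
    exact h x hx

/-- the map on the piece `(z, t)` -/
def plU {G : Subgroup (X ≃ₜ X)} {k : ℕ} (d : Data G k) (α : Fin k → (X ≃ₜ X))
    (s : Fin k × Fin d.M × Bool → ℕ) (v : Idx k d.M → ℕ → (X ≃ₜ X)) :
    Idx k d.M → ℕ → (X ≃ₜ X)
  | some (Sum.inl ι), 0 => α ι.1 * v none (s ι) * (d.e ι)⁻¹
  | some (Sum.inl ι), 1 => α ι.1 * v none (s ι) * sg (d.φ ι.2.1) ι.2.2 * (d.e ι)⁻¹ *
      (d.c (some (Sum.inl ι)))⁻¹
  | some (Sum.inl ι), t + 2 => v (some (Sum.inl ι)) (t + 2) * (d.c (some (Sum.inl ι)) ^ (t + 2))⁻¹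
  | some (Sum.inr b), t => v (some (Sum.inr b)) t * (d.c (some (Sum.inr b)) ^ t)⁻¹
  | none, t => v none t * (d.c none ^ t)⁻¹

/-- the two special pieces of the engines -/
def Spec {k M : ℕ} (z : Idx k M) (t : ℕ) : Prop := ∃ ι, z = some (Sum.inl ι) ∧ t < 2

theorem plU_generic {G : Subgroup (X ≃ₜ X)} {k : ℕ} (d : Data G k) (α : Fin k → (X ≃ₜ X))
    (s : Fin k × Fin d.M × Bool → ℕ) (v : Idx k d.M → ℕ → (X ≃ₜ X)) (z : Idx k d.M) (t : ℕ)
    (h : ¬ Spec z t) : plU d α s v z t = v z t * (d.c z ^ t)⁻¹ := by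
  match z, t with
  | some (Sum.inl ι), 0 => exact absurd ⟨ι, rfl, by omega⟩ h
  | some (Sum.inl ι), 1 => exact absurd ⟨ι, rfl, by omega⟩ h
  | some (Sum.inl ι), t + 2 => rfl
  | some (Sum.inr b), t => rfl
  | none, t => rfl

end

set_option maxHeartbeats 1000000 in
theorem place (X : Type) [TopologicalSpace X] [CSp X] (hext : S_ext X) (hloc : S_locate X) :
    S_place X := by
  classical
  intro G hV hS k d α hαG hα
  have : Nonempty X := CSp.ne
  -- the positions in the main cycle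
  obtain ⟨s, spos, slt, sinj⟩ : ∃ s : Fin k × Fin d.M × Bool → ℕ, (∀ ι, 0 < s ι) ∧
      (∀ ι, s ι < d.ℓ none) ∧ Function.Injective s := by
    let E := Fintype.equivFin (Fin k × Fin d.M × Bool)
    refine ⟨fun ι => 1 + (E ι).1, fun ι => by show 0 < 1 + (E ι).1; omega, fun ι => ?_,
      fun a b h => ?_⟩
    · have h1 := (E ι).2
      have h2 := d.lenmain
      show 1 + (E ι).1 < _
      omega
    · have h1 : (E a).1 = (E b).1 := by
        have h2 : 1 + (E a).1 = 1 + (E b).1 := h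
        omega
      exact E.injective (Fin.ext h1)
  -- generic locations
  let S : Finset (X ≃ₜ X) := insert 1 (Finset.univ.image α ∪ Finset.univ.image fun i => (α i)⁻¹)
  have S1 : (1 : X ≃ₜ X) ∈ S := Finset.mem_insert_self _ _
  have Sα : ∀ i, α i ∈ S := fun i => by simp [S]
  have Sα' : ∀ i, (α i)⁻¹ ∈ S := fun i => by simp [S]
  obtain ⟨N, Ncl, Nne, NO, N1, N2⟩ := hloc S (Option (Σ z : Idx k d.M, Fin (d.ℓ z)))
    inferInstance (fun l => reqSet α (l.elim none fun p => req s p.1 p.2.1))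
    (fun l => reqSet_open α _) (fun l => reqSet_nonempty α hα _)
  let Nn : Idx k d.M → ℕ → Set X := fun z t =>
    if h : t < d.ℓ z then N (some ⟨z, ⟨t, h⟩⟩) else ∅
  have Nn_eq : ∀ z t (h : t < d.ℓ z), Nn z t = N (some ⟨z, ⟨t, h⟩⟩) := fun z t h => dif_pos h
  -- disjointness, in pointwise form
  have D1 : ∀ z t z' t', t < d.ℓ z → t' < d.ℓ z' → (z = z' → t ≠ t') → ∀ w ∈ S, ∀ w' ∈ S,
      ∀ x ∈ Nn z t, ∀ y ∈ Nn z' t', w x ≠ w' y := by
    intro z t z' t' ht ht' hne w hw w' hw' x hx y hy hxy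
    rw [Nn_eq z t ht] at hx
    rw [Nn_eq z' t' ht'] at hy
    refine Set.disjoint_left.1 (N1 _ _ ?_ w hw w' hw') ⟨x, hx, rfl⟩ ⟨y, hy, hxy.symm⟩
    intro h
    simp only [Option.some.injEq, Sigma.mk.injEq] at h
    obtain ⟨h1, h2⟩ := h
    subst h1
    exact hne rfl (by simpa using h2)
  have De : ∀ z t, t < d.ℓ z → ∀ w ∈ S, ∀ w' ∈ S, ∀ x ∈ Nn z t, ∀ y ∈ N none, w y ≠ w' x := by
    intro z t ht w hw w' hw' x hx y hy hxy
    rw [Nn_eq z t ht] at hx
    exact Set.disjoint_left.1 (N1 none (some ⟨z, ⟨t, ht⟩⟩) (by simp) w hw w' hw')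
      ⟨y, hy, rfl⟩ ⟨x, hx, hxy.symm⟩
  have D2 : ∀ z t, t < d.ℓ z → ∀ w ∈ S, (∀ x ∈ Nn z t, w x = x) ∨
      ∀ x ∈ Nn z t, w x ∉ Nn z t := by
    intro z t ht w hw
    rw [Nn_eq z t ht]
    rcases N2 (some ⟨z, ⟨t, ht⟩⟩) w hw with h | h
    · exact Or.inl h
    · exact Or.inr fun x hx hx' => Set.disjoint_left.1 h ⟨x, hx, rfl⟩ hx'
  -- places moved by the generators
  have M1 : ∀ ι : Fin k × Fin d.M × Bool, ∀ x ∈ Nn none (s ι), α ι.1 x ∉ Nn none (s ι) := by
    intro ι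
    rcases D2 none (s ι) (slt ι) (α ι.1) (Sα _) with h | h
    · exfalso
      have h1 := Nn_eq none (s ι) (slt ι)
      obtain ⟨x, hx⟩ := Nne (some ⟨none, ⟨s ι, slt ι⟩⟩)
      have h2 := NO _ hx
      simp only [Option.elim_some, req_main sinj, reqSet, mem_ofPred_eq] at h2
      exact h2 (h x (h1 ▸ hx))
    · exact h
  have M2 : ∀ w (i : Fin k), (2 + i.1 < d.ℓ (some w)) → ∀ x ∈ Nn (some w) (2 + i.1),
      α i x ∉ Nn (some w) (2 + i.1) := by
    intro w i hi
    rcases D2 (some w) (2 + i.1) hi (α i) (Sα _) with h | h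
    · exfalso
      have h1 := Nn_eq (some w) (2 + i.1) hi
      obtain ⟨x, hx⟩ := Nne (some ⟨some w, ⟨2 + i.1, hi⟩⟩)
      have h2 := NO _ hx
      simp only [Option.elim_some, req_other, reqSet, mem_ofPred_eq] at h2
      exact h2 (h x (h1 ▸ hx))
    · exact h
  -- the bases are proper
  have Bne : ∀ z, d.B z ≠ univ := by
    intro z
    match z with
    | none => rw [d.main]; exact d.Pne
    | some w =>
      intro h
      obtain ⟨p, hp⟩ := d.Pnon
      have hpos : 0 < d.ℓ (some w) := by have := d.len (some w); omega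
      have hpos' : 0 < d.ℓ none := by have := d.len none; omega
      have h1 := d.disj (some w) 0 none 0 hpos hpos' (by simp)
      rw [pow_zero, pow_zero, Set.disjoint_left] at h1
      have h2 : p ∈ d.B (some w) := by rw [h]; trivial
      have h3 : p ∈ d.B none := by rw [d.main]; exact hp
      exact h1 ⟨p, h2, rfl⟩ ⟨p, h3, rfl⟩
  -- maps into the locations
  have hv : ∀ z t, ∃ v ∈ G, t < d.ℓ z → ∀ b ∈ d.B z, v b ∈ Nn z t := by
    intro z t
    by_cases ht : t < d.ℓ z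
    · by_cases hB : (d.B z).Nonempty
      · have hNcl : IsClopen (Nn z t) := by rw [Nn_eq z t ht]; exact Ncl _
        have hNn : (Nn z t).Nonempty := by rw [Nn_eq z t ht]; exact Nne _
        have hNu : Nn z t ≠ univ := by
          intro h
          obtain ⟨y, hy⟩ := Nne none
          exact De z t ht 1 S1 1 S1 y (h ▸ mem_univ y) y hy rfl
        obtain ⟨v, hvG, hv, -⟩ := hV univ (d.B z) (Nn z t) isClopen_univ (d.Bcl z) hNcl
          (subset_univ _) (subset_univ _) hB hNn (Bne z) hNu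
        exact ⟨v, hvG, fun _ b hb => hv ⟨b, hb, rfl⟩⟩
      · exact ⟨1, G.one_mem, fun _ b hb => absurd ⟨b, hb⟩ hB⟩
    · exact ⟨1, G.one_mem, fun h => absurd h ht⟩
  choose v hvG hvN using hv
  -- the images of the pieces
  have UG : ∀ z t, plU d α s v z t ∈ G := by
    intro z t
    match z, t with
    | some (Sum.inl ι), 0 =>
      exact G.mul_mem (G.mul_mem (hαG _) (hvG _ _)) (G.inv_mem (d.eG _))
    | some (Sum.inl ι), 1 =>
      exact G.mul_mem (G.mul_mem (G.mul_mem (G.mul_mem (hαG _) (hvG _ _))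
        (sg_mem (d.φG _) _)) (G.inv_mem (d.eG _))) (G.inv_mem (d.cG _))
    | some (Sum.inl ι), t + 2 => exact G.mul_mem (hvG _ _) (G.inv_mem (G.pow_mem (d.cG _) _))
    | some (Sum.inr b), t => exact G.mul_mem (hvG _ _) (G.inv_mem (G.pow_mem (d.cG _) _))
    | none, t => exact G.mul_mem (hvG _ _) (G.inv_mem (G.pow_mem (d.cG _) _))
  have Ugen : ∀ z t, ¬ Spec z t → ∀ b, plU d α s v z t ((d.c z ^ t) b) = v z t b := by
    intro z t h b
    rw [plU_generic d α s v z t h]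
    simp
  have U0 : ∀ ι, ∀ a, plU d α s v (some (Sum.inl ι)) 0 (d.e ι a) = α ι.1 (v none (s ι) a) := by
    intro ι a
    simp [plU]
  have U1 : ∀ ι, ∀ a, plU d α s v (some (Sum.inl ι)) 1 (d.c (some (Sum.inl ι)) (d.e ι a)) =
      α ι.1 (v none (s ι) (sg (d.φ ι.2.1) ι.2.2 a)) := by
    intro ι a
    simp [plU]
  have hposz : ∀ z, 0 < d.ℓ z := fun z => by have := d.len z; omega
  have himg : ∀ z t, t < d.ℓ z → ∀ b ∈ d.B z,
      (¬ Spec z t ∧ plU d α s v z t ((d.c z ^ t) b) ∈ Nn z t) ∨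
      (∃ ι, z = some (Sum.inl ι) ∧ ((t = 0 ∧ ∃ a ∈ d.A ι.2.1,
          plU d α s v z t ((d.c z ^ t) b) = α ι.1 (v none (s ι) a)) ∨
        (t = 1 ∧ ∃ a ∈ d.A ι.2.1,
          plU d α s v z t ((d.c z ^ t) b) = α ι.1 (v none (s ι) (sg (d.φ ι.2.1) ι.2.2 a))))) := by
    intro z t ht b hb
    by_cases hsp : Spec z t
    · right
      obtain ⟨ι, rfl, ht2⟩ := hsp
      refine ⟨ι, rfl, ?_⟩
      rw [d.eng] at hb
      obtain ⟨a, ha, rfl⟩ := hb
      interval_cases t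
      · exact Or.inl ⟨rfl, a, ha, by rw [pow_zero, Homeomorph.one_apply, U0]⟩
      · exact Or.inr ⟨rfl, a, ha, by rw [pow_one, U1]⟩
    · left
      exact ⟨hsp, by rw [Ugen z t hsp]; exact hvN z t ht b hb⟩
  -- for the engine images: they lie in `α (Nn none (s ι))`
  have himg2 : ∀ z t, t < d.ℓ z → ∀ b ∈ d.B z,
      plU d α s v z t ((d.c z ^ t) b) ∈ Nn z t ∨
      ∃ ι, ∃ x ∈ Nn none (s ι), plU d α s v z t ((d.c z ^ t) b) = α ι.1 x := by
    intro z t ht b hb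
    rcases himg z t ht b hb with h | ⟨ι, -, ⟨-, a, ha, h⟩ | ⟨-, a, ha, h⟩⟩
    · exact Or.inl h.2
    · refine Or.inr ⟨ι, _, hvN none (s ι) (slt ι) a ?_, h⟩
      rw [d.main]; exact d.AP _ ha
    · refine Or.inr ⟨ι, _, hvN none (s ι) (slt ι) _ ?_, h⟩
      rw [d.main]; exact ((d.φP _).sg _).mem (d.AP _ ha)
  -- the extension
  let Ls : Finset (Σ z : Idx k d.M, Fin (d.ℓ z)) :=
    Finset.univ.filter fun p => ¬ (p.1 = none ∧ p.2.1 = 0)
  have hLs : ∀ p ∈ Ls, ¬ (p.1 = none ∧ p.2.1 = 0) := fun p hp => (Finset.mem_filter.1 hp).2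
  obtain ⟨g, hgG, hg⟩ := hext G hV hS (Σ z : Idx k d.M, Fin (d.ℓ z)) Ls
    (fun p => (d.c p.1 ^ p.2.1) '' d.B p.1) (fun p => plU d α s v p.1 p.2.1)
    (fun p _ => image_clopen _ (d.Bcl _)) (fun p _ => UG _ _)
    (by
      rintro ⟨z, t⟩ - ⟨z', t'⟩ - hne
      refine d.disj z t.1 z' t'.1 t.2 t'.2 ?_
      rintro rfl h
      exact hne (by rw [Fin.ext h]))
    (by
      rintro ⟨z, t, ht⟩ hp ⟨z', t', ht'⟩ hp' hne
      rw [Set.disjoint_left]
      rintro _ ⟨_, ⟨b, hb, rfl⟩, rfl⟩ ⟨_, ⟨b', hb', rfl⟩, h⟩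
      simp only at hb hb' h
      have hne' : z = z' → t ≠ t' := by
        rintro rfl h'
        subst h'
        exact hne rfl
      have gen : ∀ z t z' t', t < d.ℓ z → t' < d.ℓ z' → ∀ y, ¬ Spec z t → y ∈ Nn z t →
          ∀ ι, ∀ x ∈ Nn none (s ι), y = α ι.1 x → False := by
        intro z t z' t' ht ht' y hsp hy ι x hx hyx
        by_cases hz : z = none ∧ t = s ι
        · obtain ⟨rfl, rfl⟩ := hz
          exact M1 ι x hx (hyx ▸ hy)
        · exact D1 z t none (s ι) ht (slt ι) (fun h1 h2 => hz ⟨h1, h2⟩) 1 S1 (α ι.1) (Sα _) y hy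
            x hx hyx
      have hA : ∀ ι : Fin k × Fin d.M × Bool, ∀ a ∈ d.A ι.2.1, v none (s ι) a ∈ Nn none (s ι) :=
        fun ι a ha => hvN none (s ι) (slt ι) a (by rw [d.main]; exact d.AP _ ha)
      have hA' : ∀ ι : Fin k × Fin d.M × Bool, ∀ a ∈ d.A ι.2.1,
          v none (s ι) (sg (d.φ ι.2.1) ι.2.2 a) ∈ Nn none (s ι) :=
        fun ι a ha => hvN none (s ι) (slt ι) _
          (by rw [d.main]; exact ((d.φP _).sg _).mem (d.AP _ ha))
      have hAA : ∀ ι : Fin k × Fin d.M × Bool, ∀ a ∈ d.A ι.2.1, ∀ a' ∈ d.A ι.2.1,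
          α ι.1 (v none (s ι) a) ≠ α ι.1 (v none (s ι) (sg (d.φ ι.2.1) ι.2.2 a')) := by
        intro ι a ha a' ha' h
        have h1 := (v none (s ι)).injective ((α ι.1).injective h)
        exact ((d.Atri _).sg ι.2.2).d1 a' ha' (h1 ▸ ha)
      have hdiff : ∀ ι ι' : Fin k × Fin d.M × Bool, ι ≠ ι' → ∀ x ∈ Nn none (s ι),
          ∀ x' ∈ Nn none (s ι'), α ι.1 x ≠ α ι'.1 x' := by
        intro ι ι' hιι x hx x' hx'
        exact D1 none (s ι) none (s ι') (slt ι) (slt ι') (fun _ h => hιι (sinj h)) (α ι.1) (Sα _)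
          (α ι'.1) (Sα _) x hx x' hx'
      rcases himg z t ht b hb with ⟨hs1, h1⟩ | ⟨ι, hz, h1⟩ <;>
        rcases himg z' t' ht' b' hb' with ⟨hs2, h2⟩ | ⟨ι', hz', h2⟩
      · exact D1 z t z' t' ht ht' hne' 1 S1 1 S1 _ h1 _ h2 h.symm
      · rcases h2 with ⟨-, a, ha, h2⟩ | ⟨-, a, ha, h2⟩
        · exact gen z t z' t' ht ht' _ hs1 h1 ι' _ (hA ι' a ha) (by rw [← h, h2])
        · exact gen z t z' t' ht ht' _ hs1 h1 ι' _ (hA' ι' a ha) (by rw [← h, h2])
      · rcases h1 with ⟨-, a, ha, h1⟩ | ⟨-, a, ha, h1⟩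
        · exact gen z' t' z t ht' ht _ hs2 h2 ι _ (hA ι a ha) (by rw [h, h1])
        · exact gen z' t' z t ht' ht _ hs2 h2 ι _ (hA' ι a ha) (by rw [h, h1])
      · by_cases hιι : ι = ι'
        · subst hιι
          rcases h1 with ⟨ht0, a, ha, h1⟩ | ⟨ht0, a, ha, h1⟩ <;>
            rcases h2 with ⟨ht0', a', ha', h2⟩ | ⟨ht0', a', ha', h2⟩
          · exact hne' (hz.trans hz'.symm) (ht0.trans ht0'.symm)
          · exact hAA ι a ha a' ha' (by rw [← h1, ← h2, h])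
          · exact hAA ι a' ha' a ha (by rw [← h1, ← h2, h])
          · exact hne' (hz.trans hz'.symm) (ht0.trans ht0'.symm)
        · rcases h1 with ⟨ht0, a, ha, h1⟩ | ⟨ht0, a, ha, h1⟩ <;>
            rcases h2 with ⟨ht0', a', ha', h2⟩ | ⟨ht0', a', ha', h2⟩
          · exact hdiff ι ι' hιι _ (hA ι a ha) _ (hA ι' a' ha') (by rw [← h1, ← h2, h])
          · exact hdiff ι ι' hιι _ (hA ι a ha) _ (hA' ι' a' ha') (by rw [← h1, ← h2, h])
          · exact hdiff ι ι' hιι _ (hA' ι a ha) _ (hA ι' a' ha') (by rw [← h1, ← h2, h])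
          · exact hdiff ι ι' hιι _ (hA' ι a ha) _ (hA' ι' a' ha') (by rw [← h1, ← h2, h]))
    (by
      obtain ⟨p, hp⟩ := d.Pnon
      refine ⟨p, fun q hq hpq => ?_⟩
      refine Set.disjoint_left.1 (d.disj q.1 q.2.1 none 0 q.2.2 (hposz _) ?_) hpq
        ⟨p, by rw [d.main]; exact hp, by simp⟩
      intro h1 h2
      exact hLs q hq ⟨h1, h2⟩)
    (by
      obtain ⟨y, hy⟩ := Nne none
      refine ⟨y, fun q hq hyq => ?_⟩
      obtain ⟨_, ⟨b, hb, rfl⟩, h⟩ := hyq
      rcases himg2 q.1 q.2.1 q.2.2 b hb with h1 | ⟨ι, x, hx, h1⟩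
      · exact De q.1 q.2.1 q.2.2 1 S1 1 S1 _ h1 y hy h.symm
      · exact De none (s ι) (slt ι) 1 S1 (α ι.1) (Sα _) x hx y hy (by
          rw [← h1, h]; rfl))
  -- values of `g`
  have hgv : ∀ z t, t < d.ℓ z → ¬ (z = none ∧ t = 0) → ∀ b ∈ d.B z,
      g ((d.c z ^ t) b) = plU d α s v z t ((d.c z ^ t) b) := by
    intro z t ht hzt b hb
    exact hg ⟨z, ⟨t, ht⟩⟩ (Finset.mem_filter.2 ⟨Finset.mem_univ _, hzt⟩) _ ⟨b, hb, rfl⟩
  -- points outside the locations are in `g P`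
  have hP : ∀ y, (∀ z t, t < d.ℓ z → y ∉ Nn z t) →
      (∀ ι, ∀ x ∈ Nn none (s ι), y ≠ α ι.1 x) → y ∈ g '' d.P := by
    intro y h1 h2
    obtain ⟨x, rfl⟩ := g.surjective y
    obtain ⟨z, t, ht, b, hb, rfl⟩ := d.cov x
    by_cases hzt : z = none ∧ t = 0
    · obtain ⟨rfl, rfl⟩ := hzt
      refine ⟨_, ?_, rfl⟩
      rw [pow_zero, Homeomorph.one_apply, ← d.main]
      exact hb
    · exfalso
      have h3 := hgv z t ht hzt b hb
      rcases himg2 z t ht b hb with h4 | ⟨ι, x, hx, h4⟩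
      · exact h1 z t ht (h3 ▸ h4)
      · exact h2 ι x hx (h3.trans h4)
  have hmain : ∀ ι, ∀ b ∈ d.P, g ((d.c none ^ s ι) b) = v none (s ι) b := by
    intro ι b hb
    have hs0 := spos ι
    rw [hgv none (s ι) (slt ι) (fun h => by omega) b (by rw [d.main]; exact hb), Ugen]
    rintro ⟨_, h, _⟩
    exact absurd h (by simp)
  have hgenv : ∀ z t, t < d.ℓ z → z ≠ none → ¬ Spec z t → ∀ b ∈ d.B z,
      g ((d.c z ^ t) b) ∈ Nn z t := by
    intro z t ht hz hsp b hb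
    rw [hgv z t ht (fun h => hz h.1) b hb, Ugen z t hsp]
    exact hvN z t ht b hb
  have hout : ∀ z t, t < d.ℓ z → z ≠ none → ∀ w ∈ S, ∀ x ∈ Nn z t, w x ∉ Nn z t →
      w x ∈ g '' d.P := by
    intro z t ht hz w hw x hx hwx
    apply hP
    · intro z' t' ht' h
      by_cases hzz : z = z' ∧ t = t'
      · obtain ⟨rfl, rfl⟩ := hzz
        exact hwx h
      · exact D1 z t z' t' ht ht' (fun h1 h2 => hzz ⟨h1, h2⟩) w hw 1 S1 x hx _ h rfl
    · intro ι x' hx' h
      exact D1 z t none (s ι) ht (slt ι) (fun h1 => absurd h1 hz) w hw (α ι.1) (Sα _) x hx x' hx' h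
  refine ⟨g, s, ⟨hgG, spos, slt, sinj, ?_, ?_, ?_, ?_, ?_⟩⟩
  · intro ι a ha
    have h1 := hgv (some (Sum.inl ι)) 0 (hposz _) (by simp) (d.e ι a)
      (by rw [d.eng]; exact ⟨a, ha, rfl⟩)
    rw [pow_zero, Homeomorph.one_apply, U0] at h1
    rw [h1, hmain ι a (d.AP _ ha)]
  · intro ι a ha
    have h1 := hgv (some (Sum.inl ι)) 1 (by have := d.len (some (Sum.inl ι)); omega) (by simp)
      (d.e ι a) (by rw [d.eng]; exact ⟨a, ha, rfl⟩)
    rw [pow_one, U1] at h1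
    rw [h1, hmain ι _ (((d.φP _).sg _).mem (d.AP _ ha))]
  · intro ι t ht2 ht b hb
    have hsp : ¬ Spec (some (Sum.inl ι) : Idx k d.M) t := by
      rintro ⟨_, _, h⟩; omega
    have hz : (some (Sum.inl ι) : Idx k d.M) ≠ none := by simp
    have h1 := hgenv _ t ht hz hsp b hb
    rcases D2 _ t ht ((α ι.1)⁻¹) (Sα' _) with h | h
    · exact Or.inl (h _ h1)
    · exact Or.inr (hout _ t ht hz _ (Sα' _) _ h1 (h _ h1))
  · intro i
    obtain ⟨y, hy⟩ := Nne none
    refine ⟨y, ?_, ?_⟩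
    · apply hP
      · intro z t ht h
        exact De z t ht 1 S1 1 S1 y h y hy rfl
      · intro ι x hx h
        exact De none (s ι) (slt ι) 1 S1 (α ι.1) (Sα _) x hx y hy h
    · apply hP
      · intro z t ht h
        exact De z t ht (α i) (Sα _) 1 S1 _ h y hy rfl
      · intro ι x hx h
        exact De none (s ι) (slt ι) (α i) (Sα _) (α ι.1) (Sα _) x hx y hy h
  · intro i z hz
    have ht : 2 + i.1 < d.ℓ z := by have := d.len z; have := i.2; omega
    refine ⟨2 + i.1, ht, fun b hb => ?_⟩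
    have hsp : ¬ Spec z (2 + i.1) := by rintro ⟨_, _, h⟩; omega
    have h1 := hgenv z _ ht hz hsp b hb
    obtain ⟨w, rfl⟩ := Option.ne_none_iff_exists'.1 hz
    exact hout _ _ ht hz _ (Sα _) _ h1 (M2 w i ht _ h1)

end Pool.Agent.Q27.VS
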