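import Pool.Agent.Q27.VS.Cover
import Pool.Agent.Q27.VS.Place

/-!
# The engines
-/

set_option autoImplicit false

open Set Topology Filter

namespace Pool.Agent.Q27.VS

section

variable {X : Type} [TopologicalSpace X] {G : Subgroup (X ≃ₜ X)} {k : ℕ}

theorem Data.addr (d : Data G k) {z z' : Idx k d.M} {t t' : ℕ} (ht : t < d.ℓ z)
    (ht' : t' < d.ℓ z') {u : X} (hu : u ∈ (d.c z ^ t) '' d.B z) (hu' : u ∈ (d.c z' ^ t') '' d.B z') :
    z = z' ∧ t = t' := by
  by_contra h
  exact Set.disjoint_left.1 (d.disj z t z' t' ht ht' (fun h1 h2 => h ⟨h1, h2⟩)) hu hu'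

end

theorem engine (X : Type) [TopologicalSpace X] (hcomm : S_comm X) : S_engine X := by
  intro G k d α g s hg i m
  set K := Subgroup.closure ({α i, g * d.σ * g⁻¹} : Set (X ≃ₜ X)) with hK
  have hαK : α i ∈ K := Subgroup.subset_closure (by simp)
  have hσK : g * d.σ * g⁻¹ ∈ K := Subgroup.subset_closure (by simp)
  -- the element of an engine
  let y : Bool → (X ≃ₜ X) := fun ε =>
    (g * d.c none ^ s (i, m, ε) * g⁻¹)⁻¹ * (α i)⁻¹ * (g * d.c (some (Sum.inl (i, m, ε))) * g⁻¹) *
      α i * (g * d.c none ^ s (i, m, ε) * g⁻¹)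
  have hyK : ∀ ε, y ε ∈ K := by
    intro ε
    have h1 := K.pow_mem (d.conj_mem hσK none) (s (i, m, ε))
    rw [conj_pow] at h1
    exact K.mul_mem (K.mul_mem (K.mul_mem (K.mul_mem (K.inv_mem h1) (K.inv_mem hαK))
      (d.conj_mem hσK _)) hαK) h1
  -- a criterion for the values of `y`
  have hyval : ∀ ε u v, g (d.c (some (Sum.inl (i, m, ε))) (g⁻¹ (α i (g ((d.c none ^ s (i, m, ε)) u)))))
      = α i (g ((d.c none ^ s (i, m, ε)) v)) → y ε (g u) = g v := by
    intro ε u v h
    have h1 : (α i * (g * d.c none ^ s (i, m, ε) * g⁻¹)) (y ε (g u)) =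
        (α i * (g * d.c none ^ s (i, m, ε) * g⁻¹)) (g v) := by
      have h2 : (α i * (g * d.c none ^ s (i, m, ε) * g⁻¹)) (g v) =
          α i (g ((d.c none ^ s (i, m, ε)) v)) := by simp
      have h3 : (α i * (g * d.c none ^ s (i, m, ε) * g⁻¹)) (y ε (g u)) =
          ((α i * (g * d.c none ^ s (i, m, ε) * g⁻¹)) * y ε * g) u := rfl
      rw [h2, h3, ← h]
      have h4 : (α i * (g * d.c none ^ s (i, m, ε) * g⁻¹)) * y ε * g =
          g * d.c (some (Sum.inl (i, m, ε))) * g⁻¹ * α i * g * d.c none ^ s (i, m, ε) := by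
        simp only [y]
        group
      rw [h4]
      rfl
    exact (α i * (g * d.c none ^ s (i, m, ε) * g⁻¹)).injective h1
  have hyA : ∀ ε, ∀ a ∈ d.A m, y ε (g a) = g (sg (d.φ m) ε a) := by
    intro ε a ha
    apply hyval
    rw [← hg.e1 (i, m, ε) a ha, ← hg.e2 (i, m, ε) a ha]
    simp
  -- classification of the moved points
  have hmov : ∀ ε u, y ε (g u) ≠ g u → u ∈ d.A m ∨ (∃ a ∈ d.A m, u = sg (d.φ m) ε a) ∨
      (∃ t < d.ℓ (some (Sum.inl (i, m, ε))),
        u ∈ (d.c (some (Sum.inl (i, m, ε))) ^ t) '' d.B (some (Sum.inl (i, m, ε)))) ∨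
      u ∈ (d.c none ^ (d.ℓ none - s (i, m, ε))) '' d.B none := by
    intro ε u hu
    by_cases hmv : ∃ t < d.ℓ (some (Sum.inl (i, m, ε))),
        g⁻¹ (α i (g ((d.c none ^ s (i, m, ε)) u))) ∈
          (d.c (some (Sum.inl (i, m, ε))) ^ t) '' d.B (some (Sum.inl (i, m, ε)))
    · obtain ⟨t, ht, b, hb, h1⟩ := hmv
      have h2 : α i (g ((d.c none ^ s (i, m, ε)) u)) =
          g ((d.c (some (Sum.inl (i, m, ε))) ^ t) b) := by
        rw [h1]; simp
      by_cases ht2 : 2 ≤ t
      · rcases hg.e3 (i, m, ε) t ht2 ht b hb with h3 | h3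
        · -- fixed by `α`
          right; right; left
          refine ⟨t, ht, b, hb, ?_⟩
          have h4 : (α i)⁻¹ (α i (g ((d.c none ^ s (i, m, ε)) u))) =
              g ((d.c none ^ s (i, m, ε)) u) := by simp
          simp only at h3
          rw [h2, h3] at h4
          have h5 := g.injective h4
          rw [← d.fixpt_pow (z := none) (by simp) ht hb (s (i, m, ε))] at h5
          exact (d.c none ^ s (i, m, ε)).injective h5
        · right; right; right
          obtain ⟨p, hp, h3⟩ := h3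
          have h4 : (α i)⁻¹ (α i (g ((d.c none ^ s (i, m, ε)) u))) =
              g ((d.c none ^ s (i, m, ε)) u) := by simp
          simp only at h3
          rw [h2, ← h3] at h4
          have h5 := g.injective h4
          refine ⟨p, by rw [d.main]; exact hp, ?_⟩
          rw [h5, ← Homeomorph.mul_apply, ← pow_add, Nat.sub_add_cancel (hg.slt _).le, d.per]
          rfl
      · have hb' := hb
        rw [d.eng] at hb'
        obtain ⟨a, ha, rfl⟩ := hb'
        simp only at ha
        have ht01 : t = 0 ∨ t = 1 := by omega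
        rcases ht01 with rfl | rfl
        · left
          rw [pow_zero, Homeomorph.one_apply, hg.e1 (i, m, ε) a ha] at h2
          have h3 := (d.c none ^ s (i, m, ε)).injective (g.injective ((α i).injective h2))
          rw [h3]; exact ha
        · right; left
          rw [pow_one, hg.e2 (i, m, ε) a ha] at h2
          have h3 := (d.c none ^ s (i, m, ε)).injective (g.injective ((α i).injective h2))
          exact ⟨a, ha, h3⟩
    · exfalso
      apply hu
      apply hyval
      have h1 := d.fix (some (Sum.inl (i, m, ε))) (g⁻¹ (α i (g ((d.c none ^ s (i, m, ε)) u))))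
        (fun t ht h => hmv ⟨t, ht, h⟩)
      rw [h1]
      simp
  have htri := d.Atri m
  have hinv : ∀ a ∈ d.A m, (d.φ m)⁻¹ a = d.φ m (d.φ m a) := by
    intro a ha
    rw [Homeomorph.inv_apply, Homeomorph.symm_apply_eq]
    exact (htri.cyc a ha).symm
  have hyt : ∀ a ∈ d.A m, y true (g a) = g (d.φ m a) := fun a ha => hyA true a ha
  have hyf : ∀ a ∈ d.A m, y false (g a) = g (d.φ m (d.φ m a)) := fun a ha => by
    rw [hyA false a ha]
    show g ((d.φ m)⁻¹ a) = _
    rw [hinv a ha]
  have hpos0 : 0 < d.ℓ none := by have := d.len none; omega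
  have hPin : ∀ u ∈ d.P, u ∈ ⇑(d.c none ^ 0) '' d.B none := fun u hu =>
    ⟨u, by rw [d.main]; exact hu, by simp⟩
  have hsub : ∀ ε, d.ℓ none - s (i, m, ε) < d.ℓ none := fun ε => by
    have := hg.spos (i, m, ε); omega
  obtain ⟨C1, C2, C3, C4⟩ := hcomm (y true) (y false) (g '' d.A m)
    (by
      intro x hx hx'
      obtain ⟨u, rfl⟩ := g.surjective x
      rcases hmov true u hx with h | h
      · exact ⟨u, h, rfl⟩
      rcases hmov false u hx' with h' | h'
      · exact ⟨u, h', rfl⟩
      exfalso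
      -- the addresses
      have h2P : ∀ ε, (∃ a ∈ d.A m, u = sg (d.φ m) ε a) → u ∈ ⇑(d.c none ^ 0) '' d.B none := by
        rintro ε ⟨a, ha, rfl⟩
        exact hPin _ (((d.φP m).sg ε).mem (d.AP m ha))
      have hs1 := hg.slt (i, m, true)
      have hs2 := hg.slt (i, m, false)
      have hne : s (i, m, true) ≠ s (i, m, false) := fun h => by
        have := hg.sinj h
        simp at this
      rcases h with h | ⟨t, ht, h⟩ | h <;> rcases h' with h' | ⟨t', ht', h'⟩ | h'
      · obtain ⟨a, ha, h1⟩ := h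
        obtain ⟨a', ha', h2⟩ := h'
        have h3 : d.φ m a = d.φ m (d.φ m a') := by
          rw [← hinv a' ha']
          exact h1.symm.trans h2
        exact htri.d1 a' ha' ((d.φ m).injective h3 ▸ ha)
      · have := (d.addr hpos0 ht' (h2P _ h) h').1
        simp at this
      · have := (d.addr hpos0 (hsub false) (h2P _ h) h').2
        omega
      · have := (d.addr ht hpos0 h (h2P _ h')).1
        simp at this
      · have := (d.addr ht ht' h h').1
        simp at this
      · have := (d.addr ht (hsub false) h h').1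
        simp at this
      · have := (d.addr (hsub true) hpos0 h (h2P _ h')).2
        omega
      · have := (d.addr (hsub true) ht' h h').1
        simp at this
      · have := (d.addr (hsub true) (hsub false) h h').2
        omega)
    (by
      rintro _ ⟨a, ha, rfl⟩ ⟨b, hb, h⟩
      rw [hyt a ha] at h
      exact htri.d1 a ha (g.injective h ▸ hb))
    (by
      rintro _ ⟨a, ha, rfl⟩ ⟨b, hb, h⟩
      rw [hyf a ha] at h
      exact htri.d2 a ha (g.injective h ▸ hb))
  have hCK : y true * y false * (y true)⁻¹ * (y false)⁻¹ ∈ K :=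
    K.mul_mem (K.mul_mem (K.mul_mem (hyK _) (hyK _)) (K.inv_mem (hyK _))) (K.inv_mem (hyK _))
  suffices h : g * d.φ m * g⁻¹ = y true * y false * (y true)⁻¹ * (y false)⁻¹ by
    rw [h]; exact hCK
  ext x
  obtain ⟨u, rfl⟩ := g.surjective x
  have hL : (g * d.φ m * g⁻¹) (g u) = g (d.φ m u) := by simp
  rw [hL]
  by_cases h1 : u ∈ d.A m
  · rw [C1 _ ⟨u, h1, rfl⟩, hyt u h1]
  by_cases h2 : ∃ a ∈ d.A m, u = d.φ m a
  · obtain ⟨a, ha, rfl⟩ := h2
    have h3 := C2 _ ⟨a, ha, rfl⟩
    rw [hyt a ha, hyf a ha] at h3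
    exact h3.symm
  by_cases h3 : ∃ a ∈ d.A m, u = d.φ m (d.φ m a)
  · obtain ⟨a, ha, rfl⟩ := h3
    have h4 := C3 _ ⟨a, ha, rfl⟩
    rw [hyf a ha] at h4
    rw [h4, htri.cyc a ha]
  · push Not at h2 h3
    rw [htri.out u h1 h2 h3, C4]
    · rintro ⟨a, ha, h⟩
      exact h1 (g.injective h ▸ ha)
    · rintro _ ⟨a, ha, rfl⟩ h
      rw [hyt a ha] at h
      exact h2 a ha (g.injective h)
    · rintro _ ⟨a, ha, rfl⟩ h
      rw [hyf a ha] at h
      exact h3 a ha (g.injective h)

end Pool.Agent.Q27.VS
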