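import Pool.Agent.Q27.VS.Stm2
import Pool.Agent.Q27.VS.Final

/-!
# Generating the alternating group of the large piece
-/

set_option autoImplicit false

open Set Topology Filter

namespace Pool.Agent.Q27.VS

section

variable {X : Type} [TopologicalSpace X]

/-- `x` in `K` with support in `P` -/
def supIn (K : Subgroup (X ≃ₜ X)) (P : Set X) : Subgroup (X ≃ₜ X) where
  carrier := {x | x ∈ K ∧ Sup x P}
  mul_mem' := fun ha hb => ⟨K.mul_mem ha.1 hb.1, ha.2.mul hb.2⟩
  one_mem' := ⟨K.one_mem, Sup.one P⟩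
  inv_mem' := fun ha => ⟨K.inv_mem ha.1, ha.2.inv⟩

/-- conjugating an element supported in `P` by `w` or by `ψ` gives the same if `w = ψ` on `P` -/
theorem conj_eq {P : Set X} {w ψ x : X ≃ₜ X} (hψ : Sup ψ P) (hx : Sup x P)
    (h : ∀ y ∈ P, w y = ψ y) : ψ * x * ψ⁻¹ = w * x * w⁻¹ := by
  have hinv : ∀ y ∈ P, w⁻¹ y = ψ⁻¹ y := by
    intro y hy
    rw [Homeomorph.inv_apply, Homeomorph.symm_apply_eq, h _ (hψ.inv.mem hy)]
    simp
  have hout : ∀ y, y ∉ P → w⁻¹ y ∉ P := by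
    intro y hy hy'
    apply hy
    have h1 := h _ hy'
    rw [Homeomorph.inv_apply, Homeomorph.apply_symm_apply] at h1
    rw [h1]
    exact hψ.mem hy'
  ext y
  by_cases hy : y ∈ P
  · show ψ (x (ψ⁻¹ y)) = w (x (w⁻¹ y))
    rw [hinv y hy, h _ (hx.mem (hψ.inv.mem hy))]
  · show ψ (x (ψ⁻¹ y)) = w (x (w⁻¹ y))
    rw [hψ.inv y hy, hx y hy, hψ y hy, hx _ (hout y hy)]
    simp

end

theorem gener (X : Type) [TopologicalSpace X] [CSp X] (hsim : S_simple X) : S_gener X := by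
  intro G hV hS k M v σ U hU φ hφU hφ α g hg i hx
  set K := Subgroup.closure ({α i, g * σ * g⁻¹} : Set (X ≃ₜ X)) with hK
  have hαK : α i ∈ K := Subgroup.subset_closure (by simp)
  have hσK : g * σ * g⁻¹ ∈ K := Subgroup.subset_closure (by simp)
  have hβK : ∀ n : ℕ, g * σ ^ n * g⁻¹ ∈ K := by
    intro n
    have h1 := K.pow_mem hσK n
    rwa [conj_pow] at h1
  -- the elements `w`
  have hw : ∀ m, ∃ w ∈ K, ∀ y ∈ g '' U, w y = (g * φ m * g⁻¹) y := by
    intro m
    refine ⟨(g * σ ^ v.b (i, m, false) * g⁻¹)⁻¹ * α i * (g * σ ^ v.a (i, m, false) * g⁻¹),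
      K.mul_mem (K.mul_mem (K.inv_mem (hβK _)) hαK) (hβK _), ?_⟩
    rintro _ ⟨u, hu, rfl⟩
    have h1 := hg.eng (i, m, false) u hu
    have h2 : enM φ (i, m, false) = φ m := rfl
    rw [h2] at h1
    have h3 : ((g * σ ^ v.b (i, m, false) * g⁻¹)⁻¹ * α i * (g * σ ^ v.a (i, m, false) * g⁻¹)) (g u)
        = (g * σ ^ v.b (i, m, false) * g⁻¹)⁻¹ (α i (g ((σ ^ v.a (i, m, false)) u))) := by
      simp
    rw [h3, h1]
    simp
  have hnorm : ∀ t ∈ Alt G (g '' U), ∀ x ∈ supIn K (g '' U), t * x * t⁻¹ ∈ supIn K (g '' U) := by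
    intro t ht
    have h1 := (s_alt X).1 G _ g⁻¹ (G.inv_mem hg.gG) t ht
    have h2 : (g⁻¹ : X ≃ₜ X) '' (g '' U) = U := by
      rw [image_image]
      simp
    rw [h2] at h1
    have h3 : ∀ u ∈ Subgroup.closure (Set.range φ),
        g * u * g⁻¹ ∈ Subgroup.normalizer (supIn K (g '' U) : Set (X ≃ₜ X)) := by
      intro u hu
      induction hu using Subgroup.closure_induction with
      | mem u hu =>
        obtain ⟨m, rfl⟩ := hu
        obtain ⟨w, hwK, hwv⟩ := hw m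
        have hψ : Sup (g * φ m * g⁻¹) (g '' U) := (hφU m).conj g
        have hwinv : ∀ y ∈ g '' U, w⁻¹ y = (g * φ m * g⁻¹)⁻¹ y := by
          intro y hy
          rw [Homeomorph.inv_apply, Homeomorph.symm_apply_eq, hwv _ (hψ.inv.mem hy)]
          simp
        have key : ∀ x ∈ supIn K (g '' U), (g * φ m * g⁻¹) * x * (g * φ m * g⁻¹)⁻¹ ∈
            supIn K (g '' U) := by
          intro x hx
          refine ⟨?_, (hψ.mul hx.2).mul hψ.inv⟩
          rw [conj_eq hψ hx.2 hwv]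
          exact K.mul_mem (K.mul_mem hwK hx.1) (K.inv_mem hwK)
        have key2 : ∀ x ∈ supIn K (g '' U), (g * φ m * g⁻¹)⁻¹ * x * (g * φ m * g⁻¹) ∈
            supIn K (g '' U) := by
          intro x hx
          refine ⟨?_, (hψ.inv.mul hx.2).mul hψ⟩
          have h5 := conj_eq hψ.inv hx.2 hwinv
          rw [inv_inv, inv_inv] at h5
          rw [h5]
          exact K.mul_mem (K.mul_mem (K.inv_mem hwK) hx.1) hwK
        rw [Subgroup.mem_normalizer_iff]
        intro x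
        refine ⟨fun h => key x h, fun h => ?_⟩
        have h6 := key2 _ h
        rwa [show (g * φ m * g⁻¹)⁻¹ * ((g * φ m * g⁻¹) * x * (g * φ m * g⁻¹)⁻¹) *
          (g * φ m * g⁻¹) = x by group] at h6
      | one => simp
      | mul u v _ _ hu hv =>
        have := Subgroup.mul_mem _ hu hv
        rwa [show g * u * g⁻¹ * (g * v * g⁻¹) = g * (u * v) * g⁻¹ by group] at this
      | inv u _ hu =>
        have := Subgroup.inv_mem _ hu
        rwa [show (g * u * g⁻¹)⁻¹ = g * u⁻¹ * g⁻¹ by group] at this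
    have h4 := h3 _ (hφ h1)
    rw [show g * (g⁻¹ * t * g⁻¹⁻¹) * g⁻¹ = t by group] at h4
    intro x hx
    exact (Subgroup.mem_normalizer_iff.1 h4 x).1 hx
  obtain ⟨x, hxK, hx1, hxP⟩ := hx
  have h := hsim G hV hS (g '' U) (image_clopen g hU) (supIn K (g '' U)) hnorm
    ⟨x, ⟨hxK, hxP⟩, hx1, hxP⟩
  exact fun t ht => (h ht).1

end Pool.Agent.Q27.VS
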