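import Pool.Agent.Q27.VS.Stm2
import Pool.Agent.Q27.VS.Final

/-!
# A uniform bound for the number of generators
-/

set_option autoImplicit false

open Set Topology Filter

namespace Pool.Agent.Q27.VS

theorem alt_conj_le {X : Type} [TopologicalSpace X] [CSp X] {G : Subgroup (X ≃ₜ X)} {P : Set X}
    {M : ℕ} {φ : Fin M → (X ≃ₜ X)} (hφ : Alt G P ≤ Subgroup.closure (Set.range φ))
    {c : X ≃ₜ X} (hc : c ∈ G) (K : Subgroup (X ≃ₜ X)) (hK : ∀ m, c * φ m * c⁻¹ ∈ K) :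
    Alt G (c '' P) ≤ K := by
  intro t ht
  have h1 := (s_alt X).1 G _ c⁻¹ (G.inv_mem hc) t ht
  have h2 : (c⁻¹ : X ≃ₜ X) '' (c '' P) = P := by
    rw [image_image]
    simp
  rw [h2] at h1
  have h3 : ∀ u ∈ Subgroup.closure (Set.range φ), c * u * c⁻¹ ∈ K := by
    intro u hu
    induction hu using Subgroup.closure_induction with
    | mem u hu => obtain ⟨m, rfl⟩ := hu; exact hK m
    | one => simp
    | mul u v _ _ hu hv =>
      have := K.mul_mem hu hv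
      rwa [show c * u * c⁻¹ * (c * v * c⁻¹) = c * (u * v) * c⁻¹ by group] at this
    | inv u _ hu =>
      have := K.inv_mem hu
      rwa [show (c * u * c⁻¹)⁻¹ = c * u⁻¹ * c⁻¹ by group] at this
  have h4 := h3 _ (hφ h1)
  rwa [show c * (c⁻¹ * t * c⁻¹⁻¹) * c⁻¹ = t by group] at h4

theorem gens (X : Type) [TopologicalSpace X] [CSp X] : S_gens X := by
  intro G hV hS hF
  obtain ⟨P, M, φ, A, hP, hPu, hPn, hφ, hAlt⟩ := base X (s_tri X) (s_alt X) G hV hS hF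
  refine ⟨M + M, fun U hU hUn => ?_⟩
  obtain ⟨U', hU', hU'n, hU'U, hUU'⟩ := clopen_proper hU.isOpen hUn
  have hU'u : U' ≠ univ := by
    rintro rfl
    obtain ⟨x, hx⟩ := hUU'
    exact hx.2 (mem_univ x)
  obtain ⟨γ, hγ, hγP, -⟩ := hV univ P U' isClopen_univ hP hU' (subset_univ _) (subset_univ _)
    hPn hU'n hPu hU'u
  have hγU : γ '' P ⊆ U := hγP.trans hU'U
  have hγne : γ '' P ≠ U := by
    rintro h
    obtain ⟨x, hx⟩ := hUU'
    exact hx.2 (hγP (h ▸ hx.1))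
  obtain ⟨Y1, hY1, hY1n, hY1U, hUY1⟩ := clopen_proper hU.isOpen hUn
  obtain ⟨Y2, hY2, hY2n, hY2U, hUY2⟩ := clopen_proper (hU.diff hY1).isOpen hUY1
  have key : ∀ Y : Set X, IsClopen Y → Y.Nonempty → Y ⊆ U → (U \ Y).Nonempty →
      ∃ c ∈ G, U \ Y ⊆ c '' P ∧ c '' P ⊆ U ∧ ∀ m, Sup (c * φ m * c⁻¹) U := by
    intro Y hY hYn hYU hUY
    obtain ⟨δ, hδ, hδD, hδU⟩ := hV U (U \ Y) (γ '' P) hU (hU.diff hY) (image_clopen _ hP)
      sdiff_subset hγU hUY (hPn.image _) (by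
        intro h
        obtain ⟨y, hy⟩ := hYn
        have h1 : y ∈ U \ Y := by rw [h]; exact hYU hy
        exact h1.2 hy) hγne
    have h1 : ⇑(δ⁻¹ * γ) '' P ⊆ U := by
      rintro _ ⟨p, hp, rfl⟩
      exact hδU.inv.mem (hγU ⟨p, hp, rfl⟩)
    refine ⟨δ⁻¹ * γ, G.mul_mem (G.inv_mem hδ) hγ, ?_, h1, fun m => ?_⟩
    · intro x hx
      obtain ⟨p, hp, h⟩ := hδD ⟨x, hx, rfl⟩
      refine ⟨p, hp, ?_⟩
      show δ⁻¹ (γ p) = x
      rw [h]
      simp
    · exact ((hφ m).2.1.conj _).mono h1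
  obtain ⟨c1, hc1, hD1, hc1U, hs1⟩ := key Y1 hY1 hY1n hY1U hUY1
  obtain ⟨c2, hc2, hD2, hc2U, hs2⟩ := key Y2 hY2 hY2n (hY2U.trans sdiff_subset) (by
    obtain ⟨x, hx⟩ := hUY2
    exact ⟨x, hx.1.1, hx.2⟩)
  refine ⟨Fin.append (fun m => c1 * φ m * c1⁻¹) (fun m => c2 * φ m * c2⁻¹), ?_, ?_, ?_⟩
  · intro m
    refine Fin.addCases (fun m => ?_) (fun m => ?_) m
    · rw [Fin.append_left]
      exact G.mul_mem (G.mul_mem hc1 (hφ m).1) (G.inv_mem hc1)
    · rw [Fin.append_right]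
      exact G.mul_mem (G.mul_mem hc2 (hφ m).1) (G.inv_mem hc2)
  · intro m
    refine Fin.addCases (fun m => ?_) (fun m => ?_) m
    · rw [Fin.append_left]; exact hs1 m
    · rw [Fin.append_right]; exact hs2 m
  · have h1 : U = c1 '' P ∪ c2 '' P := by
      apply Subset.antisymm
      · intro x hx
        by_cases hxY : x ∈ Y1
        · right
          exact hD2 ⟨hx, fun h => (hY2U h).2 hxY⟩
        · left
          exact hD1 ⟨hx, hxY⟩
      · exact union_subset hc1U hc2U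
    have h2 := s_union X G hV hS (Subgroup.closure (Set.range
      (Fin.append (fun m => c1 * φ m * c1⁻¹) (fun m => c2 * φ m * c2⁻¹)))) (c1 '' P) (c2 '' P)
      (image_clopen _ hP) (image_clopen _ hP) (by
        obtain ⟨x, hx⟩ := hUY2
        exact ⟨x, hD1 hx.1, hD2 ⟨hx.1.1, hx.2⟩⟩)
      (alt_conj_le hAlt hc1 _ fun m => Subgroup.subset_closure ⟨Fin.castAdd M m, by
        rw [Fin.append_left]⟩)
      (alt_conj_le hAlt hc2 _ fun m => Subgroup.subset_closure ⟨Fin.natAdd M m, by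
        rw [Fin.append_right]⟩)
    rwa [← h1] at h2

end Pool.Agent.Q27.VS
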