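import Pool.Agent.Q27.VS.Stm2
import Pool.Agent.Q27.VS.Final

/-!
# Generators which do not commute
-/

set_option autoImplicit false

open Set Topology Filter

namespace Pool.Agent.Q27.VS

theorem noncomm (X : Type) [TopologicalSpace X] [CSp X] : S_noncomm X := by
  intro G hV hS U hU hUn M φ hφ
  by_contra hcon
  push Not at hcon
  have h1 : Subgroup.closure (Set.range φ) ≤ Subgroup.centralizer (Set.range φ) := by
    rw [Subgroup.closure_le]
    rintro _ ⟨m, rfl⟩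
    rw [SetLike.mem_coe, Subgroup.mem_centralizer_iff]
    rintro _ ⟨m', rfl⟩
    exact hcon m' m
  have hcomm : ∀ x ∈ Subgroup.closure (Set.range φ), ∀ y ∈ Subgroup.closure (Set.range φ),
      x * y = y * x := by
    intro x hx y hy
    have h2 : Subgroup.closure (Set.range φ) ≤ Subgroup.centralizer {x} := by
      rw [Subgroup.closure_le]
      rintro _ ⟨m, rfl⟩
      rw [SetLike.mem_coe, Subgroup.mem_centralizer_iff]
      rintro _ rfl
      exact ((Subgroup.mem_centralizer_iff.1 (h1 hx)) _ ⟨m, rfl⟩).symm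
    exact (Subgroup.mem_centralizer_iff.1 (h2 hy)) x rfl
  obtain ⟨P, Pcl, Pn, PU, Pd, Pr⟩ := pieces 4 hU.isOpen hUn
  have Pne : ∀ i, P i ≠ univ := by
    intro i h
    have h3 : ∃ j, j ≠ i := by
      by_cases h0 : i = 0
      · exact ⟨1, by rw [h0]; decide⟩
      · exact ⟨0, fun h => h0 h.symm⟩
    obtain ⟨j, hj⟩ := h3
    obtain ⟨x, hx⟩ := Pn j
    exact Set.disjoint_left.1 (Pd j i hj) hx (h ▸ mem_univ x)
  have hgj : ∀ j, ∃ g ∈ G, g '' P 0 ⊆ P j := by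
    intro j
    obtain ⟨g, hg, h, -⟩ := hV univ (P 0) (P j) isClopen_univ (Pcl 0) (Pcl j) (subset_univ _)
      (subset_univ _) (Pn 0) (Pn j) (Pne 0) (Pne j)
    exact ⟨g, hg, h⟩
  choose g hgG hg using hgj
  have hd : ∀ i j, i ≠ j → Disjoint (g i '' P 0) (g j '' P 0) := fun i j hij =>
    (Pd i j hij).mono (hg i) (hg j)
  have hd0 : ∀ j, j ≠ 0 → Disjoint (P 0) (g j '' P 0) := fun j hj =>
    (Pd 0 j (Ne.symm hj)).mono le_rfl (hg j)
  have hthree : ∀ j : Fin 4, j ≠ 0 → j ≠ 1 → ∃ c ∈ Alt G U, (∀ b ∈ P 0, c b = g 1 b) ∧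
      (∀ b ∈ P 0, c (g 1 b) = g j b) ∧ ∀ x, x ∉ P 0 → x ∉ P 1 → x ∉ P j → c x = x := by
    intro j hj0 hj1
    obtain ⟨c, hcG, hct, hc1, hc2, hc3⟩ := Pool.Agent.Q144.VS.uni_three (s_cycle X) hV hS
      (hgG 1) (hgG j) (Pcl 0) (hd0 1 (by decide)) (hd0 j hj0) (hd 1 j (Ne.symm hj1))
    refine ⟨c, Subgroup.subset_closure ⟨hcG, ?_, P 0, Pcl 0, hct⟩, hc1, hc2, ?_⟩
    · intro x hx
      exact hc3 x (fun h => hx (PU 0 h)) (fun h => hx (PU 1 (hg 1 h)))
        (fun h => hx (PU j (hg j h)))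
    · intro x h0 h1 hj
      exact hc3 x h0 (fun h => h1 (hg 1 h)) (fun h => hj (hg j h))
  obtain ⟨c, hc, hc1, hc2, hc3⟩ := hthree 2 (by decide) (by decide)
  obtain ⟨c', hc', hc1', hc2', hc3'⟩ := hthree 3 (by decide) (by decide)
  obtain ⟨b, hb⟩ := Pn 0
  have h5 := congrArg (fun f : X ≃ₜ X => f b) (hcomm c (hφ hc) c' (hφ hc'))
  have h6 : g 2 b = g 3 b := by
    have h7 : c (c' b) = g 2 b := by rw [hc1' b hb, hc2 b hb]
    have h8 : c' (c b) = g 3 b := by rw [hc1 b hb, hc2' b hb]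
    rw [← h7, ← h8]
    exact h5
  exact Set.disjoint_left.1 (hd 2 3 (by decide)) ⟨b, hb, rfl⟩ ⟨b, hb, h6.symm⟩

end Pool.Agent.Q27.VS
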