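import Pool.Agent.Q27.VS.Place2
import Pool.Agent.Q27.VS.Gener
import Pool.Agent.Q27.VS.Cover2
import Pool.Agent.Q27.VS.Gens
import Pool.Agent.Q27.VS.Noncomm
import Pool.Agent.Q96.VS.Mark
import Pool.Agent.Q96.VS.Levels
import Pool.Agent.Q96.VS.Dense
import Pool.Agent.Q220.VS.Sparse
import Pool.Agent.H3.VS.Simple

/-!
# Strong infinite uniform spread
-/

set_option autoImplicit false

open Set Topology Filter

namespace Pool.Agent.Q27.VS

/-- An element without finite orbits of a finitely generated simple vigorous group: for all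
nontrivial `α₁, …, α_k` some conjugate generates the group with each `α_i`. -/
theorem main2 (X : Type) [TopologicalSpace X] [CSp X] (G : Subgroup (X ≃ₜ X)) (hV : Vig G)
    (hS : Simp G) (hF : G.FG) (σ : X ≃ₜ X) (hσ : σ ∈ G) (hap : Aper σ) (k : ℕ)
    (α : Fin k → (X ≃ₜ X)) (hαG : ∀ i, α i ∈ G) (hα : ∀ i, α i ≠ 1) :
    ∃ g ∈ G, ∀ i, Subgroup.closure ({α i, g * σ * g⁻¹} : Set (X ≃ₜ X)) = G := by
  obtain ⟨M, hM⟩ := gens X G hV hS hF
  obtain ⟨v⟩ := Pool.Agent.Q96.VS.levels k M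
  obtain ⟨U, hU⟩ := Pool.Agent.Q96.VS.mark X σ hap (2 * v.L + 1) (by omega)
  have hUn : U.Nonempty := by
    obtain ⟨x⟩ := (CSp.ne : Nonempty X)
    obtain ⟨j, -, hj⟩ := hU.cov x
    exact ⟨_, hj⟩
  obtain ⟨φ, hφG, hφU, hφ⟩ := hM U hU.cl hUn
  obtain ⟨m, m', hmm⟩ := noncomm X G hV hS U hU.cl hUn M φ hφ
  obtain ⟨g, hg⟩ := place2 X G hV hS k M v (2 * v.L + 1) (by omega) (by omega) σ hσ U hU φ hφG
    hφU α hαG hα
  refine ⟨g, hg.gG, fun i => ?_⟩
  have hx : ∃ x ∈ Subgroup.closure ({α i, g * σ * g⁻¹} : Set (X ≃ₜ X)), x ≠ 1 ∧ Sup x (g '' U) := by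
    rcases hg.alt i with h | h
    · exact Pool.Agent.Q220.VS.sparse X G k M v (2 * v.L + 1) (by omega) σ U hU φ hφU α g hg i m m'
        hmm h
    · exact Pool.Agent.Q96.VS.dense X G k M v (2 * v.L + 1) (by omega) σ U hU hUn φ α g hg i m h
  exact cover2 X G hV hS k M v (2 * v.L + 1) σ hσ U hU hUn φ α hαG g hg i
    (gener X (Pool.Agent.H3.VS.simple X) G hV hS k M v σ U hU.cl φ hφU hφ α g hg i hx)

end Pool.Agent.Q27.VS
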