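import Pool.Agent.Q27.VS.Stm2
import Pool.Agent.Q27.VS.Final

/-!
# The conjugating element for an element without finite orbits
-/

set_option autoImplicit false

open Set Topology Filter

namespace Pool.Agent.Q27.VS

section

variable {X : Type} [TopologicalSpace X]

/-- a common open set on which each `α i` is the identity or moves every point -/
theorem exists_star [T2Space X] [Nonempty X] {k : ℕ} (α : Fin k → (X ≃ₜ X))
    (T : Finset (Fin k)) : ∃ O : Set X, IsOpen O ∧ O.Nonempty ∧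
      ∀ i ∈ T, (∀ x ∈ O, α i x = x) ∨ ∀ x ∈ O, α i x ≠ x := by
  classical
  induction T using Finset.induction_on with
  | empty => exact ⟨univ, isOpen_univ, univ_nonempty, by simp⟩
  | insert j T _ ih =>
    obtain ⟨O, hO, hOn, h⟩ := ih
    by_cases hj : ∀ x ∈ O, α j x = x
    · refine ⟨O, hO, hOn, fun i hi => ?_⟩
      rcases Finset.mem_insert.1 hi with rfl | hi
      · exact Or.inl hj
      · exact h i hi
    · push Not at hj
      obtain ⟨x, hx, hx'⟩ := hj
      refine ⟨O ∩ {x | α j x ≠ x}, hO.inter (isOpen_ne_fun (α j).continuous continuous_id),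
        ⟨x, hx, hx'⟩, fun i hi => ?_⟩
      rcases Finset.mem_insert.1 hi with rfl | hi
      · exact Or.inr fun y hy => hy.2
      · rcases h i hi with h1 | h1
        · exact Or.inl fun y hy => h1 y hy.1
        · exact Or.inr fun y hy => h1 y hy.1

theorem enM_mem {G : Subgroup (X ≃ₜ X)} {k M : ℕ} {φ : Fin M → (X ≃ₜ X)} (h : ∀ m, φ m ∈ G)
    (ι : Fin k × Fin M × Bool) : enM φ ι ∈ G := by
  unfold enM
  split_ifs
  · exact G.one_mem
  · exact h _

theorem enM_sup {U : Set X} {k M : ℕ} {φ : Fin M → (X ≃ₜ X)} (h : ∀ m, Sup (φ m) U)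
    (ι : Fin k × Fin M × Bool) : Sup (enM φ ι) U := by
  unfold enM
  split_ifs
  · exact Sup.one U
  · exact h _

end

set_option maxHeartbeats 1000000 in
theorem place2 (X : Type) [TopologicalSpace X] [CSp X] : S_place2 X := by
  classical
  intro G hV hS k M v n hn hn0 σ hσ U hU φ hφG hφU α hαG hα
  have : Nonempty X := CSp.ne
  rcases Nat.eq_zero_or_pos k with hk | hk
  · subst hk
    exact ⟨1, G.one_mem, fun ι => ι.1.elim0, fun i => i.elim0, fun i => i.elim0,
      fun i => i.elim0⟩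
  have hn2 : 2 ≤ n := by
    have := v.pL ⟨0, hk⟩
    omega
  -- the marker set is nonempty and proper
  have hUn : U.Nonempty := by
    obtain ⟨x⟩ := this
    obtain ⟨j, -, hj⟩ := hU.cov x
    exact ⟨_, hj⟩
  have hdisN : ∀ j : ℕ, 0 < j → j < n → ∀ u ∈ U, (σ ^ j) u ∉ U := by
    intro j hj hjn u hu
    have := hU.dis (j : ℤ) (by omega) (by rw [abs_of_nonneg (by omega)]; exact_mod_cast hjn) u hu
    rwa [zpow_natCast] at this
  have hUne : U ≠ univ := by
    rintro rfl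
    obtain ⟨x⟩ := this
    exact hdisN 1 one_pos hn2 x (mem_univ _) (mem_univ _)
  -- the pieces
  let Q : ℕ → Set X := fun j => (⇑(σ ^ j) '' U) \ ⋃ i ∈ Finset.range j, ⇑(σ ^ i) '' U
  have Qcl : ∀ j, IsClopen (Q j) := by
    intro j
    refine (image_clopen _ hU.cl).diff ?_
    exact isClopen_biUnion_finset fun i _ => image_clopen _ hU.cl
  have hQmem : ∀ j, ∀ u ∈ U, (∀ i < j, (σ ^ j) u ∉ ⇑(σ ^ i) '' U) → (σ ^ j) u ∈ Q j := by
    intro j u hu h
    refine ⟨⟨u, hu, rfl⟩, ?_⟩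
    simp only [Finset.mem_range, mem_iUnion, not_exists]
    exact fun i hi => h i hi
  have hQn : ∀ j < n, ∀ u ∈ U, (σ ^ j) u ∈ Q j := by
    intro j hj u hu
    apply hQmem j u hu
    rintro i hi ⟨w, hw, h⟩
    apply hdisN (j - i) (by omega) (by omega) u hu
    have h1 : (σ ^ i) w = (σ ^ i) ((σ ^ (j - i)) u) := by
      rw [h, ← Homeomorph.mul_apply, ← pow_add]
      congr 2
      omega
    exact (σ ^ i).injective h1 ▸ hw
  have hQcov : ∀ x, x ∉ U → ∃ j, 1 ≤ j ∧ j < 2 * n ∧ ∃ u ∈ U, x = (σ ^ j) u ∧ x ∈ Q j := by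
    intro x hx
    have hex : ∃ j : ℕ, j < 2 * n ∧ x ∈ ⇑(σ ^ j) '' U := by
      obtain ⟨j, hj, hj'⟩ := hU.cov ((σ ^ (-(n : ℤ))) x)
      rw [abs_lt] at hj
      refine ⟨((n : ℤ) - j).toNat, by omega, _, hj', ?_⟩
      rw [← Homeomorph.mul_apply, ← Homeomorph.mul_apply, ← zpow_natCast, ← zpow_add, ← zpow_add,
        Int.toNat_of_nonneg (by omega)]
      have : (n : ℤ) - j + j + -(n : ℤ) = 0 := by ring
      rw [this, zpow_zero]
      rfl
    have hfind := Nat.find_spec hex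
    set j := Nat.find hex with hjdef
    obtain ⟨u, hu, hxu⟩ := hfind.2
    refine ⟨j, ?_, hfind.1, u, hu, hxu.symm, ?_⟩
    · by_contra h0
      have : j = 0 := by omega
      rw [this, pow_zero] at hxu
      exact hx (hxu ▸ hu)
    · rw [← hxu]
      apply hQmem j u hu
      intro i hi h
      rw [hxu] at h
      exact Nat.find_min hex hi ⟨by omega, h⟩
  have hQdis : ∀ i j, i < j → Disjoint (Q i) (Q j) := by
    intro i j hij
    rw [Set.disjoint_left]
    rintro x hx hx'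
    apply hx'.2
    simp only [Finset.mem_range, mem_iUnion]
    exact ⟨i, hij, hx.1⟩
  -- the requirements
  obtain ⟨Os, hOs, hOsn, hstar⟩ := exists_star α Finset.univ
  let rq : ℕ → Option (Fin k) := fun j =>
    if h : ∃ ι, j = v.a ι then some (Classical.choose h).1
    else if h : ∃ i, j = v.p i ∨ j = v.p i + 1 then some (Classical.choose h) else none
  have rq_a : ∀ ι, rq (v.a ι) = some ι.1 := by
    intro ι
    have h : ∃ ι', v.a ι = v.a ι' := ⟨ι, rfl⟩
    have h1 : rq (v.a ι) = some (Classical.choose h).1 := dif_pos h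
    rw [h1, ← v.ainj (Classical.choose_spec h)]
  have rq_p : ∀ i j, (j = v.p i ∨ j = v.p i + 1) → rq j = some i := by
    intro i j hj
    have h0 : ¬ ∃ ι, j = v.a ι := by
      rintro ⟨ι, hι⟩
      rcases hj with h | h
      · exact v.ap ι i (hι.symm.trans h)
      · exact v.ap1 ι i (hι.symm.trans h)
    have h : ∃ i, j = v.p i ∨ j = v.p i + 1 := ⟨i, hj⟩
    have h1 : rq j = some (Classical.choose h) := by
      simp only [rq]
      rw [dif_neg h0, dif_pos h]
    rw [h1]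
    have h2 := Classical.choose_spec h
    congr 1
    rcases h2 with h2 | h2 <;> rcases hj with h3 | h3
    · exact v.pinj (h2.symm.trans h3)
    · exact absurd (h2.symm.trans h3) (v.pp1 _ _)
    · exact absurd (h3.symm.trans h2) (v.pp1 _ _)
    · exact v.pinj (by omega)
  have rq_n : ∀ j, ¬ v.IsE j → rq j = none := by
    intro j hj
    have h0 : ¬ ∃ ι, j = v.a ι := fun h => hj (Or.inl h)
    have h1 : ¬ ∃ i, j = v.p i ∨ j = v.p i + 1 := by
      rintro ⟨i, h | h⟩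
      · exact hj (Or.inr (Or.inr (Or.inl ⟨i, h⟩)))
      · exact hj (Or.inr (Or.inr (Or.inr ⟨i, h⟩)))
    simp only [rq]
    rw [dif_neg h0, dif_neg h1]
  let Oq : Option (Fin k) → Set X := fun o => o.elim Os fun i => {x | α i x ≠ x}
  have Oqo : ∀ o, IsOpen (Oq o) := by
    intro o
    cases o with
    | none => exact hOs
    | some i => exact isOpen_ne_fun (α i).continuous continuous_id
  have Oqn : ∀ o, (Oq o).Nonempty := by
    intro o
    cases o with
    | none => exact hOsn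
    | some i =>
      by_contra h
      rw [not_nonempty_iff_eq_empty, eq_empty_iff_forall_notMem] at h
      apply hα i
      ext x
      by_contra hx
      exact h x hx
  -- the locations
  let A : Option (Fin k) → (X ≃ₜ X) := fun o => o.elim 1 α
  let S : Finset (X ≃ₜ X) := Finset.univ.image fun p : Option (Fin k) × Option (Fin k) =>
    A p.1 * A p.2
  have S1 : (1 : X ≃ₜ X) ∈ S :=
    Finset.mem_image.2 ⟨(none, none), Finset.mem_univ _, by simp [A]⟩
  have Sα : ∀ i, α i ∈ S := fun i =>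
    Finset.mem_image.2 ⟨(some i, none), Finset.mem_univ _, by simp [A]⟩
  have Sαα : ∀ i j, α i * α j ∈ S := fun i j =>
    Finset.mem_image.2 ⟨(some i, some j), Finset.mem_univ _, by simp [A]⟩
  obtain ⟨N, Ncl, Nne, NO, N1, N2⟩ := Pool.Agent.Q144.VS.locate X S (Option (Fin (2 * n)))
    inferInstance (fun l => Oq (l.elim none fun j => rq j.1)) (fun l => Oqo _) (fun l => Oqn _)
  let Nn : ℕ → Set X := fun j => if h : j < 2 * n then N (some ⟨j, h⟩) else ∅
  have Nn_eq : ∀ j (h : j < 2 * n), Nn j = N (some ⟨j, h⟩) := fun j h => dif_pos h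
  have Nn_lt : ∀ j, ∀ x ∈ Nn j, j < 2 * n := by
    intro j x hx
    by_contra h
    simp only [Nn, dif_neg h] at hx
    exact hx
  have D1 : ∀ j j', j ≠ j' → ∀ w ∈ S, ∀ w' ∈ S, ∀ x ∈ Nn j, ∀ y ∈ Nn j', w x ≠ w' y := by
    intro j j' hne w hw w' hw' x hx y hy hxy
    have hj := Nn_lt j x hx
    have hj' := Nn_lt j' y hy
    rw [Nn_eq j hj] at hx
    rw [Nn_eq j' hj'] at hy
    refine Set.disjoint_left.1 (N1 _ _ ?_ w hw w' hw') ⟨x, hx, rfl⟩ ⟨y, hy, hxy.symm⟩
    intro h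
    simp only [Option.some.injEq, Fin.mk.injEq] at h
    exact hne h
  have De : ∀ j, ∀ w ∈ S, ∀ w' ∈ S, ∀ x ∈ Nn j, ∀ y ∈ N none, w y ≠ w' x := by
    intro j w hw w' hw' x hx y hy hxy
    have hj := Nn_lt j x hx
    rw [Nn_eq j hj] at hx
    exact Set.disjoint_left.1 (N1 none (some ⟨j, hj⟩) (by simp) w hw w' hw')
      ⟨y, hy, rfl⟩ ⟨x, hx, hxy.symm⟩
  have D2 : ∀ j, ∀ i, (∀ x ∈ Nn j, α i x = x) ∨ ∀ x ∈ Nn j, α i x ∉ Nn j := by
    intro j i
    by_cases hj : j < 2 * n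
    · rw [Nn_eq j hj]
      rcases N2 (some ⟨j, hj⟩) (α i) (Sα i) with h | h
      · exact Or.inl h
      · exact Or.inr fun x hx hx' => Set.disjoint_left.1 h ⟨x, hx, rfl⟩ hx'
    · left
      intro x hx
      exact absurd (Nn_lt j x hx) hj
  have NOj : ∀ j, ∀ x ∈ Nn j, x ∈ Oq (rq j) := by
    intro j x hx
    have hj := Nn_lt j x hx
    rw [Nn_eq j hj] at hx
    exact NO _ hx
  -- moved places
  have Mv : ∀ j i, (∃ x ∈ Nn j, α i x ≠ x) → ∀ x ∈ Nn j, α i x ∉ Nn j := by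
    rintro j i ⟨x, hx, hx'⟩
    rcases D2 j i with h | h
    · exact absurd (h x hx) hx'
    · exact h
  have Ma : ∀ ι, ∀ x ∈ Nn (v.a ι), α ι.1 x ∉ Nn (v.a ι) := by
    intro ι x hx
    refine Mv _ _ ⟨x, hx, ?_⟩ x hx
    have h := NOj _ x hx
    rw [rq_a] at h
    exact h
  have Mp : ∀ i j, (j = v.p i ∨ j = v.p i + 1) → ∀ x ∈ Nn j, α i x ∉ Nn j := by
    intro i j hj x hx
    refine Mv _ _ ⟨x, hx, ?_⟩ x hx
    have h := NOj _ x hx
    rw [rq_p i j hj] at h
    exact h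
  have Ms : ∀ j, ¬ v.IsE j → ∀ x ∈ Nn j, x ∈ Os := by
    intro j hj x hx
    have h := NOj _ x hx
    rw [rq_n j hj] at h
    exact h
  -- maps into the locations
  have hh : ∀ j, ∃ h ∈ G, j < 2 * n → ∀ u ∈ U, h u ∈ Nn j := by
    intro j
    by_cases hj : j < 2 * n
    · have hNcl : IsClopen (Nn j) := by rw [Nn_eq j hj]; exact Ncl _
      have hNn : (Nn j).Nonempty := by rw [Nn_eq j hj]; exact Nne _
      have hNu : Nn j ≠ univ := by
        intro h
        obtain ⟨y, hy⟩ := Nne none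
        exact De j 1 S1 1 S1 y (h ▸ mem_univ y) y hy rfl
      obtain ⟨h, hG, hh, -⟩ := hV univ U (Nn j) isClopen_univ hU.cl hNcl (subset_univ _)
        (subset_univ _) hUn hNn hUne hNu
      exact ⟨h, hG, fun _ b hb => hh ⟨b, hb, rfl⟩⟩
    · exact ⟨1, G.one_mem, fun h => absurd h hj⟩
  choose h hG hN using hh
  let H : ℕ → (X ≃ₜ X) := fun j =>
    if hb : ∃ ι, j = v.b ι then α (Classical.choose hb).1 * h (v.a (Classical.choose hb)) *
      (enM φ (Classical.choose hb))⁻¹ else h j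
  have H_b : ∀ ι, H (v.b ι) = α ι.1 * h (v.a ι) * (enM φ ι)⁻¹ := by
    intro ι
    have hb : ∃ ι', v.b ι = v.b ι' := ⟨ι, rfl⟩
    have h1 : H (v.b ι) = α (Classical.choose hb).1 * h (v.a (Classical.choose hb)) *
      (enM φ (Classical.choose hb))⁻¹ := dif_pos hb
    rw [h1, ← v.binj (Classical.choose_spec hb)]
  have H_n : ∀ j, (¬ ∃ ι, j = v.b ι) → H j = h j := fun j hj => dif_neg hj
  have HG : ∀ j, H j ∈ G := by
    intro j
    by_cases hb : ∃ ι, j = v.b ι
    · obtain ⟨ι, rfl⟩ := hb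
      rw [H_b]
      exact G.mul_mem (G.mul_mem (hαG _) (hG _)) (G.inv_mem (enM_mem hφG _))
    · rw [H_n j hb]; exact hG j
  have haL : ∀ ι, v.a ι < 2 * n := fun ι => by have := v.aL ι; omega
  have hclass : ∀ j, j < 2 * n → ∀ u ∈ U, ((¬ ∃ ι, j = v.b ι) ∧ H j u ∈ Nn j) ∨
      ∃ ι, j = v.b ι ∧ ∃ y ∈ Nn (v.a ι), H j u = α ι.1 y := by
    intro j hj u hu
    by_cases hb : ∃ ι, j = v.b ι
    · right
      obtain ⟨ι, rfl⟩ := hb
      refine ⟨ι, rfl, _, hN (v.a ι) (haL ι) _ ((enM_sup hφU ι).inv.mem hu), ?_⟩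
      rw [H_b]
      rfl
    · left
      refine ⟨hb, ?_⟩
      rw [H_n j hb]
      exact hN j hj u hu
  -- the extension
  have hx1 : ∀ j u, (H j * (σ ^ j)⁻¹) ((σ ^ j) u) = H j u := by
    intro j u
    simp
  obtain ⟨g, hgG, hg⟩ := s_ext X G hV hS ℕ (Finset.Ico 1 (2 * n)) Q (fun j => H j * (σ ^ j)⁻¹)
    (fun j _ => Qcl j) (fun j _ => G.mul_mem (HG j) (G.inv_mem (G.pow_mem hσ j)))
    (by
      intro i _ j _ hij
      rcases Nat.lt_or_gt_of_ne hij with h1 | h1
      · exact hQdis i j h1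
      · exact (hQdis j i h1).symm)
    (by
      intro i hi j hj hij
      rw [Finset.mem_Ico] at hi hj
      rw [Set.disjoint_left]
      rintro _ ⟨_, ⟨⟨u, hu, rfl⟩, -⟩, rfl⟩ ⟨_, ⟨⟨w, hw, rfl⟩, -⟩, he⟩
      simp only [hx1] at he
      rcases hclass i hi.2 u hu with ⟨-, h1⟩ | ⟨ι, h1, y, hy, h1'⟩ <;>
        rcases hclass j hj.2 w hw with ⟨-, h2⟩ | ⟨κ, h2, z, hz, h2'⟩
      · exact D1 i j hij 1 S1 1 S1 _ h1 _ h2 he.symm
      · rw [h2'] at he
        by_cases hia : i = v.a κ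
        · subst hia
          exact Ma κ z hz (he ▸ h1)
        · exact D1 i (v.a κ) hia 1 S1 (α κ.1) (Sα _) _ h1 _ hz he.symm
      · rw [h1'] at he
        by_cases hja : j = v.a ι
        · subst hja
          exact Ma ι y hy (he.symm ▸ h2)
        · exact D1 j (v.a ι) hja 1 S1 (α ι.1) (Sα _) _ h2 _ hy he
      · rw [h1', h2'] at he
        refine D1 (v.a ι) (v.a κ) ?_ (α ι.1) (Sα _) (α κ.1) (Sα _) y hy z hz he.symm
        intro h3
        have h4 := v.ainj h3
        rw [h4] at h1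
        exact hij (h1.trans h2.symm))
    (by
      obtain ⟨u, hu⟩ := hUn
      refine ⟨u, fun j hj hx => hx.2 ?_⟩
      rw [Finset.mem_Ico] at hj
      simp only [Finset.mem_range, mem_iUnion]
      exact ⟨0, by omega, u, hu, rfl⟩)
    (by
      obtain ⟨y, hy⟩ := Nne none
      refine ⟨y, ?_⟩
      rintro j hj ⟨_, ⟨⟨u, hu, rfl⟩, -⟩, he⟩
      rw [Finset.mem_Ico] at hj
      rw [hx1] at he
      rcases hclass j hj.2 u hu with ⟨-, h1⟩ | ⟨ι, h1, z, hz, h1'⟩
      · exact De j 1 S1 1 S1 _ h1 y hy he.symm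
      · rw [h1'] at he
        exact De _ 1 S1 (α ι.1) (Sα _) z hz y hy he.symm)
  -- values of `g`
  have gQ : ∀ j, 1 ≤ j → j < 2 * n → ∀ u, (σ ^ j) u ∈ Q j → g ((σ ^ j) u) = H j u := by
    intro j h1 h2 u hu
    rw [hg j (Finset.mem_Ico.2 ⟨h1, h2⟩) _ hu, hx1]
  have gn : ∀ j, 1 ≤ j → j < n → ∀ u ∈ U, g ((σ ^ j) u) = H j u := by
    intro j h1 h2 u hu
    exact gQ j h1 (by omega) u (hQn j h2 u hu)
  have hP : ∀ y, (∀ j, y ∉ Nn j) → (∀ ι, ∀ x ∈ Nn (v.a ι), y ≠ α ι.1 x) → y ∈ g '' U := by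
    intro y h1 h2
    obtain ⟨x, rfl⟩ := g.surjective y
    by_cases hx : x ∈ U
    · exact ⟨x, hx, rfl⟩
    · exfalso
      obtain ⟨j, hj1, hj2, u, hu, rfl, hxQ⟩ := hQcov x hx
      rw [gQ j hj1 hj2 u hxQ] at h1 h2
      rcases hclass j hj2 u hu with ⟨-, h3⟩ | ⟨ι, h3, z, hz, h3'⟩
      · exact h1 j h3
      · exact h2 ι z hz h3'
  have hb_not : ∀ ι, ¬ ∃ κ, v.a ι = v.b κ := by
    rintro ι ⟨κ, h⟩
    exact v.ab ι κ h
  -- general form of the escape
  have hesc : ∀ j i, (∀ x ∈ Nn j, α i x ∉ Nn j) → (∀ ι, v.a ι ≠ j) → ∀ x ∈ Nn j,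
      α i x ∈ g '' U := by
    intro j i hm hja x hx
    apply hP
    · intro j' h'
      by_cases hjj : j = j'
      · subst hjj
        exact hm x hx h'
      · exact D1 j j' hjj (α i) (Sα i) 1 S1 x hx _ h' rfl
    · intro ι y hy h'
      exact D1 j (v.a ι) (fun h => hja ι h.symm) (α i) (Sα i) (α ι.1) (Sα _) x hx y hy h'
  refine ⟨g, hgG, ?_, ?_, ?_, ?_⟩
  · intro ι u hu
    have h1 := v.aL ι
    have h2 := v.bL ι
    rw [gn (v.a ι) (v.apos ι) (by omega) u hu, gn (v.b ι) (v.bpos ι) (by omega) _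
      ((enM_sup hφU ι).mem hu), H_b, H_n _ (hb_not ι)]
    simp
  · intro i u hu
    have h1 := v.pL i
    have hnb : ¬ ∃ ι, v.p i = v.b ι := by
      rintro ⟨ι, h⟩
      exact v.bp ι i h.symm
    rw [gn (v.p i) (v.ppos i) (by omega) u hu, H_n _ hnb]
    exact hesc (v.p i) i (Mp i _ (Or.inl rfl)) (fun ι => v.ap ι i) _ (hN _ (by omega) u hu)
  · intro i u hu
    have h1 := v.pL i
    have hnb : ¬ ∃ ι, v.p i + 1 = v.b ι := by
      rintro ⟨ι, h⟩
      exact v.bp1 ι i h.symm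
    rw [gn (v.p i + 1) (by omega) (by omega) u hu, H_n _ hnb]
    exact hesc (v.p i + 1) i (Mp i _ (Or.inr rfl)) (fun ι => v.ap1 ι i) _ (hN _ (by omega) u hu)
  · intro i
    -- position of a point which is not at a special level
    have hns : ∀ x, x ∉ U → (∀ l, v.IsE l → ∀ u ∈ U, x ≠ (σ ^ l) u) →
        ∃ j, ¬ v.IsE j ∧ g x ∈ Nn j := by
      intro x hx hsp
      obtain ⟨j, hj1, hj2, u, hu, rfl, hxQ⟩ := hQcov x hx
      have hjE : ¬ v.IsE j := fun hE => hsp j hE u hu rfl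
      refine ⟨j, hjE, ?_⟩
      rw [gQ j hj1 hj2 u hxQ, H_n j (fun hb => hjE (Or.inr (Or.inl hb)))]
      exact hN j hj2 u hu
    rcases hstar i (Finset.mem_univ _) with hfix | hmv
    · left
      intro x hx hsp
      obtain ⟨j, hjE, hj⟩ := hns x hx hsp
      exact hfix _ (Ms j hjE _ hj)
    · right
      refine ⟨?_, ?_⟩
      · intro x hx hsp
        obtain ⟨j, hjE, hj⟩ := hns x hx hsp
        refine hesc j i (Mv j i ⟨_, hj, hmv _ (Ms j hjE _ hj)⟩) ?_ _ hj
        intro ι h'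
        exact hjE (Or.inl ⟨ι, h'.symm⟩)
      · intro l hl u hu
        have hl1 : 1 ≤ l ∧ l < v.L := by
          rcases hl with ⟨ι, rfl⟩ | ⟨ι, rfl⟩ | ⟨j, rfl⟩ | ⟨j, rfl⟩
          · exact ⟨v.apos ι, v.aL ι⟩
          · exact ⟨v.bpos ι, v.bL ι⟩
          · exact ⟨v.ppos j, by have := v.pL j; omega⟩
          · exact ⟨by omega, v.pL j⟩
        have hgl := gn l hl1.1 (by omega) u hu
        by_cases hin : α i (g ((σ ^ l) u)) ∈ g '' U
        · exact Or.inl hin
        right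
        obtain ⟨x', hx'⟩ := g.surjective (α i (g ((σ ^ l) u)))
        have hx'U : x' ∉ U := fun h' => hin ⟨x', h', hx'⟩
        by_contra hcon
        obtain ⟨j', hjE', hj'⟩ := hns x' hx'U (by
          intro l' hl' u' hu' he
          exact hcon ⟨l', hl', u', hu', by rw [← hx', he]⟩)
        rw [hx', hgl] at hj'
        rcases hclass l (by omega) u hu with ⟨-, h1⟩ | ⟨ι, h1, z, hz, h1'⟩
        · refine D1 l j' ?_ (α i) (Sα i) 1 S1 _ h1 _ hj' rfl
          rintro rfl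
          exact hjE' hl
        · rw [h1'] at hj'
          refine D1 (v.a ι) j' ?_ (α i * α ι.1) (Sαα _ _) 1 S1 z hz _ hj' rfl
          rintro rfl
          exact hjE' (Or.inl ⟨ι, rfl⟩)

end Pool.Agent.Q27.VS
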