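import Pool.Agent.Q27.VS.Basic

/-!
# Statements of the lemma jobs of project VS (helper27)

Goal: a finitely generated simple vigorous group of homeomorphisms of Cantor space has infinite
uniform spread (MP_e1f4dd_al).  `X` is a space with `[CSp X]` (see `Basic.lean`).
Every job: prove `theorem name (X : Type) [TopologicalSpace X] [CSp X] (h1 : S_a X) ... : S_b X`
where the hypotheses `S_a X`, ... are the statements named under `Uses`.
Functions are composed from right to left: `(g * h) x = g (h x)`.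
-/

set_option autoImplicit false

open Set Topology Filter

namespace Pool.Agent.Q27.VS

/-! ## Part 1: the group -/

/-- JOB GEN. `G` is generated by its elements supported in proper clopen sets.
Proof. Let `N` be the closure; `N ≤ G`. `N` is normalized by `G` (`Subgroup.closure_induction`;
for a generator use `Sup.conj`, `image_clopen`, `image_ne_univ`). By `Simp`, `N = ⊥` or `N = G`.
`N ≠ ⊥`: `pieces 2` in `univ` gives disjoint nonempty clopen `P 0`, `P 1` with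
`P 0 ∪ P 1 ≠ univ`; vigor with `A = P 0 ∪ P 1`, `B = P 0`, `D = P 1` gives `g ∈ G` with
`g (P 0) ⊆ P 1`, `Sup g A`; so `g ∈ N` and `g ≠ 1`. -/
def S_gen (X : Type) [TopologicalSpace X] : Prop :=
  ∀ G : Subgroup (X ≃ₜ X), Vig G → Simp G →
    G = Subgroup.closure {g | g ∈ G ∧ ∃ A, IsClopen A ∧ A ≠ univ ∧ Sup g A}

/-- JOB GERM. Uses `S_gen`. Germs of elements of `G` are germs of elements supported in `E`.
Proof. (a) BASE CASE: `h ∈ G` and `Sup h A` with `A` clopen, `A ≠ univ`; `E ≠ univ` clopen,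
`y, h y ∈ E`. Choose a point `p ∈ E`, `p ≠ y, h y` (`open_avoid`), a point `q ∉ A`,
`q ≠ y, h y, p`, a clopen `F ∋ q` with `F ⊆ Aᶜ` and `y, h y, p ∉ F` (`clopen_avoid`), and a
clopen `N ⊆ E` with `y, h y ∈ N`, `p ∉ N`, `N ∩ F = ∅` (e.g. `N = (E \ F) \ N'` where `N' ∋ p`
is clopen and avoids `y, h y`). Vigor with `A := Nᶜ`, `B := Nᶜ \ F` (contains `p`), `D := E \ N`
(contains `p`; different from `Nᶜ` because `Eᶜ` is nonempty) gives `s ∈ G`, `Sup s Nᶜ`,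
`s (Nᶜ \ F) ⊆ E \ N`. Put `k = s * h * s⁻¹`. Near `y` we have `s⁻¹ x = x` (as `N` is a
neighbourhood of `y`) and `h x ∈ N` (continuity), so `k x = h x`. If `x ∉ E` then
`s⁻¹ x ∉ A`: otherwise `s⁻¹ x ∉ F`, so `s⁻¹ x ∈ N` (and `x = s⁻¹ x ∈ N ⊆ E`) or
`s⁻¹ x ∈ Nᶜ \ F` (and `x ∈ E`); contradiction; so `h (s⁻¹ x) = s⁻¹ x` and `k x = x`.
(b) GENERAL CASE. By `S_gen`, induction with `Subgroup.closure_induction` on `h` for the property
`Q h := ∀ E clopen ≠ univ, ∀ y ∈ E, h y ∈ E → ∃ k ∈ G, Sup k E ∧ ∀ᶠ x in 𝓝 y, k x = h x`.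
`Q 1`: `k = 1`. `Q h → Q h⁻¹`: apply `Q h` at `h⁻¹ y`, take `k⁻¹` (near `y`, `k⁻¹ x = h⁻¹ x`).
`Q (h₁ * h₂)`: let `z = h₂ y`. `Eᶜ` is open and nonempty, take `w ∉ E`, `w ≠ z`, and a clopen
`N ∋ z` with `w ∉ N`; `E' = E ∪ N` is clopen, `≠ univ`, contains `y`, `z`, `h₁ z`. `Q h₂` for
`E', y` gives `k₂`, `Q h₁` for `E', z` gives `k₁`; `k₁ * k₂ ∈ G` is supported in `E'` and equals
`h₁ * h₂` near `y`. Now the base case for `k₁ * k₂` (with `A = E'`) and `E`, `y`. -/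
def S_germ (X : Type) [TopologicalSpace X] : Prop :=
  ∀ G : Subgroup (X ≃ₜ X), Vig G → Simp G → ∀ h ∈ G, ∀ E : Set X, IsClopen E → E ≠ univ →
    ∀ y ∈ E, h y ∈ E → ∃ k ∈ G, Sup k E ∧ ∀ᶠ x in 𝓝 y, k x = h x

/-- JOB EXT1. Uses `S_germ`. Restrictions can be extended inside `E`.
Proof. If `B = ∅` take `g = 1`. (a) FIRST ASSUME `B ∪ h '' B ≠ E`. Choose `x ∉ E`. Then
`h x ∉ h '' B`, and `x ∉ h '' B`. `S_germ` for `h⁻¹`, the clopen set `(h '' B)ᶜ` (`≠ univ` as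
`B ≠ ∅`) and the point `h x` (whose image under `h⁻¹` is `x`) gives `k ∈ G` which is the identity
on `h '' B` and equals `h⁻¹` near `h x`. Put `h' = k * h`: it equals `h` on `B` and is the
identity near `x`; so there is a clopen `F ∋ x` in `Eᶜ` on which `h'` is the identity. Vigor with
`A := (B ∪ h '' B)ᶜ`, `B := A \ F` (contains the nonempty set `E \ (B ∪ h '' B)`; `≠ A` as `F`
is nonempty and contained in `A`), `D := E \ (B ∪ h '' B)` (nonempty, `≠ A` as `Eᶜ` is nonempty)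
gives `s ∈ G`, `Sup s (B ∪ h '' B)ᶜ`, `s (A \ F) ⊆ E \ (B ∪ h '' B)`. Put `g = s * h' * s⁻¹`.
On `B`: `s⁻¹ x = x`, `h' x = h x ∈ h '' B`, `s` fixes it. If `x ∉ E` then `s⁻¹ x ∈ F`
(otherwise `s⁻¹ x ∈ B ∪ h '' B`, then `x = s⁻¹ x ∈ E`; or `s⁻¹ x ∈ A \ F`, then `x ∈ E`), so
`h' (s⁻¹ x) = s⁻¹ x` and `g x = x`.
(b) GENERAL CASE. `E \ h '' B` is nonempty clopen; `clopen_proper` gives a nonempty clopen
`B' ⊆ E \ h '' B` with `(E \ h '' B) \ B'` nonempty. Vigor in `E` gives `c ∈ G`, `Sup c E`,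
`c '' B ⊆ B'`. Apply (a) to `c '' B` and `h * c⁻¹` (which maps `c '' B` onto `h '' B`); if `g₁` is
the result, then `g = g₁ * c`. -/
def S_ext1 (X : Type) [TopologicalSpace X] : Prop :=
  ∀ G : Subgroup (X ≃ₜ X), Vig G → Simp G → ∀ E B : Set X, IsClopen E → E ≠ univ →
    IsClopen B → B ⊆ E → B ≠ E → ∀ h ∈ G, h '' B ⊆ E → h '' B ≠ E →
    ∃ g ∈ G, Sup g E ∧ ∀ x ∈ B, g x = h x

/-- JOB EXT. Uses `S_ext1`. Finitely many partial maps can be extended simultaneously.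
Proof. Induction on the finset `s`. `s = ∅`: `g = 1`. `insert j s`: the induction hypothesis gives
`g' ∈ G` with `g' = u i` on `Q i` for `i ∈ s`. Let `D = ⋃ i ∈ s, Q i` (clopen), so
`g' '' D = ⋃ i ∈ s, u i '' Q i`. If `D = ∅`: `g = u j`. If `Q j = ∅`: `g = g'`. Otherwise apply
`S_ext1` with `E := Dᶜ`, `B := Q j ⊆ E` (`≠ E` by the hypothesis that the `Q i` do not cover),
`h := g'⁻¹ * u j`: `h '' B ⊆ E` because `u j '' Q j` is disjoint from `g' '' D`; `h '' B ≠ E`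
because the sets `u i '' Q i` do not cover. This gives `w ∈ G`, `Sup w Dᶜ` (so `w` is the
identity on `D`), `w = g'⁻¹ * u j` on `Q j`. Put `g = g' * w`. -/
def S_ext (X : Type) [TopologicalSpace X] : Prop :=
  ∀ G : Subgroup (X ≃ₜ X), Vig G → Simp G → ∀ (ι : Type) (s : Finset ι) (Q : ι → Set X)
    (u : ι → (X ≃ₜ X)), (∀ i ∈ s, IsClopen (Q i)) → (∀ i ∈ s, u i ∈ G) →
    (∀ i ∈ s, ∀ j ∈ s, i ≠ j → Disjoint (Q i) (Q j)) →
    (∀ i ∈ s, ∀ j ∈ s, i ≠ j → Disjoint (u i '' Q i) (u j '' Q j)) →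
    (∃ x, ∀ i ∈ s, x ∉ Q i) → (∃ x, ∀ i ∈ s, x ∉ u i '' Q i) →
    ∃ g ∈ G, ∀ i ∈ s, ∀ x ∈ Q i, g x = u i x

/-- JOB COMM. If the supports of `y` and `y'` meet only in `A` and `y A`, `y' A` are disjoint from
`A` then the commutator is the three-cycle `A → y A → y' A → A`.
Proof. Let `S`, `S'` be the supports (sets of moved points, invariant). `A` is contained in both.
`x ∈ A`: `y'⁻¹ x` is in `S'` and not in `A` (otherwise `x = y' (y'⁻¹ x) ∉ A`), so not in `S`,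
`y⁻¹` fixes it, hence the value is `y (y' (y'⁻¹ x)) = y x`. At `y a` (`a ∈ A`): `y a ∈ S`, not in
`A`, so not in `S'`; `y'⁻¹` fixes it, `y⁻¹` gives `a`, then `y' a`, which is in `S'` and not in
`A`, so fixed by `y`. At `y' a`: `y'⁻¹` gives `a`, `y⁻¹ a` is in `S`, not in `A` (else
`a = y (y⁻¹ a) ∉ A`), so fixed by `y'`, and `y` gives `a`. Elsewhere: let `u = y'⁻¹ x`. If
`x ∉ S'`: `u = x`, and `v = y⁻¹ x ∉ A` (as `x ∉ y A`), so `v = x` or `v ∈ S \ A`, in both cases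
`y' v = v` and `y v = x`. If `x ∈ S'`: `x ∉ S` as `x ∉ A`; `u ∉ A` as `x ∉ y' A`, `u ∈ S'`, so
`u ∉ S`, `y⁻¹ u = u`, `y' u = x`, `y x = x`. -/
def S_comm (X : Type) [TopologicalSpace X] : Prop :=
  ∀ (y y' : X ≃ₜ X) (A : Set X), (∀ x, y x ≠ x → y' x ≠ x → x ∈ A) → (∀ x ∈ A, y x ∉ A) →
    (∀ x ∈ A, y' x ∉ A) →
    (∀ x ∈ A, (y * y' * y⁻¹ * y'⁻¹) x = y x) ∧
    (∀ x ∈ A, (y * y' * y⁻¹ * y'⁻¹) (y x) = y' x) ∧
    (∀ x ∈ A, (y * y' * y⁻¹ * y'⁻¹) (y' x) = x) ∧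
    (∀ x, x ∉ A → (∀ a ∈ A, x ≠ y a) → (∀ a ∈ A, x ≠ y' a) →
      (y * y' * y⁻¹ * y'⁻¹) x = x)

/-- JOB SPLIT. A three-cycle lies in `K` if its small restrictions do.
Proof. For a clopen `D ⊆ A` let `r_D` be the homeomorphism equal to `t` on the clopen
`t`-invariant set `W_D = D ∪ t '' D ∪ (t * t) '' D` and to the identity elsewhere (a homeomorphism
because `W_D` is clopen and invariant: piecewise, inverse the same with `t⁻¹`); then
`IsTri r_D D`. For `D = A` it is `t`. If `D₁, D₂ ⊆ A` are disjoint then `W_{D₁}`, `W_{D₂}` are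
disjoint and `r_{D₁ ∪ D₂} = r_{D₁} * r_{D₂}`. By `hA.isClosed.isCompact.induction_on` with the
property `p S := ∃ N, IsClopen N ∧ S ⊆ N ∧ N ⊆ A ∧ ∀ D, IsClopen D → D ⊆ N → r_D ∈ K` (empty set:
`r_∅ = 1`; union: `D = (D ∩ N₁) ∪ (D \ N₁)`), `p A` holds, so `t = r_A ∈ K`. -/
def S_split (X : Type) [TopologicalSpace X] : Prop :=
  ∀ (K : Subgroup (X ≃ₜ X)) (t : X ≃ₜ X) (A : Set X), IsClopen A → IsTri t A →
    (∀ x ∈ A, ∃ N, IsClopen N ∧ x ∈ N ∧ N ⊆ A ∧ ∀ D, IsClopen D → D ⊆ N →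
      ∀ r : X ≃ₜ X, IsTri r D → (∀ x ∈ D, r x = t x) → (∀ x ∈ D, r (t x) = t (t x)) → r ∈ K) →
    t ∈ K

/-- JOB TRI. Uses `S_ext`, `S_comm`, `S_split`. Three-cycles which are locally in `G` are in `G`.
Proof. `S_split` with `K = G`. For `x ∈ A` choose `γ₁, γ₂ ∈ G` with `t = γ₁` near `x`, `t = γ` near
`t x`, `γ₂ = γ * γ₁`, so `t (t z) = γ₂ z` near `x`; choose a clopen `N ∋ x`, `N ⊆ A`, where both
identities hold, and `N ≠ A` (`clopen_avoid`, as `A` has a second point). Let `D ⊆ N` be clopen,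
`r` as in `S_split`. If `D` is empty, `r = 1`. Otherwise the complement of
`W = D ∪ t '' D ∪ (t * t) '' D` is nonempty (it contains the points of `A \ N`), open; `pieces 2`
gives disjoint nonempty clopen `Z₁, Z₂` in it. `S_ext` (three pieces: `D` with `γ₁`; `γ₁ '' D`
with `γ₁⁻¹`; `(D ∪ γ₁ '' D ∪ Z₁)ᶜ` with `1`; neither family covers `Z₁`) gives `y ∈ G` with
`y = γ₁` on `D`, `y = γ₁⁻¹` on `γ₁ '' D`, identity outside `D ∪ γ₁ '' D ∪ Z₁`. In the same way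
`y' ∈ G` equals `γ₂` on `D`, `γ₂⁻¹` on `γ₂ '' D`, identity outside `D ∪ γ₂ '' D ∪ Z₂`. The
supports meet only in `D`. `S_comm` with `A := D`: the commutator maps `x ∈ D` to `γ₁ x = t x`,
`t x` to `γ₂ x = t (t x)`, `t (t x)` to `x` and is the identity elsewhere, so it is `r`. -/
def S_tri (X : Type) [TopologicalSpace X] : Prop :=
  ∀ G : Subgroup (X ≃ₜ X), Vig G → Simp G → ∀ t : X ≃ₜ X, Loc G t → ∀ A : Set X,
    IsClopen A → IsTri t A → t ∈ G

/-- JOB TOWER. Uses `S_tri`. The symmetric group acts on `n` disjoint copies `e s '' B`, its even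
elements act by elements of `G`.
Proof. For a permutation `π` let `f_π x = e (π s) ((e s)⁻¹ x)` if `x ∈ e s '' B` (this `s` is
unique) and `f_π x = x` if `x` is in no `e s '' B`. Then `f_1 = id`, `f_{π ρ} = f_π ∘ f_ρ`. `Loc G
f_π`: on the clopen set `e s '' B` it is `e (π s) * (e s)⁻¹ ∈ G`, on the complement (clopen) of the
union it is the identity. Hence `f_π` is continuous (`continuous_iff_continuousAt`, locally equal
to a homeomorphism), so it is a homeomorphism with inverse `f_{π⁻¹}`. If `π` is even: by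
`Equiv.Perm.closure_three_cycles_eq_alternating` and `Subgroup.closure_induction` it is enough to
treat a three-cycle `π`; take `a` with `π a ≠ a`; `π³ = 1`, `π (π a) ≠ a`, and `π s = s` for
`s ∉ {a, π a, π (π a)}`; so `IsTri (Ψ π) (e a '' B)` and `S_tri` applies. -/
def S_tower (X : Type) [TopologicalSpace X] : Prop :=
  ∀ G : Subgroup (X ≃ₜ X), Vig G → Simp G → ∀ (n : ℕ) (e : Fin n → (X ≃ₜ X)) (B : Set X),
    IsClopen B → (∀ s, e s ∈ G) → (∀ s t, s ≠ t → Disjoint (e s '' B) (e t '' B)) →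
    ∃ Ψ : Equiv.Perm (Fin n) →* (X ≃ₜ X), (∀ π s, ∀ b ∈ B, Ψ π (e s b) = e (π s) b) ∧
      (∀ π x, (∀ s, x ∉ e s '' B) → Ψ π x = x) ∧ ∀ π, Equiv.Perm.sign π = 1 → Ψ π ∈ G

/-- JOB CYCLE. Uses `S_tower`. Cycles of odd length are in `G`.
Proof. `n = m + 1` with `m` even; `Ψ` from `S_tower` for `fun s : Fin n => e s`;
`c = Ψ (finRotate (m + 1))`; `sign_finRotate`, `finRotate_succ_apply`; the rotation has order
`n`: `(finRotate (m + 1)) ^ s` maps `0` to `s` for `s < n` and `(finRotate (m + 1)) ^ n = 1`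
(induction: `(finRotate (m+1) ^ s) i = i + s`). -/
def S_cycle (X : Type) [TopologicalSpace X] : Prop :=
  ∀ G : Subgroup (X ≃ₜ X), Vig G → Simp G → ∀ (n : ℕ) (e : ℕ → (X ≃ₜ X)) (B : Set X),
    Odd n → IsClopen B → (∀ s, e s ∈ G) →
    (∀ s < n, ∀ t < n, s ≠ t → Disjoint (e s '' B) (e t '' B)) → e 0 = 1 →
    ∃ c ∈ G, c ^ n = 1 ∧ (∀ s < n, ∀ b ∈ B, (c ^ s) b = e s b) ∧
      ∀ x, (∀ s < n, x ∉ e s '' B) → c x = x

/-- JOB UNION. Uses `S_split`, `S_cycle`. If `U ∩ V ≠ ∅` then `Alt G (U ∪ V)` is contained in the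
group generated by `Alt G U` and `Alt G V`.
Proof. MOVE LEMMA: let `U`, `D ⊆ U` and `F` be clopen, `T ⊆ U` clopen with `T \ (F ∪ D)` nonempty,
`D ≠ univ`. Then there is `ρ ∈ Alt G U` with `ρ '' D ⊆ T \ (F ∪ D)`, `ρ x = x` for `x ∈ F \ D`, and
`T \ (F ∪ D ∪ ρ '' D)` nonempty. Indeed if `D = ∅` take `ρ = 1`; otherwise `pieces 2` in
`T \ (F ∪ D)` gives `Y₁, Y₂` (disjoint, nonempty, not covering); vigor in `univ` gives `g₁, g₂ ∈ G`
with `g_j '' D ⊆ Y_j`; `S_cycle` with `n = 3`, `B = D`, `e 0 = 1, e 1 = g₁, e s = g₂` (`s ≥ 2`)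
gives `c ∈ G` with `IsTri c D` and support in `D ∪ Y₁ ∪ Y₂ ⊆ U`; so `c ∈ Alt G U`, `ρ = c`.
MAIN PROOF. By `Subgroup.closure_le` let `t ∈ G`, `Sup t (U ∪ V)`, `IsTri t A`, `A` clopen; show
`t ∈ K` with `S_split`. Let `x ∈ A`. The points `x, t x, t (t x)` are moved, so they lie in
`U ∪ V`: choose for each of them one of `U`, `V` containing it: `c₀, c₁, c₂`. Let `W = U ∩ V`;
`W \ {x, t x, t² x}` contains a point `p` (`open_avoid`). Choose a clopen `N ∋ x`, `N ⊆ A`, with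
`t^j '' N ⊆ c_j` and `p ∉ t^j '' N` (`j = 0, 1, 2`). Let `D ⊆ N` clopen, `r` as in `S_split`,
`D_j = t^j '' D`, pairwise disjoint, none of them `univ` (`p`). Apply the move lemma with `T = W`:
first to `D₀` in `c₀` with `F = D₁ ∪ D₂`, get `ρ₀`; then to `D₁` in `c₁` with
`F = D₀ ∪ D₂ ∪ ρ₀ '' D₀`, get `ρ₁`; then to `D₂` in `c₂` with `F = D₀ ∪ D₁ ∪ ρ₀ '' D₀ ∪ ρ₁ '' D₁`,
get `ρ₂` (at each step the set `W` minus all of these is nonempty). `ρ = ρ₂ * ρ₁ * ρ₀ ∈ K` maps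
`D_j` into `W`. `r ∈ G`: it is a three-cycle with base `D`, equal to the one given by `S_cycle`
(`n = 3`, `e 1 = t`, `e s = t * t`). `ρ * r * ρ⁻¹` is a three-cycle (`IsTri.conj`), in `G`, with
support in `ρ '' (D₀ ∪ D₁ ∪ D₂) ⊆ W ⊆ U`, so it lies in `Alt G U ≤ K`, hence `r ∈ K`. -/
def S_union (X : Type) [TopologicalSpace X] : Prop :=
  ∀ G : Subgroup (X ≃ₜ X), Vig G → Simp G → ∀ (K : Subgroup (X ≃ₜ X)) (U V : Set X),
    IsClopen U → IsClopen V → (U ∩ V).Nonempty → Alt G U ≤ K → Alt G V ≤ K →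
    Alt G (U ∪ V) ≤ K

/-- JOB ALT. Uses `S_cycle`. (1) Conjugation moves `Alt G U` to `Alt G (g '' U)` (closure
induction, `Sup.conj`, `IsTri.conj`, `image_clopen`). (2) `Alt G univ = G`: it is a subgroup of `G`
normalized by `G` (by (1), `g '' univ = univ`), and it is not trivial: `pieces 3` in `univ` gives
`P₀, P₁, P₂`; vigor in `univ` gives `g₁, g₂ ∈ G` with `g_j '' P₀ ⊆ P_j`; `S_cycle` with `n = 3`,
`B = P₀`, `e 0 = 1, e 1 = g₁, e s = g₂` gives a nontrivial element `c` with `IsTri c P₀`. Now use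
`Simp`. -/
def S_alt (X : Type) [TopologicalSpace X] : Prop :=
  (∀ (G : Subgroup (X ≃ₜ X)) (U : Set X), ∀ g ∈ G, ∀ t ∈ Alt G U, g * t * g⁻¹ ∈ Alt G (g '' U)) ∧
  ∀ G : Subgroup (X ≃ₜ X), Vig G → Simp G → Alt G univ = G

/-- JOB BASE. Uses `S_tri`, `S_alt`. Some `Alt G P`, `P` proper, is contained in a group generated by
finitely many three-cycles supported in `P`.
Proof. (a) `G = Alt G univ` is finitely generated, so there is a finite set `Φ₀` of elements `t ∈ G`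
with `IsTri t A_t`, `A_t` clopen, and `closure Φ₀ = G` (every element of `closure T` is in
`closure T₀` for some finite `T₀ ⊆ T`; take the union over a finite generating set).
(b) `pieces 2` in `univ` gives `Y₁, Y₂` nonempty clopen disjoint with `Y₁ ∪ Y₂ ≠ univ`;
`clopen_proper` gives a clopen `A₀`, nonempty, with nonempty complement; vigor in `univ` gives
`a, b ∈ G` with `a '' A₀ ⊆ Y₁`, `b '' A₀ᶜ ⊆ Y₂`. Let `κ = a` on `A₀`, `κ = b` on `A₀ᶜ` (a function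
`X → X`), injective, `Loc G κ`, `P = range κ = a '' A₀ ∪ b '' A₀ᶜ` clopen, `≠ univ`.
(c) For `h : X ≃ₜ X` let `κ_* h` be `κ (h x)` at `κ x`, and the identity outside `P`: a
homeomorphism, `κ_*` is a homomorphism (inverse `κ_* h⁻¹`; continuous because on the clopen
`a '' A₀` it is `κ ∘ h ∘ a⁻¹`, on `b '' A₀ᶜ` it is `κ ∘ h ∘ b⁻¹`). If `h ∈ G` then `Loc G (κ_* h)`.
If `IsTri t A` then `IsTri (κ_* t) (κ '' A)`; so for `t ∈ G`, `κ_* t ∈ G` by `S_tri`.
`φ` enumerates `κ_* Φ₀`, `A m = κ '' A_t`.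
(d) `Alt G P ≤ closure (κ_* Φ₀)`: let `t' ∈ G`, `Sup t' P`, `IsTri t' A'`, `A'` clopen. Then
`t = κ⁻¹ t' κ` (well defined as `t' P = P`) is a homeomorphism, `Loc G t`, and `IsTri t (κ ⁻¹' A')`
if `A' ⊆ P` (true: points of `A'` are moved), so `t ∈ G = closure Φ₀` by `S_tri` and
`t' = κ_* t ∈ closure (κ_* Φ₀)`. -/
def S_base (X : Type) [TopologicalSpace X] : Prop :=
  ∀ G : Subgroup (X ≃ₜ X), Vig G → Simp G → G.FG →
    ∃ (P : Set X) (M : ℕ) (φ : Fin M → (X ≃ₜ X)) (A : Fin M → Set X),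
      IsClopen P ∧ P ≠ univ ∧ P.Nonempty ∧
      (∀ m, φ m ∈ G ∧ Sup (φ m) P ∧ IsClopen (A m) ∧ IsTri (φ m) (A m) ∧ A m ⊆ P) ∧
      Alt G P ≤ Subgroup.closure (Set.range φ)

/-! ## Part 2: the element `σ` -/

/-- JOB COPRIME (pure group theory). Commuting elements of pairwise coprime finite orders are powers
of one element.
Proof. Induction on `s`, proving in addition that `σ` commutes with everything that commutes with all
`c i`, `i ∈ s`, and `σ ^ (∏ i ∈ s, ℓ i) = 1`. For `insert j s`: `σ' = σ * c j`, `L = ∏ i ∈ s, ℓ i`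
is coprime to `ℓ j`; by the Chinese remainder theorem (`Nat.chineseRemainder`) take `u ≡ 1` mod `L`,
`u ≡ 0` mod `ℓ j`: `σ' ^ u = σ`; so `c j = σ⁻¹ * σ'` is a power of `σ'` as well. -/
def S_coprime : Prop :=
  ∀ (H : Type) (_ : Group H) (ι : Type) (s : Finset ι) (c : ι → H) (ℓ : ι → ℕ),
    (∀ i ∈ s, ∀ j ∈ s, Commute (c i) (c j)) → (∀ i ∈ s, c i ^ ℓ i = 1) →
    (∀ i ∈ s, ∀ j ∈ s, i ≠ j → Nat.Coprime (ℓ i) (ℓ j)) →
    ∃ σ ∈ Subgroup.closure (c '' s), ∀ i ∈ s, c i ∈ Subgroup.zpowers σ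

/-- JOB BALANCE. Decomposition of a clopen set `R` into `q * n + 1` copies of `R` and `q` copies of a
smaller set `N`.
Proof. `clopen_proper` gives a clopen nonempty `R' ⊆ R` with `R \ R'` nonempty; vigor in `univ`
gives `g ∈ G` with `g '' R ⊆ R'`. `E = R \ g '' R` is clopen nonempty; `R` is the disjoint union of
`g ^ j '' E` (`j < q`) and `g ^ q '' R`. `pieces n` in `E` gives `Y i`, not covering `E`; vigor
gives `c i ∈ G` with `c i '' R ⊆ Y i`; `N = E \ ⋃ c i '' R` is nonempty clopen. Put `a 0 = g ^ q`,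
`a (1 + j + q * i) = g ^ j * c i` (`j < q`, `i < n`), `b j = g ^ j`. -/
def S_balance (X : Type) [TopologicalSpace X] : Prop :=
  ∀ G : Subgroup (X ≃ₜ X), Vig G → ∀ R : Set X, IsClopen R → R.Nonempty → R ≠ univ →
    ∀ n q : ℕ, ∃ (a b : ℕ → (X ≃ₜ X)) (N : Set X), (∀ s, a s ∈ G) ∧ (∀ s, b s ∈ G) ∧
      IsClopen N ∧ N.Nonempty ∧
      (∀ s ≤ q * n, ∀ t ≤ q * n, s ≠ t → Disjoint (a s '' R) (a t '' R)) ∧
      (∀ s < q, ∀ t < q, s ≠ t → Disjoint (b s '' N) (b t '' N)) ∧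
      (∀ s ≤ q * n, ∀ t < q, Disjoint (a s '' R) (b t '' N)) ∧
      (∀ x, x ∈ R ↔ (∃ s ≤ q * n, x ∈ a s '' R) ∨ ∃ t < q, x ∈ b t '' N)

/-- JOB LEN (number theory). Proof: distinct odd primes `ℓ i ≥ L + 3` and `q ≥ L + 3`
(`Nat.exists_infinite_primes`, increasing choice), `n = 2 * ∏ i, ℓ i`; `q * n + 1 ≡ 1` modulo each
`ℓ i` and modulo `q`. -/
def S_len : Prop :=
  ∀ r L : ℕ, ∃ (ℓ : Fin r → ℕ) (q n : ℕ), (∀ i, L ≤ ℓ i) ∧ (∀ i, Odd (ℓ i)) ∧ L ≤ q ∧ Odd q ∧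
    L ≤ q * n + 1 ∧ Odd (q * n + 1) ∧ (∀ i j, i ≠ j → Nat.Coprime (ℓ i) (ℓ j)) ∧
    (∀ i, Nat.Coprime (ℓ i) q) ∧ (∀ i, Nat.Coprime (ℓ i) (q * n + 1)) ∧
    Nat.Coprime q (q * n + 1)

/-- the index set of the components: `none` is the main component, `some (Sum.inl ι)` the
engines, `some (Sum.inr b)` the two balancing components -/
abbrev Idx (k M : ℕ) : Type := Option ((Fin k × Fin M × Bool) ⊕ Bool)

/-- The data produced by Part 2. Component `z` is the cycle `c z` of length `ℓ z` which permutes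
cyclically the disjoint sets `(c z ^ s) '' B z`, `s < ℓ z`; all these sets partition `X`. -/
structure Data {X : Type} [TopologicalSpace X] (G : Subgroup (X ≃ₜ X)) (k : ℕ) where
  /-- number of generators -/
  M : ℕ
  /-- the base of the main component -/
  P : Set X
  /-- generators -/
  φ : Fin M → (X ≃ₜ X)
  /-- their bases -/
  A : Fin M → Set X
  /-- the components -/
  c : Idx k M → (X ≃ₜ X)
  /-- their lengths -/
  ℓ : Idx k M → ℕ
  /-- their bases -/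
  B : Idx k M → Set X
  /-- base maps of the engines -/
  e : Fin k × Fin M × Bool → (X ≃ₜ X)
  /-- the element -/
  σ : X ≃ₜ X
  Pcl : IsClopen P
  Pne : P ≠ univ
  Pnon : P.Nonempty
  φG : ∀ m, φ m ∈ G
  φP : ∀ m, Sup (φ m) P
  Acl : ∀ m, IsClopen (A m)
  Atri : ∀ m, IsTri (φ m) (A m)
  AP : ∀ m, A m ⊆ P
  alt : Alt G P ≤ Subgroup.closure (Set.range φ)
  cG : ∀ z, c z ∈ G
  Bcl : ∀ z, IsClopen (B z)
  per : ∀ z, c z ^ ℓ z = 1
  disj : ∀ z s z' s', s < ℓ z → s' < ℓ z' → (z = z' → s ≠ s') →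
    Disjoint ((c z ^ s) '' B z) ((c z' ^ s') '' B z')
  cov : ∀ x, ∃ z, ∃ s < ℓ z, x ∈ (c z ^ s) '' B z
  fix : ∀ z x, (∀ s < ℓ z, x ∉ (c z ^ s) '' B z) → c z x = x
  main : B none = P
  lenmain : Fintype.card (Fin k × Fin M × Bool) < ℓ none
  len : ∀ z, k + 2 ≤ ℓ z
  eG : ∀ ι, e ι ∈ G
  eng : ∀ ι : Fin k × Fin M × Bool, B (some (Sum.inl ι)) = e ι '' A ι.2.1
  non : (B (some (Sum.inr false))).Nonempty
  σG : σ ∈ G
  pow : ∀ z, c z ∈ Subgroup.zpowers σ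

/-- JOB DATA. Uses `S_base`, `S_cycle`, `S_coprime`, `S_balance`, `S_len`. The data exist.
Proof. `S_base` gives `P, M, φ, A`. Let `J = Fin k × Fin M × Bool`. `S_len` with `r = card J + 1`
and `L = card J + k + 3` gives the lengths `ℓ none`, `ℓ (some (inl ι))`, and `q`, `n`; put
`ℓ (some (inr false)) = q * n + 1`, `ℓ (some (inr true)) = q`. Let `Λ = Σ z : Option J, Fin (ℓ z)`;
`pieces (card Λ)` in `Pᶜ` gives disjoint nonempty clopen `Y λ ⊆ Pᶜ` not covering `Pᶜ`; vigor in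
`univ` gives `v λ ∈ G` with `v λ '' P ⊆ Y λ`. MAIN: base `P`, `e 0 = 1`, `e s = v (none, s)` for
`s ≥ 1`. ENGINE `ι = (i, m, ε)`: base `B = v (some ι, 0) '' A m`, `e ι = v (some ι, 0)`, maps
`e s = v (some ι, s) * v (some ι, 0)⁻¹` (so `e 0 = 1`); pieces `v (some ι, s) '' A m ⊆ Y`.
`R` = complement of `P`, of the main pieces and of the engine pieces: clopen, nonempty (the `Y λ`
do not cover `Pᶜ`), `≠ univ`. `S_balance` with `R, n, q` gives `a, b, N`. BALANCING: `false`: base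
`a 0 '' R`, maps `a s * (a 0)⁻¹`, length `q * n + 1`; `true`: base `b 0 '' N`, maps
`b s * (b 0)⁻¹`, length `q`. `S_cycle` gives `c z ∈ G` for every `z` (all lengths are odd), with
`(c z ^ s) '' B z` = piece `s`. All pieces are disjoint and cover `X`. The `c z` commute because
their supports are disjoint, the lengths are pairwise coprime, so `S_coprime` gives `σ`, which is in
`closure (range c) ≤ G`. -/
def S_data (X : Type) [TopologicalSpace X] : Prop :=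
  ∀ G : Subgroup (X ≃ₜ X), Vig G → Simp G → G.FG → ∀ k : ℕ, Nonempty (Data G k)

/-! ## Part 3: the conjugating element `g` -/

/-- JOB LOCATE. Generic small clopen sets.
Proof. (a) For each `l` shrink `O l` to a nonempty open `O' l` such that for each `w ∈ S` either
`w = id` on `O' l` or `w x ≠ x` for all `x ∈ O' l` (finset induction on `S`: if `w` is not the
identity on the present open set, replace it by its intersection with the open set `{x | w x ≠ x}`,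
`isClosed_eq`). (b) Choose points `p l ∈ O' l` one after the other (induction over a finset of
indices or over `Fin n`) such that `w (p l) ≠ w' (p m)` for `l ≠ m`, `w, w' ∈ S` (`open_avoid` with
the finite sets of all `w⁻¹ (w' (p m))`). (c) By continuity and Hausdorffness (`t2_separation`)
there are for each of the finitely many conditions neighbourhoods for which it persists:
`w (p l) ≠ w' (p m)` gives open `V ∋ p l`, `V' ∋ p m` with `w V ∩ w' V' = ∅`; `w (p l) ≠ p l` gives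
an open `V ∋ p l` with `w V ∩ V = ∅`. Take a clopen `N l ∋ p l` in the finite intersection of these
neighbourhoods and of `O' l` (`clopen_nhd`). -/
def S_locate (X : Type) [TopologicalSpace X] : Prop :=
  ∀ (S : Finset (X ≃ₜ X)) (Λ : Type) (_ : Finite Λ) (O : Λ → Set X), (∀ l, IsOpen (O l)) →
    (∀ l, (O l).Nonempty) → ∃ N : Λ → Set X, (∀ l, IsClopen (N l)) ∧ (∀ l, (N l).Nonempty) ∧
      (∀ l, N l ⊆ O l) ∧
      (∀ l m, l ≠ m → ∀ w ∈ S, ∀ w' ∈ S, Disjoint (w '' N l) (w' '' N m)) ∧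
      (∀ l, ∀ w ∈ S, (∀ x ∈ N l, w x = x) ∨ Disjoint (w '' N l) (N l))

/-- `φ` or `φ⁻¹` -/
def sg {X : Type} [TopologicalSpace X] (f : X ≃ₜ X) (b : Bool) : X ≃ₜ X := if b then f else f⁻¹

/-- The properties of the conjugating element `g`; `s` is the place of the engine `ι` in the main
cycle. -/
structure Good {X : Type} [TopologicalSpace X] {G : Subgroup (X ≃ₜ X)} {k : ℕ} (d : Data G k)
    (α : Fin k → (X ≃ₜ X)) (g : X ≃ₜ X) (s : Fin k × Fin d.M × Bool → ℕ) : Prop where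
  gG : g ∈ G
  spos : ∀ ι, 0 < s ι
  slt : ∀ ι, s ι < d.ℓ none
  sinj : Function.Injective s
  e1 : ∀ ι, ∀ a ∈ d.A ι.2.1, g (d.e ι a) = α ι.1 (g ((d.c none ^ s ι) a))
  e2 : ∀ ι, ∀ a ∈ d.A ι.2.1, g (d.c (some (Sum.inl ι)) (d.e ι a)) =
    α ι.1 (g ((d.c none ^ s ι) (sg (d.φ ι.2.1) ι.2.2 a)))
  e3 : ∀ ι, ∀ t, 2 ≤ t → t < d.ℓ (some (Sum.inl ι)) → ∀ b ∈ d.B (some (Sum.inl ι)),
    (α ι.1)⁻¹ (g ((d.c (some (Sum.inl ι)) ^ t) b)) = g ((d.c (some (Sum.inl ι)) ^ t) b) ∨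
    (α ι.1)⁻¹ (g ((d.c (some (Sum.inl ι)) ^ t) b)) ∈ g '' d.P
  c1 : ∀ i, ∃ x ∈ g '' d.P, α i x ∈ g '' d.P
  c2 : ∀ i, ∀ z, z ≠ none → ∃ t < d.ℓ z, ∀ b ∈ d.B z, α i (g ((d.c z ^ t) b)) ∈ g '' d.P

/-- JOB PLACE (helper27 does this one). -/
def S_place (X : Type) [TopologicalSpace X] : Prop :=
  ∀ G : Subgroup (X ≃ₜ X), Vig G → Simp G → ∀ (k : ℕ) (d : Data G k) (α : Fin k → (X ≃ₜ X)),
    (∀ i, α i ∈ G) → (∀ i, α i ≠ 1) → ∃ g s, Good d α g s

/-- JOB ENGINE. Uses `S_comm`.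
Proof. Fix `i`, `m`; let `K` be the closure, `β z = g * c z * g⁻¹`; `β z ∈ K` since `c z` is a power
of `σ` and `g σ g⁻¹ ∈ K`; `α i ∈ K`. For `ι = (i, m, ε)` and `s = s ι` let
`y_ι = (β₀ ^ s)⁻¹ * (α i)⁻¹ * β_ι * α i * β₀ ^ s ∈ K` (`β₀ = β none`, `β_ι = β (some (inl ι))`).
(1) For `a ∈ A m`: `y_ι (g a) = g (sg (φ m) ε a)`: `β₀ ^ s (g a) = g (c₀ ^ s a)`, `e1`, `β_ι` maps
`g (e ι a)` to `g (c_ι (e ι a))`, `e2`, and undo. (2) If `y_ι x ≠ x` then `x ∈ g '' A m`, or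
`x ∈ g '' (sg (φ m) ε '' A m)`, or `x ∈ g '' (pieces of ι)` i.e. `x = g ((c_ι ^ t) b)` with
`2 ≤ t < ℓ_ι`, `b ∈ B_ι`, or `x = g ((c₀ ^ (ℓ₀ - s)) p)` with `p ∈ P`: indeed
`w = α i (β₀ ^ s x)` is moved by `β_ι`, so (`fix`) `w = g ((c_ι ^ t) b)` with `t < ℓ_ι`,
`b ∈ B_ι = e ι '' A m`. If `t = 0`: `w = g (e ι a) = α i (g (c₀ ^ s a))`, so
`β₀ ^ s x = g (c₀ ^ s a)`, `x = g a`. If `t = 1`: `x = g (sg (φ m) ε a)` in the same way. If
`t ≥ 2`: `β₀ ^ s x = (α i)⁻¹ w` and `e3`: either `(α i)⁻¹ w = w`, then `β₀ ^ s x = w`; `c₀` fixes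
the points of the pieces of `ι` (`fix`, `disj`), so `x = w`; or `β₀ ^ s x ∈ g '' P`, so
`x = g (c₀ ^ (ℓ₀ - s) p)` (`per`).
(3) Let `y`, `y'` be the elements for `ε = true`, `ε = false`. Their supports meet only in
`g '' A m`: the pieces of different components or different positions are disjoint (`disj`), with
`P = B none` the piece `(none, 0)`, `A m`, `φ '' A m`, `φ⁻¹ '' A m` (`= φ² '' A m`) are disjoint
subsets of `P` (`Atri`, `φP`), the numbers `ℓ₀ - s ι` are different (`sinj`), positive, `< ℓ₀`.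
`y`, `y'` map `g '' A m` to `g '' (φ '' A m)`, `g '' (φ⁻¹ '' A m)`, disjoint from `g '' A m`.
`S_comm` with `A := g '' A m` computes the commutator: `g a ↦ g (φ a)`,
`g (φ a) ↦ g (φ⁻¹ a) = g (φ (φ a))`, `g (φ⁻¹ a) ↦ g a`, identity elsewhere; so it is
`g * φ m * g⁻¹`. -/
def S_engine (X : Type) [TopologicalSpace X] : Prop :=
  ∀ (G : Subgroup (X ≃ₜ X)) (k : ℕ) (d : Data G k) (α : Fin k → (X ≃ₜ X)) (g : X ≃ₜ X)
    (s : Fin k × Fin d.M × Bool → ℕ), Good d α g s → ∀ i m,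
    g * d.φ m * g⁻¹ ∈ Subgroup.closure ({α i, g * d.σ * g⁻¹} : Set (X ≃ₜ X))

/-- JOB COVER. Uses `S_union`, `S_alt`.
Proof. Let `K` be the closure, `β z = g * c z * g⁻¹ ∈ K` (power of `g σ g⁻¹`), `α i ∈ K`.
`Alt G (g '' P) ≤ K`: for a generator `t` of `Alt G (g '' P)`, `g⁻¹ t g ∈ Alt G P` (`S_alt` (1) for
`g⁻¹`), which is in the closure of the `φ m`, and all `g φ_m g⁻¹ ∈ K`. For `h ∈ K ∩ G` and a set
`U`: `Alt G U ≤ K → Alt G (h '' U) ≤ K` (again `S_alt` (1)). Let `P' = g '' P`,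
`U = P' ∪ (α i)⁻¹ '' P'`; `c1` gives `P' ∩ (α i)⁻¹ '' P' ≠ ∅`, so `Alt G U ≤ K` by `S_union`. For
`z ≠ none` let `t_z` be from `c2`; the piece `R_z = g (c_z ^ t_z B_z)` is contained in `U`.
The sets `β₀ ^ s '' U` contain `g (c₀ ^ s P)`; they meet `U`: for `z = some (inr false)`, a point
of `R_z` (nonempty by `non`) is fixed by `β₀` and lies in `U`. The sets `β z ^ s '' U` (`z ≠ none`)
contain `g (c_z ^ (t_z + s) B_z)`; they meet `U`: a point of `P'` is fixed by `β z`. So by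
induction over the finite family of these sets, adding one after the other, with `S_union`
(each of them meets `U`), `Alt G` of the union is `≤ K`, and the union is `X` because every
piece is contained in one of them (`cov`, `per`). Hence `G = Alt G univ ≤ K` (`S_alt` (2)), and
`K ≤ G` is clear. -/
def S_cover (X : Type) [TopologicalSpace X] : Prop :=
  ∀ G : Subgroup (X ≃ₜ X), Vig G → Simp G → ∀ (k : ℕ) (d : Data G k) (α : Fin k → (X ≃ₜ X))
    (g : X ≃ₜ X) (s : Fin k × Fin d.M × Bool → ℕ), (∀ i, α i ∈ G) → Good d α g s → ∀ i,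
    (∀ m, g * d.φ m * g⁻¹ ∈ Subgroup.closure ({α i, g * d.σ * g⁻¹} : Set (X ≃ₜ X))) →
    Subgroup.closure ({α i, g * d.σ * g⁻¹} : Set (X ≃ₜ X)) = G

end Pool.Agent.Q27.VS
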