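import Pool.Agent.Q27.VS.Stm

/-!
# Statements of the second set of lemma jobs of project VS (helper27)

Goal (MP_e4017d_al): if a finitely generated simple vigorous group `G` contains an element `σ`
without finite orbits then `σ` witnesses strong infinite uniform spread: for all nontrivial
`α₁, …, α_k ∈ G` some `g ∈ G` is such that `⟨α_i, g σ g⁻¹⟩ = G` for every `i`.

All statements of `Stm.lean` are proved: `Pool.Agent.Q27.VS.Final` gives
`s_ext X : S_ext X`, `s_tri X : S_tri X`, `s_cycle X : S_cycle X`, `s_alt X : S_alt X`,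
`s_union X : S_union X`, `s_data`, and `Pool.Agent.Q299.VS.comm X : S_comm X`,
`Pool.Agent.Q144.VS.split X : S_split X`, `Pool.Agent.Q144.VS.locate X : S_locate X`,
`base X (s_tri X) (s_alt X) : S_base X`. So these may be used without hypotheses
(import `Pool.Agent.Q27.VS.Final`).
-/

set_option autoImplicit false

open Set Topology Filter

namespace Pool.Agent.Q27.VS

/-- no finite orbit -/
def Aper {X : Type} [TopologicalSpace X] (σ : X ≃ₜ X) : Prop :=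
  ∀ x, ∀ j : ℤ, j ≠ 0 → (σ ^ j) x ≠ x

/-- `U` is a marker set for `σ` with parameter `n`: the sets `σ ^ j '' U`, `|j| < n`, `j ≠ 0`, do not
meet `U`, and the sets `σ ^ j '' U`, `|j| < n`, cover the space. -/
structure Marker {X : Type} [TopologicalSpace X] (σ : X ≃ₜ X) (n : ℕ) (U : Set X) : Prop where
  cl : IsClopen U
  dis : ∀ j : ℤ, j ≠ 0 → |j| < n → ∀ x ∈ U, (σ ^ j) x ∉ U
  cov : ∀ x, ∃ j : ℤ, |j| < n ∧ (σ ^ j) x ∈ U

/-- JOB MARK. Marker sets exist.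
Proof. By continuity and Hausdorffness every `x` has a clopen neighbourhood `V` with
`(σ ^ j) y ∉ V` for `y ∈ V`, `0 < |j| < n` (finitely many `j`; `clopen_nhd`). Call a clopen set
`V` small if it has this property (subsets of small sets are small). By compactness
(`isCompact_univ.induction_on`, or `elim_nhds_subcover`) it is enough to show for the property
`p S := ∀ F clopen and small, ∃ F' clopen and small, F ⊆ F' ∧ ∀ x ∈ S, ∃ j, |j| < n ∧ (σ ^ j) x ∈ F'`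
that `p` holds for `∅`, passes to subsets and finite unions (apply it twice), and holds for each
small `V`: put `F' = F ∪ (V \ ⋃_{|j| < n} (σ ^ j)⁻¹' F)`. Then start with `F = ∅`. -/
def S_mark (X : Type) [TopologicalSpace X] : Prop :=
  ∀ σ : X ≃ₜ X, Aper σ → ∀ n : ℕ, 0 < n → ∃ U : Set X, Marker σ n U

/-- JOB GENS. Uses `S_base`, `S_alt`, `S_union`. For all nonempty clopen `U`, `Alt G U` is contained in
a group generated by `M` elements of `G` supported in `U`, with `M` independent of `U`.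
Proof. `S_base` gives `P`, `M₀`, `φ`. Let `M = M₀ + M₀`. Given `U`: `clopen_proper` gives a nonempty
clopen `U' ⊆ U` with `U \ U'` nonempty; vigor in `univ` gives `γ ∈ G` with `P' = γ '' P ⊆ U'`.
Two applications of `clopen_proper` give disjoint nonempty clopen `Y₁, Y₂ ⊆ U` with
`U \ (Y₁ ∪ Y₂)` nonempty; `D_j = U \ Y_j`. Vigor in `A = U` with `B = D_j`, `D = P'` gives
`δ_j ∈ G`, `δ_j '' D_j ⊆ P'`, `Sup δ_j U`. `P_j = δ_j⁻¹ '' P'` satisfies `D_j ⊆ P_j ⊆ U`, so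
`P₁ ∪ P₂ = U`, `P₁ ∩ P₂ ≠ ∅`. The elements `δ_j⁻¹ γ φ_m γ⁻¹ δ_j` are in `G`, supported in `U`;
`Alt G P_j` is contained in the group they generate for fixed `j` (`S_alt` (1) for
`(δ_j⁻¹ γ)⁻¹`, closure induction), and `S_union` gives the claim (`Fin.append`, `Fin.addCases`). -/
def S_gens (X : Type) [TopologicalSpace X] : Prop :=
  ∀ G : Subgroup (X ≃ₜ X), Vig G → Simp G → G.FG → ∃ M : ℕ, ∀ U : Set X, IsClopen U →
    U.Nonempty → ∃ φ : Fin M → (X ≃ₜ X), (∀ m, φ m ∈ G) ∧ (∀ m, Sup (φ m) U) ∧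
      Alt G U ≤ Subgroup.closure (Set.range φ)

/-- JOB NONCOMM. Uses `S_cycle`. Two of the generators do not commute.
Proof. Otherwise `Subgroup.closure (range φ)` is commutative (closure induction,
`Subgroup.closure_induction₂` or `Subgroup.isMulCommutative_closure`), hence so is `Alt G U`. But
`pieces 4` in `U` gives `P₀, …, P₃`, vigor in `univ` gives `g_j ∈ G`, `g_j '' P₀ ⊆ P_j`
(`j = 1, 2, 3`), and `S_cycle` with `n = 3`, `B = P₀` gives the three-cycles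
`c : P₀ → g₁ P₀ → g₂ P₀ → P₀` and `c' : P₀ → g₁ P₀ → g₃ P₀ → P₀` in `Alt G U`; for `x ∈ P₀`,
`c (c' x) = g₂ x`, `c' (c x) = g₃ x`. -/
def S_noncomm (X : Type) [TopologicalSpace X] : Prop :=
  ∀ G : Subgroup (X ≃ₜ X), Vig G → Simp G → ∀ U : Set X, IsClopen U → U.Nonempty →
    ∀ (M : ℕ) (φ : Fin M → (X ≃ₜ X)), Alt G U ≤ Subgroup.closure (Set.range φ) →
    ∃ m m', φ m * φ m' ≠ φ m' * φ m

/-- JOB SIMPLE. Uses `S_cycle`, `S_comm`, `S_union`, `S_alt`. A group normalized by `Alt G U` and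
containing a nontrivial element supported in `U` contains `Alt G U`.
Proof. Let `x ∈ N`, `x ≠ 1`, `Sup x U`; take `y` with `x y ≠ y`, so `y ∈ U`, and a clopen `D ∋ y`
in `U` with `x '' D ∩ D = ∅`. (1) For `a, b ∈ Alt G D` (`⊆ Alt G U`): `c = a x a⁻¹ x⁻¹ ∈ N` and
`b c b⁻¹ c⁻¹ ∈ N`; since `x a⁻¹ x⁻¹` is supported in `x '' D` it commutes with `b`, and
`b c b⁻¹ c⁻¹ = b a b⁻¹ a⁻¹`. So `N` contains all commutators of elements of `Alt G D`.
(2) `clopen_proper`: a nonempty clopen `D' ⊆ D` with `D \ D'` nonempty. `Alt G D' ≤ N`: let `t ∈ G`,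
`Sup t D'`, `IsTri t A`, `A` clopen; `A ⊆ D'` (its points are moved). If `A = ∅` then `t = 1`.
Otherwise `pieces 2` in `D \ D'` gives `Y₁, Y₂`; vigor in `univ` gives `g_j ∈ G`,
`g_j '' A ⊆ Y_j`; `S_cycle` (`n = 3`, `B = A`) gives `c : A → t A → g₁ A → A` and
`c' : A → t² A → g₂ A → A` in `Alt G D`; their supports meet only in `A`, and by `S_comm` the
commutator `c c' c⁻¹ c'⁻¹` is the three-cycle `A → t A → t² A → A`, i.e. `t`. By (1) `t ∈ N`.
(3) By compactness of `U` (`IsCompact.induction_on`, property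
`p S := ∃ V, IsClopen V ∧ S ⊆ V ∧ D' ⊆ V ∧ V ⊆ U ∧ Alt G V ≤ N`; unions by `S_union`) it is enough
to find for `x ∈ U \ D'` an element `ρ ∈ Alt G U` with `x ∈ ρ '' D'` and `ρ '' D' ∩ D' ≠ ∅`; then
`Alt G (ρ '' D') ≤ N` by `S_alt` (1) (for `ρ⁻¹`), and `V = D' ∪ ρ '' D'` (`ρ '' D' ⊆ U`) is
a neighbourhood of `x`. Take `A = U \ D'`... more precisely `A` clopen, `x ∈ A ⊆ U \ D'`, `A ≠ univ`;
`pieces 2` in `D'` gives `Y₁, Y₂`, vigor in `univ` gives `g_j '' A ⊆ Y_j`, and `S_cycle` gives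
`ρ : A → g₁ A → g₂ A → A`, `ρ ∈ Alt G U`; `ρ (g₂ x) = x` and `ρ (g₁ x) = g₂ x ∈ D'`. -/
def S_simple (X : Type) [TopologicalSpace X] : Prop :=
  ∀ G : Subgroup (X ≃ₜ X), Vig G → Simp G → ∀ U : Set X, IsClopen U →
    ∀ N : Subgroup (X ≃ₜ X), (∀ a ∈ Alt G U, ∀ x ∈ N, a * x * a⁻¹ ∈ N) →
    (∃ x ∈ N, x ≠ 1 ∧ Sup x U) → Alt G U ≤ N

/-- The levels of the engines: the engine `(i, m, ν)` goes from level `a` to level `b`; `p i` and
`p i + 1` are the ports of `i`. -/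
structure Lev (k M : ℕ) where
  /-- start levels -/
  a : Fin k × Fin M × Bool → ℕ
  /-- end levels -/
  b : Fin k × Fin M × Bool → ℕ
  /-- ports -/
  p : Fin k → ℕ
  /-- a bound -/
  L : ℕ
  apos : ∀ ι, 0 < a ι
  bpos : ∀ ι, 0 < b ι
  ppos : ∀ i, 0 < p i
  aL : ∀ ι, a ι < L
  bL : ∀ ι, b ι < L
  pL : ∀ i, p i + 1 < L
  ainj : Function.Injective a
  binj : Function.Injective b
  pinj : Function.Injective p
  ab : ∀ ι κ, a ι ≠ b κ
  ap : ∀ ι i, a ι ≠ p i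
  ap1 : ∀ ι i, a ι ≠ p i + 1
  bp : ∀ ι i, b ι ≠ p i
  bp1 : ∀ ι i, b ι ≠ p i + 1
  pp1 : ∀ i j, p i ≠ p j + 1
  diff : ∀ i m, b (i, m, false) + a (i, m, true) = b (i, m, true) + a (i, m, false)
  comb : ∀ i m m', m ≠ m' → ∀ ν ν' l l',
    (l = 0 ∨ (∃ ι, l = a ι) ∨ (∃ ι, l = b ι) ∨ (∃ j, l = p j) ∨ ∃ j, l = p j + 1) →
    (l' = 0 ∨ (∃ ι, l' = a ι) ∨ (∃ ι, l' = b ι) ∨ (∃ j, l' = p j) ∨ ∃ j, l' = p j + 1) →
    l + b (i, m', ν') = l' + b (i, m, ν) → l = b (i, m, ν)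

/-- the special levels -/
def Lev.IsE {k M : ℕ} (v : Lev k M) (l : ℕ) : Prop :=
  (∃ ι, l = v.a ι) ∨ (∃ ι, l = v.b ι) ∨ (∃ j, l = v.p j) ∨ ∃ j, l = v.p j + 1

/-- JOB LEVELS (combinatorics). Proof. Let `q = q (i, m) < k * M` enumerate the pairs; with base `10`:
`a (i, m, ν) = 10 ^ (3 q + 1 + (if ν then 1 else 0))`, `b (i, m, ν) = a (i, m, ν) + 10 ^ (3 q + 3)`,
`p i = 10 ^ (3 k M + 1 + i)`, `L = 10 ^ (3 k M + k + 2)`. All conditions are comparisons of decimal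
digits: each of the numbers has digits at most `1`, all sums occurring have digits at most `4`, and a
number is determined by its digits (e.g. `finFunctionFinEquiv` or a lemma: if `Σ f i * 10 ^ i =
Σ g i * 10 ^ i` over `i < N` with `f i, g i < 10` then `f = g`). `comb`: compare the digit of
`10 ^ (3 q + 3)`, `q = q (i, m)`: on the left `[l has it]`, on the right `[l' has it] + 1`; so `l` has
it, i.e. `l = b (i, m, true)` or `l = b (i, m, false)`; compare then the digit of the place of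
`a (i, m, ν)`: on the right at least `1`, on the left `1` only if `l = b (i, m, ν)`. -/
def S_levels : Prop := ∀ k M : ℕ, Nonempty (Lev k M)

/-- `φ m` for the engines `(i, m, false)`, `1` for the engines `(i, m, true)` -/
def enM {X : Type} [TopologicalSpace X] {k M : ℕ} (φ : Fin M → (X ≃ₜ X))
    (ι : Fin k × Fin M × Bool) : X ≃ₜ X := if ι.2.2 then 1 else φ ι.2.1

/-- The properties of the conjugating element. -/
structure Good2 {X : Type} [TopologicalSpace X] (G : Subgroup (X ≃ₜ X)) (σ : X ≃ₜ X) {k M : ℕ}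
    (v : Lev k M) (U : Set X) (φ : Fin M → (X ≃ₜ X)) (α : Fin k → (X ≃ₜ X)) (g : X ≃ₜ X) :
    Prop where
  gG : g ∈ G
  eng : ∀ ι, ∀ u ∈ U, α ι.1 (g ((σ ^ v.a ι) u)) = g ((σ ^ v.b ι) (enM φ ι u))
  port : ∀ i, ∀ u ∈ U, α i (g ((σ ^ v.p i) u)) ∈ g '' U
  port1 : ∀ i, ∀ u ∈ U, α i (g ((σ ^ (v.p i + 1)) u)) ∈ g '' U
  /-- either `α i` fixes all points outside `g '' U` which are not at a special level (sparse case),
  or it moves all of them into `g '' U` and maps the special levels into `g '' U` and the special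
  levels (dense case) -/
  alt : ∀ i, (∀ x, x ∉ U → (∀ l, v.IsE l → ∀ u ∈ U, x ≠ (σ ^ l) u) → α i (g x) = g x) ∨
    ((∀ x, x ∉ U → (∀ l, v.IsE l → ∀ u ∈ U, x ≠ (σ ^ l) u) → α i (g x) ∈ g '' U) ∧
      ∀ l, v.IsE l → ∀ u ∈ U, α i (g ((σ ^ l) u)) ∈ g '' U ∨
        ∃ l', v.IsE l' ∧ ∃ u' ∈ U, α i (g ((σ ^ l) u)) = g ((σ ^ l') u'))

/-- JOB PLACE2 (helper27 does this one). -/
def S_place2 (X : Type) [TopologicalSpace X] : Prop :=
  ∀ G : Subgroup (X ≃ₜ X), Vig G → Simp G → ∀ (k M : ℕ) (v : Lev k M) (n : ℕ), 2 * v.L ≤ n →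
    0 < n → ∀ σ ∈ G, ∀ U : Set X, Marker σ n U → ∀ φ : Fin M → (X ≃ₜ X), (∀ m, φ m ∈ G) →
    (∀ m, Sup (φ m) U) → ∀ α : Fin k → (X ≃ₜ X), (∀ i, α i ∈ G) → (∀ i, α i ≠ 1) →
    ∃ g, Good2 G σ v U φ α g

/-- JOB DENSE. Proof. Let `β = g σ g⁻¹`, `P' = g '' U`, `c = L`; `t = (β ^ b)⁻¹ * α i * β ^ a` for the
engine `ι = (i, m, true)`, `h = α i * β ^ c * α i`, and take `x = h * t * h⁻¹`. (1) `t = 1` on `P'`
by `eng` (`enM φ ι = 1`). (2) Every point outside `P'` is mapped into `P'` by `h`: let `y = g x`,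
`x ∉ U`. In both cases of `halt`, `α i y = g z` with `z ∈ U` or `z = (σ ^ l') u'`, `l'` special,
`u' ∈ U`. So `β ^ c (α i y) = g ((σ ^ c) z)`, and `(σ ^ c) z = (σ ^ s) u''` with `L ≤ s < 2 L`,
`u'' ∈ U`; this point is not in `U` (`Marker.dis`) and not at a special level `l < L` (otherwise
`(σ ^ (s - l)) u'' ∈ U`). So `halt` again gives `h y ∈ P'`. (3) `x` is the identity outside `P'`:
if `y ∉ P'` then `h⁻¹ y ∈ P'` by (2), so `t` fixes it. (4) `t ≠ 1`: let `u ∈ U`,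
`y = g ((σ ^ L) u)`. `β ^ a y = g ((σ ^ (L + a)) u)` is outside `P'` and not at a special level
(as in (2)), so `α i` maps it into `P'`; if `t y = y` then this image is
`β ^ b y = g ((σ ^ (L + b)) u) ∉ P'`, a contradiction. Membership in the closure is clear. -/
def S_dense (X : Type) [TopologicalSpace X] : Prop :=
  ∀ (G : Subgroup (X ≃ₜ X)) (k M : ℕ) (v : Lev k M) (n : ℕ), 2 * v.L ≤ n → ∀ (σ : X ≃ₜ X)
    (U : Set X), Marker σ n U → U.Nonempty → ∀ (φ : Fin M → (X ≃ₜ X)) (α : Fin k → (X ≃ₜ X))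
    (g : X ≃ₜ X), Good2 G σ v U φ α g → ∀ (i : Fin k), Fin M →
    (halt : (∀ x, x ∉ U → (∀ l, v.IsE l → ∀ u ∈ U, x ≠ (σ ^ l) u) → α i (g x) ∈ g '' U) ∧
      ∀ l, v.IsE l → ∀ u ∈ U, α i (g ((σ ^ l) u)) ∈ g '' U ∨
        ∃ l', v.IsE l' ∧ ∃ u' ∈ U, α i (g ((σ ^ l) u)) = g ((σ ^ l') u')) →
    ∃ x ∈ Subgroup.closure ({α i, g * σ * g⁻¹} : Set (X ≃ₜ X)), x ≠ 1 ∧ Sup x (g '' U)

/-- JOB SPARSE. Proof. Let `β = g σ g⁻¹`, `P' = g '' U`. For `m` let `a_ν = a (i, m, ν)`,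
`b_ν = b (i, m, ν)`, `w = (β ^ b_false)⁻¹ * α i * β ^ a_false`,
`t = (β ^ b_true)⁻¹ * α i * β ^ a_true`, `f_m = w * t⁻¹`. (1) For `u ∈ U`: `t (g u) = g u`,
`w (g u) = g (φ m u)` (`eng`), so `f_m (g u) = g (φ m u)`; `f_m` maps `P'` onto `P'` if `φ m` maps
`U` onto `U` (hypothesis `Sup`). (2) Let `y = g x`, `x ∉ U`, `f_m y ≠ y`. Then for some `ν` and some
`l` which is `0` or special and some `u ∈ U`: `(σ ^ b_ν) x = (σ ^ l) u`. Otherwise
`β ^ b_true y = g ((σ ^ b_true) x)` is fixed by `α i` (`halt`), hence by `(α i)⁻¹`;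
`β ^ (a_false - a_true + b_true) y = β ^ b_false y` by `diff` (integer exponents), it is fixed
by `α i` as well, so `f_m y = y`. (3) If `m ≠ m'` then no `y = g x`, `x ∉ U`, is moved by both `f_m`
and `f_m'`: otherwise `(σ ^ b) x = (σ ^ l) u`, `(σ ^ b') x = (σ ^ l') u'`, so
`(σ ^ (l - b - (l' - b'))) u = u' ∈ U` with exponent of absolute value `< 2 L ≤ n`, hence `0`
(`Marker.dis`), so `l + b' = l' + b` and `l = b` by `comb`, so `x = u ∈ U`, a contradiction.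
(4) `x = f_m * f_m' * f_m⁻¹ * f_m'⁻¹` equals `g [φ m, φ m'] g⁻¹` on `P'`; this is not the identity
(if it were the identity on `P'` then `φ m`, `φ m'` would commute on `U`, and outside `U` they are
the identity). Outside `P'` it is the identity: both `f_m`, `f_m'` preserve the complement of `P'`
and have disjoint supports there. -/
def S_sparse (X : Type) [TopologicalSpace X] : Prop :=
  ∀ (G : Subgroup (X ≃ₜ X)) (k M : ℕ) (v : Lev k M) (n : ℕ), 2 * v.L ≤ n → ∀ (σ : X ≃ₜ X)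
    (U : Set X), Marker σ n U → ∀ (φ : Fin M → (X ≃ₜ X)), (∀ m, Sup (φ m) U) →
    ∀ (α : Fin k → (X ≃ₜ X)) (g : X ≃ₜ X), Good2 G σ v U φ α g → ∀ (i : Fin k) (m m' : Fin M),
    φ m * φ m' ≠ φ m' * φ m →
    (halt : ∀ x, x ∉ U → (∀ l, v.IsE l → ∀ u ∈ U, x ≠ (σ ^ l) u) → α i (g x) = g x) →
    ∃ x ∈ Subgroup.closure ({α i, g * σ * g⁻¹} : Set (X ≃ₜ X)), x ≠ 1 ∧ Sup x (g '' U)

/-- JOB GENER. Uses `S_alt`, `S_simple`. Proof. Let `K` be the closure, `β = g σ g⁻¹`, `P' = g '' U`,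
`N` the subgroup of all `x ∈ K` with `Sup x P'`. For each `m` let `ψ = g * φ m * g⁻¹` (supported in
`P'`) and `w = (β ^ b)⁻¹ * α i * β ^ a ∈ K` for `ι = (i, m, false)`. By `eng`, `w = ψ` on `P'`, so
`w` and `w⁻¹` map `P'` to `P'`. For `x ∈ N`: `ψ * x * ψ⁻¹ = w * x * w⁻¹` and
`ψ⁻¹ * x * ψ = w⁻¹ * x * w` (compare at points of `P'` and outside), so both are in `N`. Hence
`N` is normalized by the group generated by the `ψ`s, which contains `Alt G P'` (for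
`t ∈ Alt G P'`, `g⁻¹ t g ∈ Alt G U` by `S_alt` (1), which is in the closure of the `φ m`). `N`
contains the nontrivial `x` of the hypothesis. `S_simple` for `P'` gives `Alt G P' ≤ N ≤ K`. -/
def S_gener (X : Type) [TopologicalSpace X] : Prop :=
  ∀ G : Subgroup (X ≃ₜ X), Vig G → Simp G → ∀ (k M : ℕ) (v : Lev k M) (σ : X ≃ₜ X)
    (U : Set X), IsClopen U → ∀ (φ : Fin M → (X ≃ₜ X)), (∀ m, Sup (φ m) U) →
    Alt G U ≤ Subgroup.closure (Set.range φ) →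
    ∀ (α : Fin k → (X ≃ₜ X)) (g : X ≃ₜ X), Good2 G σ v U φ α g → ∀ i : Fin k,
    (∃ x ∈ Subgroup.closure ({α i, g * σ * g⁻¹} : Set (X ≃ₜ X)), x ≠ 1 ∧ Sup x (g '' U)) →
    Alt G (g '' U) ≤ Subgroup.closure ({α i, g * σ * g⁻¹} : Set (X ≃ₜ X))

/-- JOB COVER2. Uses `S_union`, `S_alt`. Proof. Let `K` be the closure, `β = g σ g⁻¹ ∈ K`,
`P' = g '' U`. For `h ∈ K` (`K ≤ G`) and clopen `V`: `Alt G V ≤ K → Alt G (h '' V) ≤ K` (`S_alt` (1),
see `Cover.lean`). Let `P_j = β ^ j '' P'` and `R_j = (β ^ j * (α i)⁻¹) '' P'`, `j : ℤ`. By `port`,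
`port1`: `R_j` contains `P_{j + p}` and `P_{j + p + 1}` (`p = v.p i`); these are nonempty. Let
`W_j = P_j ∪ R_{j - p} ∪ P_{j + 1}`: by `S_union` twice `Alt G W_j ≤ K`, and `W_j ∩ W_{j+1}`
contains `P_{j + 1}`. By induction `Alt G (W_{-n} ∪ … ∪ W_{-n + r}) ≤ K` for all `r`, and for
`r = 2 n` the union is `univ` by `Marker.cov`. So `G = Alt G univ ≤ K` (`S_alt` (2)). -/
def S_cover2 (X : Type) [TopologicalSpace X] : Prop :=
  ∀ G : Subgroup (X ≃ₜ X), Vig G → Simp G → ∀ (k M : ℕ) (v : Lev k M) (n : ℕ), ∀ σ ∈ G,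
    ∀ U : Set X, Marker σ n U → U.Nonempty → ∀ (φ : Fin M → (X ≃ₜ X)) (α : Fin k → (X ≃ₜ X)),
    (∀ i, α i ∈ G) → ∀ g : X ≃ₜ X, Good2 G σ v U φ α g → ∀ i : Fin k,
    Alt G (g '' U) ≤ Subgroup.closure ({α i, g * σ * g⁻¹} : Set (X ≃ₜ X)) →
    Subgroup.closure ({α i, g * σ * g⁻¹} : Set (X ≃ₜ X)) = G

end Pool.Agent.Q27.VS
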